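import Pool.Agent.H5.DG3.Defs
import Pool.Agent.H5.DG.CovMap
import Pool.Agent.H5.DG.CovMain
import Pool.Agent.H17.BrodyLimit

/-!
# Project DG3, module Points: the values of a morphism

`morph_mk`: `rep` of `mk v` is `c • v`, so `F α a` at `rep` is `c ^ e` times its value at `v`
(`Pool.Agent.H17.exists_smul_rep`, `Pool.Agent.H17.eval_smul_of_isHomogeneous`).  The tuple chosen in
`morph` is proportional to `F α` at this point by `compat` (the polynomial in `compat` is homogeneous
and vanishes at `v`, so it vanishes at `c • v`).  `Projectivization.mk_eq_mk_iff'`.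
`vanishesAt_morph`: `morph_mk` for `v = x.rep` (`x.mk_rep`, `eval_of_mem`, module CovMap),
`Pool.Agent.H17.vanishesAt_mk_iff`, `Pool.Agent.H5.DG.eval_aeval` (CovMain).
-/

open MvPolynomial
open Pool.Agent.H17 (PN VanishesAt)
open Pool.Agent.H5.DG (Homog variety)

noncomputable section

namespace Pool.Agent.H5.DG3

variable {N M s : ℕ} {I : Ideal (MvPolynomial (Fin (N + 1)) ℂ)} {U : Set (PN N)}
  {F : Fin s → Fin (M + 1) → MvPolynomial (Fin (N + 1)) ℂ}

private theorem Points_eval_smul {e : ℕ} {Q : MvPolynomial (Fin (N + 1)) ℂ} (hQ : Q.IsHomogeneous e)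
    (c : ℂ) (v : Fin (N + 1) → ℂ) : eval (c • v) Q = c ^ e * eval v Q :=
  Pool.Agent.H17.eval_smul_of_isHomogeneous hQ c v

theorem morph_mk (hF : IsMorphism I U F) {v : Fin (N + 1) → ℂ} (hv : v ≠ 0)
    (hvI : ∀ Q ∈ I, eval v Q = 0) {α : Fin s} (hα : (fun a => eval v (F α a)) ≠ 0) :
    morph F (Projectivization.mk ℂ v hv) = Projectivization.mk ℂ _ hα := by
  classical
  obtain ⟨c, hc, hrep⟩ := Pool.Agent.H17.exists_smul_rep v hv
  have hval : ∀ β : Fin s, ∃ e : ℕ, ∀ a, eval (Projectivization.mk ℂ v hv).rep (F β a) =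
      c ^ e * eval v (F β a) := by
    intro β
    obtain ⟨e, he⟩ := hF.hom β
    refine ⟨e, fun a => ?_⟩
    rw [hrep]
    exact Points_eval_smul (he a) c v
  have hex : ∃ β, (fun a => eval (Projectivization.mk ℂ v hv).rep (F β a)) ≠ 0 := by
    refine ⟨α, fun h0 => hα ?_⟩
    obtain ⟨e, he⟩ := hval α
    funext a
    have h1 := congrFun h0 a
    simp only [Pi.zero_apply] at h1 ⊢
    rw [he a] at h1
    exact (mul_eq_zero.1 h1).resolve_left (pow_ne_zero _ hc)
  have hmorph : morph F (Projectivization.mk ℂ v hv) = Projectivization.mk ℂ _ hex.choose_spec := by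
    unfold morph
    rw [dif_pos hex]
  rw [hmorph, Projectivization.mk_eq_mk_iff']
  obtain ⟨β, hβ⟩ : ∃ β, β = hex.choose := ⟨_, rfl⟩
  have hne : (fun a => eval (Projectivization.mk ℂ v hv).rep (F β a)) ≠ 0 := by
    rw [hβ]
    exact hex.choose_spec
  obtain ⟨e, he⟩ := hval β
  obtain ⟨b, hb⟩ := Function.ne_iff.1 hne
  simp only [Pi.zero_apply] at hb
  rw [he b] at hb
  have hb' : eval v (F β b) ≠ 0 := right_ne_zero_of_mul hb
  obtain ⟨a0, ha0⟩ := Function.ne_iff.1 hα
  simp only [Pi.zero_apply] at ha0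
  have hcomp : ∀ a, eval v (F α a) * eval v (F β b) = eval v (F α b) * eval v (F β a) := by
    intro a
    have h1 := hvI _ (hF.compat α β a b)
    rw [map_sub, map_mul, map_mul] at h1
    exact sub_eq_zero.1 h1
  have hαb : eval v (F α b) ≠ 0 := by
    intro h0
    have h1 := hcomp a0
    rw [h0, zero_mul] at h1
    exact (mul_ne_zero ha0 hb') h1
  refine ⟨c ^ e * (eval v (F β b) / eval v (F α b)), ?_⟩
  funext a
  rw [← hβ]
  simp only [Pi.smul_apply, smul_eq_mul]
  rw [he a, mul_assoc]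
  congr 1
  rw [div_mul_eq_mul_div, div_eq_iff hαb]
  have h1 := hcomp a
  linear_combination h1

private theorem Points_rep (hF : IsMorphism I U F) (hI : Homog I) {x : PN N} (hx : x ∈ variety I)
    {α : Fin s} (hα : (fun a => eval x.rep (F α a)) ≠ 0) :
    morph F x = Projectivization.mk ℂ _ hα := by
  have h1 : Projectivization.mk ℂ x.rep x.rep_nonzero = x := x.mk_rep
  have h2 : ∀ Q ∈ I, eval x.rep Q = 0 := by
    intro Q hQ
    refine Pool.Agent.H5.DG.eval_of_mem hI x.rep_nonzero ?_ hQ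
    rw [h1]
    exact hx
  have h3 := morph_mk hF x.rep_nonzero h2 hα
  rw [h1] at h3
  exact h3

theorem vanishesAt_morph (hF : IsMorphism I U F) (hI : Homog I) {x : PN N} (hx : x ∈ variety I)
    {G : MvPolynomial (Fin (M + 1)) ℂ} {k : ℕ} (hG : G.IsHomogeneous k) {α : Fin s}
    (hα : ∃ a, ¬ VanishesAt (F α a) x) :
    VanishesAt G (morph F x) ↔ VanishesAt (aeval (F α) G) x := by
  have hα' : (fun a => eval x.rep (F α a)) ≠ 0 := by
    obtain ⟨a, ha⟩ := hα
    intro h0
    exact ha (congrFun h0 a)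
  rw [Points_rep hF hI hx hα', Pool.Agent.H17.vanishesAt_mk_iff hG]
  have h2 : eval x.rep (aeval (F α) G) = eval (fun a => eval x.rep (F α a)) G :=
    Pool.Agent.H5.DG.eval_aeval _ _ _
  rw [← h2]
  rfl

/-- In terms of all tuples. -/
theorem vanishesAt_morph_iff (hF : IsMorphism I U F) (hI : Homog I) {x : PN N}
    (hx : x ∈ variety I) (hxU : x ∈ U) {G : MvPolynomial (Fin (M + 1)) ℂ} {k : ℕ}
    (hG : G.IsHomogeneous k) :
    VanishesAt G (morph F x) ↔ ∀ α, VanishesAt (aeval (F α) G) x := by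
  obtain ⟨α₀, hα₀⟩ := hF.base x hxU
  constructor
  · intro h α
    by_cases hα : ∃ a, ¬ VanishesAt (F α a) x
    · exact (vanishesAt_morph hF hI hx hG hα).1 h
    · push Not at hα
      have h1 : (fun a => eval x.rep (F α a)) = 0 := by
        funext a
        exact hα a
      have h2 : eval x.rep (aeval (F α) G) = eval (fun a => eval x.rep (F α a)) G :=
        Pool.Agent.H5.DG.eval_aeval _ _ _
      have h3 : eval (morph F x).rep G = 0 := h
      have h4 : eval ((0 : ℂ) • (morph F x).rep) G = 0 ^ k * eval (morph F x).rep G :=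
        Pool.Agent.H17.eval_smul_of_isHomogeneous hG 0 _
      rw [h3, mul_zero, zero_smul] at h4
      change eval x.rep (aeval (F α) G) = 0
      rw [h2, h1]
      exact h4
  · intro h
    exact (vanishesAt_morph hF hI hx hG hα₀).2 (h α₀)

end Pool.Agent.H5.DG3
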