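import Pool.Agent.H5.DG3.Points
import Pool.Agent.H5.DG.FinalDefs
import Pool.Agent.H5.DG.CovMain

/-!
# Project DG3, module Into: morphisms to a variety

`g ∈ P` homogeneous (`Homog P`; sum over the homogeneous components).  There is a form `T` which
vanishes on `B`, `T ∉ I` (`variety I \ B` is not empty; `hB`).  `T * F α a * aeval (F α) g` vanishes at
all points `v` of the cone of `variety I` (`mem_of_forall`, module `Pool.Agent.H5.DG.FinalDefs`): `v = 0`
can be avoided with a factor `X i`, `X i ∉ I`; if `T (v) ≠ 0` and `F α a (v) ≠ 0` then `[v] ∈ variety I \ B` and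
`g (F α (v)) = 0` by `maps` (`vanishesAt_morph`).  So `X i * T * F α a * aeval (F α) g ∈ I` for all `a`.  If `F α a ∈ I`
for all `a`: `aeval (F α) g ∈ I` if `g` has positive degree (or `g = 0`; a constant `g ≠ 0` in `P` would
contradict `maps` at a point of `variety I \ B`).
-/

open MvPolynomial
open Pool.Agent.H17 (PN VanishesAt ZariskiClosedIn)
open Pool.Agent.H5.DG (Homog variety)

noncomputable section

namespace Pool.Agent.H5.DG3

private lemma aeval_mem_of_all_mem {N M k : ℕ} {I : Ideal (MvPolynomial (Fin (N + 1)) ℂ)}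
    {f : Fin (M + 1) → MvPolynomial (Fin (N + 1)) ℂ} (hf : ∀ a, f a ∈ I)
    {g : MvPolynomial (Fin (M + 1)) ℂ} (hg : g.IsHomogeneous k) (hk : k ≠ 0) :
    aeval f g ∈ I := by
  rw [aeval_def, eval₂_eq]
  refine I.sum_mem fun m hm => I.mul_mem_left _ ?_
  have h1 : m.degree = k := by
    by_contra hne
    exact (mem_support_iff.mp hm) (hg.coeff_eq_zero hne)
  have h2 : m.support.Nonempty := by
    rw [Finset.nonempty_iff_ne_empty]
    intro h0
    rw [Finsupp.support_eq_empty] at h0
    rw [h0] at h1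
    apply hk
    rw [← h1]
    simp
  obtain ⟨a, ha⟩ := h2
  rw [← Finset.mul_prod_erase _ _ ha]
  refine I.mul_mem_right _ ?_
  exact I.pow_mem_of_mem (hf a) _ (Nat.pos_of_ne_zero (Finsupp.mem_support_iff.1 ha))

private lemma aeval_mem_of_maps_hom {N M s : ℕ} {P : Ideal (MvPolynomial (Fin (M + 1)) ℂ)}
    {I : Ideal (MvPolynomial (Fin (N + 1)) ℂ)} [I.IsPrime] {B : Set (PN N)}
    (hB : ZariskiClosedIn Set.univ B) (hne : (variety I \ B).Nonempty)
    {F : Fin s → Fin (M + 1) → MvPolynomial (Fin (N + 1)) ℂ}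
    (hF : IsMorphism I (variety I \ B) F) (hmaps : ∀ x ∈ variety I \ B, morph F x ∈ variety P)
    (α : Fin s) {g : MvPolynomial (Fin (M + 1)) ℂ} (hg : g ∈ P) {k : ℕ}
    (hgk : g.IsHomogeneous k) : aeval (F α) g ∈ I := by
  obtain ⟨S, hS, hBS⟩ := hB
  obtain ⟨x₀, hx₀, hx₀B⟩ := hne
  have h1 : ∃ T ∈ S, ¬ VanishesAt T x₀ := by
    by_contra hcon
    push Not at hcon
    exact hx₀B (by rw [hBS]; exact ⟨Set.mem_univ _, hcon⟩)
  obtain ⟨T, hTS, hTx⟩ := h1
  obtain ⟨d, hTd⟩ := hS T hTS
  have hTI : T ∉ I := fun h => hTx (hx₀ T h d hTd)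
  obtain ⟨i, hi⟩ : ∃ i, x₀.rep i ≠ 0 := by
    by_contra hcon
    push Not at hcon
    exact x₀.rep_nonzero (funext hcon)
  have hXI : (X i : MvPolynomial (Fin (N + 1)) ℂ) ∉ I := by
    intro h
    have h2 := hx₀ _ h 1 (isHomogeneous_X ℂ i)
    unfold VanishesAt at h2
    rw [eval_X] at h2
    exact hi h2
  have hmem : ∀ a, X i * T * (F α a * aeval (F α) g) ∈ I := by
    intro a
    refine Pool.Agent.H5.DG.mem_of_forall I fun v hv => ?_
    rw [map_mul, map_mul, map_mul, eval_X]
    by_cases hvi : v i = 0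
    · rw [hvi, zero_mul, zero_mul]
    by_cases hvT : eval v T = 0
    · rw [hvT, mul_zero, zero_mul]
    by_cases hva : eval v (F α a) = 0
    · rw [hva, zero_mul, mul_zero]
    have hv0 : v ≠ 0 := by
      rintro rfl
      exact hvi rfl
    have hx : Projectivization.mk ℂ v hv0 ∈ variety I \ B := by
      refine ⟨fun R hR k hk => ?_, fun hcon => ?_⟩
      · rw [Pool.Agent.H17.vanishesAt_mk_iff hk]
        exact hv R hR
      · rw [hBS] at hcon
        have h3 := hcon.2 T hTS
        rw [Pool.Agent.H17.vanishesAt_mk_iff hTd] at h3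
        exact hvT h3
    have hα : (fun a => eval v (F α a)) ≠ 0 := fun h => hva (congrFun h a)
    have h4 := hmaps _ hx
    rw [morph_mk hF hv0 hv hα] at h4
    have h5 := h4 g hg k hgk
    rw [Pool.Agent.H17.vanishesAt_mk_iff hgk] at h5
    rw [Pool.Agent.H5.DG.eval_aeval, h5, mul_zero, mul_zero]
  have hP : I.IsPrime := inferInstance
  have hor : ∀ a, F α a ∈ I ∨ aeval (F α) g ∈ I := by
    intro a
    rcases hP.mem_or_mem (hmem a) with h2 | h2
    · exact absurd h2 fun h3 => (hP.mem_or_mem h3).elim hXI hTI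
    · exact hP.mem_or_mem h2
  by_cases hall : ∀ a, F α a ∈ I
  · by_cases hk : k = 0
    · subst hk
      have hc := (totalDegree_zero_iff_isHomogeneous _).2 hgk
      rw [totalDegree_eq_zero_iff_eq_C] at hc
      have h6 := hmaps x₀ ⟨hx₀, hx₀B⟩
      have h7 := h6 g hg 0 hgk
      unfold VanishesAt at h7
      rw [hc, eval_C] at h7
      rw [hc, h7, C_0, map_zero]
      exact I.zero_mem
    · exact aeval_mem_of_all_mem hall hgk hk
  · push Not at hall
    obtain ⟨a, ha⟩ := hall
    exact (hor a).resolve_left ha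

theorem aeval_mem_of_maps {N M s : ℕ} {P : Ideal (MvPolynomial (Fin (M + 1)) ℂ)} (hP : Homog P)
    {I : Ideal (MvPolynomial (Fin (N + 1)) ℂ)} [I.IsPrime] (hI : Homog I) {B : Set (PN N)}
    (hB : ZariskiClosedIn Set.univ B) (hne : (variety I \ B).Nonempty)
    {F : Fin s → Fin (M + 1) → MvPolynomial (Fin (N + 1)) ℂ}
    (hF : IsMorphism I (variety I \ B) F) (hmaps : ∀ x ∈ variety I \ B, morph F x ∈ variety P)
    (α : Fin s) {g : MvPolynomial (Fin (M + 1)) ℂ} (hg : g ∈ P) : aeval (F α) g ∈ I := by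
  rw [← sum_homogeneousComponent g, map_sum]
  exact I.sum_mem fun k _ => aeval_mem_of_maps_hom hB hne hF hmaps α (hP g hg k)
    (homogeneousComponent_isHomogeneous k g)

end Pool.Agent.H5.DG3
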