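import Pool.Agent.H5.DG3.MorphAlg
import Pool.Agent.H5.DG3.Into
import Pool.Agent.H5.DG.SecDim

/-!
# Project DG3, module Dim3: morphisms between varieties of the same dimension

`variety I \ B` is not contained in `Z`, in particular not empty: `F α a₀ ∉ I` for some `α`, `a₀`.
`aeval (F α) Δ ∉ I`: the proof of `notMem_of_dim` (module SecDim) works with `morph_algebraic` instead
of `fun_algebraic` (`F α` instead of `F`, `a₀` is given) and `aeval_mem_of_maps` instead of `hPI`.
Then the product of `aeval (F α) Δ`, `F α a₀`, `X i ∉ I` (`exists_X_notMem`), of a form which vanishes on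
`B` and of one which vanishes on `Z`, both not in `I`, is not in `I`, so it does not vanish at some point
of `variety I` (`mem_of_forall`), which is not in `excSet` (`vanishesAt_morph`).
-/

open MvPolynomial
open Pool.Agent.H17 (PN VanishesAt ZariskiClosedIn)
open Pool.Agent.H17GT (coordFun functionField)
open Pool.Agent.H17LG.Variety (FunField ratio)
open Pool.Agent.H5.DG (Homog variety valAt eval_ratio_mem eval_ratio_zero_iff aeval_eq_pow_mul
  exists_homogenise exists_X_notMem mem_of_forall eval_of_mem)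

noncomputable section

namespace Pool.Agent.H5.DG3

private theorem Dim3_notMem {M Nn k w : ℕ} {P : Ideal (MvPolynomial (Fin (M + 1)) ℂ)} [P.IsPrime]
    {I : Ideal (MvPolynomial (Fin (Nn + 1)) ℂ)} [I.IsPrime] (hI : Homog I)
    {F : Fin (M + 1) → MvPolynomial (Fin (Nn + 1)) ℂ}
    (hPI : ∀ g ∈ P, aeval F g ∈ I)
    {z : Fin (w + 1) → FunField I} (hz : IsTranscendenceBasis ℂ z)
    {zP : Fin (w + 1) → FunField P} (hzP : IsTranscendenceBasis ℂ zP)
    {j₀ : Fin (Nn + 1)} (hj₀ : coordFun I j₀ ≠ 0) {a₀ : Fin (M + 1)}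
    (ha₀ : valAt I j₀ F a₀ ≠ 0)
    (halg : Algebra.IsAlgebraic (IntermediateField.adjoin ℂ (Set.range fun a =>
      valAt I j₀ F a / valAt I j₀ F a₀)) (FunField I))
    {g : MvPolynomial (Fin (M + 1)) ℂ} (hk : g.IsHomogeneous k) (hg : g ∉ P) :
    aeval F g ∉ I := by
  classical
  obtain ⟨J, hJ⟩ := Pool.Agent.H92.GT.exists_index halg hz
  obtain ⟨u, hu⟩ : ∃ u : Fin (M + 1) → FunField I, u = fun a =>
    valAt I j₀ F a / valAt I j₀ F a₀ := ⟨_, rfl⟩
  have hJ' : IsTranscendenceBasis ℂ fun i => u (J i) := by rw [hu]; exact hJ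
  have hua₀ : u a₀ = 1 := by rw [hu]; exact div_self ha₀
  have huv : ∀ a, valAt I j₀ F a = valAt I j₀ F a₀ * u a := by
    intro a
    rw [hu]
    exact (mul_div_cancel₀ _ ha₀).symm
  -- values of forms in `I`
  have hval : ∀ {n : ℕ} {S : MvPolynomial (Fin (M + 1)) ℂ}, S.IsHomogeneous n → aeval F S ∈ I →
      aeval u S = 0 := by
    intro n S hS hmem
    have h1 := eval_ratio_mem I hI hj₀ hmem
    have h2 : aeval (fun i => ratio I i j₀) (aeval F S) = aeval (valAt I j₀ F) S := by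
      rw [← AlgHom.comp_apply, MvPolynomial.comp_aeval]
      rfl
    rw [h2, aeval_eq_pow_mul hS huv] at h1
    exact (mul_eq_zero.1 h1).resolve_left (pow_ne_zero _ ha₀)
  -- the coordinate `a₀` of `Y`
  have ha₀P : (X a₀ : MvPolynomial (Fin (M + 1)) ℂ) ∉ P := by
    intro hcon
    have h1 := hval (isHomogeneous_X ℂ a₀) (hPI _ hcon)
    rw [aeval_X, hua₀] at h1
    exact one_ne_zero h1
  have hca₀ : coordFun P a₀ ≠ 0 := by
    intro hcon
    apply ha₀P
    rw [← Pool.Agent.H92.GT.Proj.aeval_coordFun_eq_zero_iff, aeval_X]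
    exact hcon
  obtain ⟨η, hη⟩ : ∃ η : Fin (M + 1) → FunField P, η = fun a => ratio P a a₀ := ⟨_, rfl⟩
  have hηa₀ : η a₀ = 1 := by
    rw [hη]
    exact Subtype.ext (div_self hca₀)
  -- relations
  have hstar : ∀ R : MvPolynomial (Fin (M + 1)) ℂ, aeval η R = 0 → aeval u R = 0 := by
    intro R hR
    obtain ⟨S, hS, hSe⟩ := exists_homogenise a₀ R
    rw [← hSe η hηa₀] at hR
    rw [← hSe u hua₀]
    refine hval hS (hPI _ ?_)
    rw [hη] at hR
    exact (eval_ratio_zero_iff P hca₀ hS).1 hR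
  -- the transcendence basis
  have hUind : AlgebraicIndependent ℂ fun i => η (J i) := by
    rw [algebraicIndependent_iff]
    intro R hR
    have h1 : aeval η (rename J R) = 0 := by
      rw [aeval_rename]
      exact hR
    have h2 := hstar _ h1
    rw [aeval_rename] at h2
    exact (algebraicIndependent_iff.1 hJ'.1) R h2
  have hU : IsTranscendenceBasis ℂ fun i => η (J i) := by
    refine hUind.isTranscendenceBasis_of_trdeg_le_of_finite ?_
    rw [← hzP.cardinalMk_eq_trdeg]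
  -- the algebraic equation
  have hG0 : aeval η g ≠ 0 := by
    intro hcon
    rw [hη] at hcon
    exact hg ((eval_ratio_zero_iff P hca₀ hk).1 hcon)
  intro hcon
  have hug : aeval u g = 0 := hval hk hcon
  have halg2 : Algebra.IsAlgebraic (Algebra.adjoin ℂ (Set.range fun i => η (J i))) (FunField P) :=
    hU.isAlgebraic
  obtain ⟨f, hf0, hf⟩ := (halg2.isAlgebraic (aeval η g)).exists_nonzero_coeff_and_aeval_eq_zero
    (mem_nonZeroDivisors_of_ne_zero hG0)
  have hlift : ∀ j : ℕ, ∃ c : MvPolynomial (Fin (w + 1)) ℂ,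
      aeval (fun i => η (J i)) c = (f.coeff j : FunField P) := by
    intro j
    have h1 : (f.coeff j : FunField P) ∈
        (aeval (fun i => η (J i)) : MvPolynomial (Fin (w + 1)) ℂ →ₐ[ℂ] FunField P).range := by
      rw [← Algebra.adjoin_range_eq_range_aeval]
      exact (f.coeff j).2
    exact h1
  choose c hc using hlift
  have hR : aeval η (∑ j ∈ Finset.range (f.natDegree + 1), rename J (c j) * g ^ j) = 0 := by
    rw [map_sum, ← hf, Polynomial.aeval_eq_sum_range]
    refine Finset.sum_congr rfl fun j _ => ?_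
    rw [map_mul, map_pow, aeval_rename, Algebra.smul_def]
    congr 1
    exact hc j
  have h1 := hstar _ hR
  rw [map_sum, Finset.sum_range_succ'] at h1
  have h2 : ∑ j ∈ Finset.range f.natDegree, aeval u (rename J (c (j + 1)) * g ^ (j + 1)) = 0 := by
    refine Finset.sum_eq_zero fun j _ => ?_
    rw [map_mul, map_pow, hug, zero_pow (Nat.succ_ne_zero j), mul_zero]
  rw [h2, zero_add, pow_zero, mul_one, aeval_rename] at h1
  have h3 : c 0 = 0 := (algebraicIndependent_iff.1 hJ'.1) _ h1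
  apply hf0
  apply Subtype.ext
  rw [← hc 0, h3, map_zero]
  rfl

theorem not_subset_of_dim {N M m s q w k : ℕ} {P : Ideal (MvPolynomial (Fin (M + 1)) ℂ)}
    [P.IsPrime] (hP : Homog P) {G : Fin m → MvPolynomial (Fin (M + 1)) ℂ}
    {I : Ideal (MvPolynomial (Fin (N + 1)) ℂ)} [I.IsPrime] {B Z : Set (PN N)}
    {F : Fin s → Fin (M + 1) → MvPolynomial (Fin (N + 1)) ℂ}
    (h : RamifiedMorphism q P G I B Z F) (hw : 1 ≤ w)
    (hz : ∃ z : Fin w → FunField I, IsTranscendenceBasis ℂ z)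
    (hzP : ∃ z : Fin w → FunField P, IsTranscendenceBasis ℂ z)
    (hZ : ¬ (variety I \ B ⊆ Z)) {Δ : MvPolynomial (Fin (M + 1)) ℂ} (hk : Δ.IsHomogeneous k)
    (hΔ : Δ ∉ P) : ¬ (variety I \ B ⊆ excSet I B Z F Δ) := by
  classical
  have hPr : I.IsPrime := inferInstance
  obtain ⟨i, hi⟩ := exists_X_notMem I hw hz
  obtain ⟨x, hxU, hxZ⟩ := Set.not_subset.1 hZ
  obtain ⟨α, a₀, hα⟩ := h.morphism.base x hxU
  obtain ⟨e, he⟩ := h.morphism.hom α
  have ha₀I : F α a₀ ∉ I := fun hcon => hα (hxU.1 _ hcon e (he a₀))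
  -- forms which vanish on `B`, on `Z`
  have hT : ∀ B' : Set (PN N), ZariskiClosedIn Set.univ B' → x ∉ B' →
      ∃ (T : MvPolynomial (Fin (N + 1)) ℂ) (n : ℕ), T.IsHomogeneous n ∧
        (∀ y ∈ B', VanishesAt T y) ∧ T ∉ I := by
    intro B' hB' hxB
    obtain ⟨S, hS, hSB⟩ := hB'
    have h1 : ∃ T ∈ S, ¬ VanishesAt T x := by
      by_contra hcon
      push Not at hcon
      exact hxB (by rw [hSB]; exact ⟨trivial, hcon⟩)
    obtain ⟨T, hT, hTx⟩ := h1
    obtain ⟨n, hn⟩ := hS T hT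
    refine ⟨T, n, hn, fun y hy => ?_, fun hcon => hTx (hxU.1 _ hcon n hn)⟩
    rw [hSB] at hy
    exact hy.2 T hT
  obtain ⟨T₁, n₁, hT₁, hT₁B, hT₁I⟩ := hT B h.closedB hxU.2
  obtain ⟨T₂, n₂, hT₂, hT₂Z, hT₂I⟩ := hT Z h.closedZ hxZ
  -- the image form is not in `I`
  have hΔI : aeval (F α) Δ ∉ I := by
    obtain ⟨w, rfl⟩ : ∃ w', w = w' + 1 := ⟨w - 1, by omega⟩
    obtain ⟨z, hz'⟩ := hz
    obtain ⟨zP, hzP'⟩ := hzP
    obtain ⟨j₀, hj₀⟩ := Pool.Agent.H92.GT.Proj.exists_coordFun_ne_zero I (k := w) z hz'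
    have halg := morph_algebraic h.homog h.closedB h.closedZ h.morphism h.finite I h.homog le_rfl
      hZ ⟨z, hz'⟩ hj₀ ha₀I
    have hv : valAt I j₀ (F α) a₀ ≠ 0 := fun hcon =>
      ha₀I ((eval_ratio_zero_iff I hj₀ (he a₀)).1 hcon)
    exact Dim3_notMem h.homog
      (fun g hg => aeval_mem_of_maps hP h.homog h.closedB ⟨x, hxU⟩ h.morphism h.maps α hg)
      hz' hzP' hj₀ hv halg hk hΔ
  -- a point where nothing vanishes
  have hprod : X i * T₁ * T₂ * F α a₀ * aeval (F α) Δ ∉ I := by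
    intro hcon
    rcases hPr.mem_or_mem hcon with h1 | h1
    · rcases hPr.mem_or_mem h1 with h2 | h2
      · rcases hPr.mem_or_mem h2 with h3 | h3
        · rcases hPr.mem_or_mem h3 with h4 | h4
          · exact hi h4
          · exact hT₁I h4
        · exact hT₂I h3
      · exact ha₀I h2
    · exact hΔI h1
  intro hsub
  apply hprod
  refine mem_of_forall I fun v hv => ?_
  by_contra hne
  rw [map_mul, map_mul, map_mul, map_mul, eval_X] at hne
  have hΔv : eval v (aeval (F α) Δ) ≠ 0 := right_ne_zero_of_mul hne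
  have hne := left_ne_zero_of_mul hne
  have hFv : eval v (F α a₀) ≠ 0 := right_ne_zero_of_mul hne
  have hne := left_ne_zero_of_mul hne
  have hT₂v : eval v T₂ ≠ 0 := right_ne_zero_of_mul hne
  have hne := left_ne_zero_of_mul hne
  have hT₁v : eval v T₁ ≠ 0 := right_ne_zero_of_mul hne
  have hvi : v i ≠ 0 := left_ne_zero_of_mul hne
  have hv0 : v ≠ 0 := fun hcon => hvi (by rw [hcon]; rfl)
  have hmem : Projectivization.mk ℂ v hv0 ∈ variety I := by
    intro Q hQ k hQk
    rw [Pool.Agent.H17.vanishesAt_mk_iff hQk]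
    exact hv Q hQ
  have hnB : Projectivization.mk ℂ v hv0 ∉ B := fun hcon =>
    hT₁v ((Pool.Agent.H17.vanishesAt_mk_iff hT₁ v hv0).1 (hT₁B _ hcon))
  have hnZ : Projectivization.mk ℂ v hv0 ∉ Z := fun hcon =>
    hT₂v ((Pool.Agent.H17.vanishesAt_mk_iff hT₂ v hv0).1 (hT₂Z _ hcon))
  have hex := hsub ⟨hmem, hnB⟩
  rcases hex.2 with h1 | h1
  · exact hnZ h1
  · rw [vanishesAt_morph h.morphism h.homog hmem hk (α := α)
      ⟨a₀, fun hcon => hFv ((Pool.Agent.H17.vanishesAt_mk_iff (he a₀) v hv0).1 hcon)⟩] at h1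
    refine hΔv ((Pool.Agent.H17.vanishesAt_mk_iff (d := e * k) ?_ v hv0).1 h1)
    exact MvPolynomial.IsHomogeneous.aeval hk _ he

end Pool.Agent.H5.DG3
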