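import Pool.Agent.H5.DG3.FibAlg
import Pool.Agent.H5.DG3.Points

/-!
# Project DG3, module MorphAlg: the function fields of subvarieties

`variety Q \ B` is not contained in `Z`: there is a point `x` of `variety Q`, `x ∉ B`, `x ∉ Z`, so
there are forms `T₁` (vanishing on `B`) and `T₂` (vanishing on `Z`) which do not vanish at `x`
(`ZariskiClosedIn`), `T = T₁ * T₂ ∉ Q`.  Where `T` and `F α a₀` do not vanish the map `morph F` is
`coverMap (F α)` (`morph_mk`, `coverMap_mk`), and these points lie in `variety I \ B`, not in `Z`.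
Apply `algebraic_of_finite`.
-/

open MvPolynomial
open Pool.Agent.H17 (PN VanishesAt ZariskiClosedIn)
open Pool.Agent.H17GT (coordFun)
open Pool.Agent.H17LG.Variety (FunField ratio)
open Pool.Agent.H5.DG (Homog variety valAt)

noncomputable section

namespace Pool.Agent.H5.DG3

theorem morph_algebraic {N M s w : ℕ} {I : Ideal (MvPolynomial (Fin (N + 1)) ℂ)} (hI : Homog I)
    {B Z : Set (PN N)} (hB : ZariskiClosedIn Set.univ B) (hZ : ZariskiClosedIn Set.univ Z)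
    {F : Fin s → Fin (M + 1) → MvPolynomial (Fin (N + 1)) ℂ}
    (hF : IsMorphism I (variety I \ B) F)
    (hfin : ∀ y : PN M, {x | x ∈ variety I \ B ∧ x ∉ Z ∧ morph F x = y}.Finite)
    (Q : Ideal (MvPolynomial (Fin (N + 1)) ℂ)) [Q.IsPrime] (hQ : Homog Q) (hIQ : I ≤ Q)
    (hQZ : ¬ (variety Q \ B ⊆ Z)) (hz : ∃ z : Fin w → FunField Q, IsTranscendenceBasis ℂ z)
    {j₀ : Fin (N + 1)} (hj₀ : coordFun Q j₀ ≠ 0) {α : Fin s} {a₀ : Fin (M + 1)}
    (ha₀ : F α a₀ ∉ Q) :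
    Algebra.IsAlgebraic (IntermediateField.adjoin ℂ (Set.range fun a =>
      valAt Q j₀ (F α) a / valAt Q j₀ (F α) a₀)) (FunField Q) := by
  obtain ⟨S₁, hS₁, hB'⟩ := hB
  obtain ⟨S₂, hS₂, hZ'⟩ := hZ
  obtain ⟨x, ⟨hxQ, hxB⟩, hxZ⟩ := Set.not_subset.1 hQZ
  obtain ⟨T₁, hT₁, h1⟩ : ∃ T₁ ∈ S₁, ¬ VanishesAt T₁ x := by
    by_contra hcon
    push Not at hcon
    rw [hB'] at hxB
    exact hxB ⟨Set.mem_univ x, hcon⟩
  obtain ⟨T₂, hT₂, h2⟩ : ∃ T₂ ∈ S₂, ¬ VanishesAt T₂ x := by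
    by_contra hcon
    push Not at hcon
    rw [hZ'] at hxZ
    exact hxZ ⟨Set.mem_univ x, hcon⟩
  obtain ⟨d₁, hd₁⟩ := hS₁ T₁ hT₁
  obtain ⟨d₂, hd₂⟩ := hS₂ T₂ hT₂
  have hmul : ∀ y : PN N, ¬ VanishesAt (T₁ * T₂) y ↔ ¬ VanishesAt T₁ y ∧ ¬ VanishesAt T₂ y := by
    intro y
    unfold VanishesAt
    rw [map_mul, mul_eq_zero, not_or]
  obtain ⟨e, he⟩ := hF.hom α
  refine algebraic_of_finite Q hQ hz hj₀ he ha₀ (hd₁.mul hd₂) ?_ fun y => ?_
  · intro hT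
    exact (hmul x).2 ⟨h1, h2⟩ (hxQ _ hT _ (hd₁.mul hd₂))
  · refine (hfin y).subset ?_
    rintro v ⟨hvQ, hvT, hva, hv⟩
    rw [hmul] at hvT
    have hvI : v ∈ variety I := fun P hP k hk => hvQ P (hIQ hP) k hk
    refine ⟨⟨hvI, ?_⟩, ?_, ?_⟩
    · rw [hB']
      exact fun h => hvT.1 (h.2 T₁ hT₁)
    · rw [hZ']
      exact fun h => hvT.2 (h.2 T₂ hT₂)
    · have hne : (fun a => eval v.rep (F α a)) ≠ 0 := fun h => hva (congrFun h a₀)
      rw [← hv]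
      conv_lhs => rw [← v.mk_rep]
      conv_rhs => rw [← v.mk_rep]
      rw [morph_mk hF v.rep_nonzero (fun P hP => Pool.Agent.H5.DG.eval_of_mem hI
        v.rep_nonzero (by rw [v.mk_rep]; exact hvI) hP) hne,
        Pool.Agent.H5.DG.coverMap_mk he v.rep_nonzero hne]

end Pool.Agent.H5.DG3
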