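import Pool.Agent.H5.DG.CovAlg

/-!
# Project DG3, module PointK: points of the variety over a field

`y` is a point of the cone of the variety given by `P` over the field `K`.
`point_unit`: `X a₀ ^ k ∈ span (range B) ⊔ P` at `y`: if all `B b (y)` had positive order, `y a₀ ^ k`
would have positive order.
`point_algebraic`: `exists_relation hP hB a` (module CovAlg) at `y`, as in the proof of
`fun_algebraic` (there for the generic point): `y a ^ e / B b₀ (y)` is algebraic over the field
generated by the `B b (y) / B b₀ (y)`, for all `a`; so is `(y a / y a') ^ e` and `y a / y a'`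
(if `y a' = 0` it is `0`).
-/

open MvPolynomial
open Pool.Agent.H23.Fano (PrimeDivisorOver)
open Pool.Agent.H5.DG (Homog BaseFree)

noncomputable section

namespace Pool.Agent.H5.DG3

variable {M r e : ℕ} {P : Ideal (MvPolynomial (Fin (M + 1)) ℂ)}
  {B : Fin r → MvPolynomial (Fin (M + 1)) ℂ} {K : Type} [Field K] [Algebra ℂ K]

private theorem PointK_poly_ord {w : ℕ} (E : PrimeDivisorOver K w) {y : Fin (M + 1) → K}
    (hreg : ∀ a, 0 ≤ E.ord (y a)) (p : MvPolynomial (Fin (M + 1)) ℂ) :
    0 ≤ E.ord (aeval y p) := by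
  induction p using MvPolynomial.induction_on with
  | C a =>
    rw [aeval_C]
    exact E.ord_const a
  | add p q hp hq =>
    rw [map_add]
    exact (le_min hp hq).trans (E.ord.map_add _ _)
  | mul_X p i hp =>
    rw [map_mul, aeval_X, E.ord.map_mul]
    exact add_nonneg hp (hreg i)

private theorem PointK_scale {m : ℕ} {G : MvPolynomial (Fin m) ℂ}
    {n : ℕ} (hG : G.IsHomogeneous n) (c : K) (x : Fin m → K) :
    aeval (fun i => c * x i) G = c ^ n * aeval x G := by
  rw [aeval_def, aeval_def, eval₂_eq, eval₂_eq, Finset.mul_sum]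
  refine Finset.sum_congr rfl fun m hm => ?_
  have h5 : ∑ i ∈ m.support, m i = n := by
    have := hG (mem_support_iff.1 hm)
    rw [Finsupp.weight_apply, Finsupp.sum] at this
    simpa using this
  simp only [mul_pow, Finset.prod_mul_distrib]
  rw [Finset.prod_pow_eq_pow_sum, h5]
  ring

private theorem PointK_scale_div {m : ℕ} {G : MvPolynomial (Fin m) ℂ}
    {n : ℕ} (hG : G.IsHomogeneous n) {c : K} (hc : c ≠ 0) (x : Fin m → K) :
    aeval x G = c ^ n * aeval (fun i => x i / c) G := by
  rw [← PointK_scale hG]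
  congr 2
  funext i
  rw [mul_div_cancel₀ _ hc]

omit [Algebra ℂ K] in
private theorem PointK_rel {x v y : K} (hv : v ≠ 0) (hx : x = v * y) {s : ℕ}
    (γ : Fin s → K) (h : x ^ s + ∑ t : Fin s, v ^ s * (γ t * y ^ (t : ℕ)) = 0) :
    y ^ s + ∑ t : Fin s, γ t * y ^ (t : ℕ) = 0 := by
  rw [hx, mul_pow, ← Finset.mul_sum, ← mul_add] at h
  exact (mul_eq_zero.1 h).resolve_left (pow_ne_zero _ hv)

theorem point_unit {w : ℕ} (E : PrimeDivisorOver K w) (hB : BaseFree P e B)
    {y : Fin (M + 1) → K} (hy : ∀ g ∈ P, aeval y g = 0) (hreg : ∀ a, 0 ≤ E.ord (y a))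
    {a₀ : Fin (M + 1)} (ha₀ : E.ord (y a₀) = 0) : ∃ b, E.ord (aeval y (B b)) = 0 := by
  classical
  by_contra hcon
  push Not at hcon
  have hpos : ∀ b, 0 < E.ord (aeval y (B b)) := fun b =>
    lt_of_le_of_ne (PointK_poly_ord E hreg (B b)) (Ne.symm (hcon b))
  obtain ⟨k, hk⟩ := hB.base a₀
  obtain ⟨g, hg, q, hq, hgq⟩ := Submodule.mem_sup.1 hk
  obtain ⟨G, hG⟩ := (Submodule.mem_span_range_iff_exists_fun _).1 hg
  have h1 : (y a₀) ^ k = ∑ b, aeval y (G b) * aeval y (B b) := by
    have h2 : aeval y (X a₀ ^ k : MvPolynomial (Fin (M + 1)) ℂ) = aeval y (g + q) := by rw [hgq]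
    rw [map_pow, aeval_X, map_add, hy q hq, add_zero, ← hG, map_sum] at h2
    rw [h2]
    refine Finset.sum_congr rfl fun b _ => ?_
    rw [smul_eq_mul, map_mul]
  have h3 : (0 : WithTop ℤ) < E.ord (∑ b, aeval y (G b) * aeval y (B b)) := by
    refine Finset.sum_induction _ (fun z => (0 : WithTop ℤ) < E.ord z) ?_ ?_ ?_
    · intro z z' hz hz'
      exact (lt_min hz hz').trans_le (E.ord.map_add _ _)
    · rw [E.ord.map_zero]
      exact WithTop.coe_lt_top (0 : ℤ)
    · intro b _
      rw [E.ord.map_mul]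
      exact (hpos b).trans_le (le_add_of_nonneg_left (PointK_poly_ord E hreg (G b)))
  rw [← h1, E.ord.map_pow, ha₀, smul_zero] at h3
  exact lt_irrefl _ h3

theorem point_algebraic (hP : Homog P) (hB : BaseFree P e B)
    {y : Fin (M + 1) → K} (hy : ∀ g ∈ P, aeval y g = 0) {b₀ : Fin r}
    (hb₀ : aeval y (B b₀) ≠ 0) (a a' : Fin (M + 1)) :
    IsAlgebraic (IntermediateField.adjoin ℂ (Set.range fun b =>
      aeval y (B b) / aeval y (B b₀))) (y a / y a') := by
  classical
  obtain ⟨K₀, hK₀⟩ : ∃ K₀ : IntermediateField ℂ K, K₀ = IntermediateField.adjoin ℂ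
    (Set.range fun b => aeval y (B b) / aeval y (B b₀)) := ⟨_, rfl⟩
  rw [← hK₀]
  have hmem : ∀ c : MvPolynomial (Fin r) ℂ,
      aeval (fun b => aeval y (B b) / aeval y (B b₀)) c ∈ K₀ := by
    intro c
    have h1 : ∀ b, aeval y (B b) / aeval y (B b₀) ∈ K₀ := by
      intro b
      rw [hK₀]
      exact IntermediateField.subset_adjoin _ _ ⟨b, rfl⟩
    induction c using MvPolynomial.induction_on with
    | C a =>
      rw [aeval_C]
      exact K₀.algebraMap_mem a
    | add p q hp hq =>
      rw [map_add]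
      exact add_mem hp hq
    | mul_X p i hp =>
      rw [map_mul, aeval_X]
      exact mul_mem hp (h1 i)
  have hval : ∀ c : MvPolynomial (Fin r) ℂ,
      aeval y (aeval B c) = aeval (fun b => aeval y (B b)) c := by
    intro c
    rw [← AlgHom.comp_apply, MvPolynomial.comp_aeval]
  -- the normalised powers are algebraic
  have hya : ∀ i, IsAlgebraic K₀ (y i ^ e / aeval y (B b₀)) := by
    intro i
    obtain ⟨s, c, hs, hc, hrel⟩ := Pool.Agent.H5.DG.exists_relation hP hB i
    have h1 := hy _ hrel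
    rw [map_add, map_sum, map_pow, map_pow, aeval_X] at h1
    have h2 : ∀ t : Fin s, aeval y (aeval B (c t) * (X i ^ e) ^ (t : ℕ)) =
        aeval y (B b₀) ^ s * (aeval (fun b => aeval y (B b) / aeval y (B b₀)) (c t) *
          (y i ^ e / aeval y (B b₀)) ^ (t : ℕ)) := by
      intro t
      rw [map_mul, map_pow, map_pow, aeval_X, hval, PointK_scale_div (hc t) hb₀, div_pow]
      have h3 : aeval y (B b₀) ^ s = aeval y (B b₀) ^ (s - (t : ℕ)) *
          aeval y (B b₀) ^ (t : ℕ) := by
        rw [← pow_add]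
        congr 1
        have := t.2
        omega
      rw [h3]
      field_simp
    rw [Finset.sum_congr rfl fun t _ => h2 t] at h1
    have h4 : (y i ^ e / aeval y (B b₀)) ^ s + ∑ t : Fin s,
        aeval (fun b => aeval y (B b) / aeval y (B b₀)) (c t) *
          (y i ^ e / aeval y (B b₀)) ^ (t : ℕ) = 0 :=
      PointK_rel hb₀ (mul_div_cancel₀ _ hb₀).symm _ h1
    -- the polynomial
    obtain ⟨q, hq⟩ : ∃ q : Polynomial K₀, q = Polynomial.X ^ s + ∑ t : Fin s,
      Polynomial.C (⟨aeval (fun b => aeval y (B b) / aeval y (B b₀)) (c t), hmem _⟩ : K₀) *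
        Polynomial.X ^ (t : ℕ) := ⟨_, rfl⟩
    refine ⟨q, ?_, ?_⟩
    · have h5 : q.coeff s = 1 := by
        rw [hq, Polynomial.coeff_add, Polynomial.coeff_X_pow, if_pos rfl,
          Polynomial.finsetSum_coeff]
        rw [Finset.sum_eq_zero, add_zero]
        intro t _
        rw [Polynomial.coeff_C_mul, Polynomial.coeff_X_pow, if_neg (by have := t.2; omega),
          mul_zero]
      intro h6
      rw [h6, Polynomial.coeff_zero] at h5
      exact zero_ne_one h5
    · rw [hq, map_add, map_sum, map_pow, Polynomial.aeval_X, ← h4]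
      congr 1
      refine Finset.sum_congr rfl fun t _ => ?_
      rw [map_mul, map_pow, Polynomial.aeval_X, Polynomial.aeval_C]
      rfl
  have he : 0 < e := by have := hB.pos; omega
  have h5 : IsAlgebraic K₀ ((y a / y a') ^ e) := by
    have h6 : (y a / y a') ^ e = (y a ^ e / aeval y (B b₀)) * (y a' ^ e / aeval y (B b₀))⁻¹ := by
      rw [div_pow, inv_div, div_mul_div_comm, mul_comm (y a ^ e), mul_div_mul_left _ _ hb₀]
    rw [h6]
    exact (hya a).mul (hya a').inv
  exact h5.of_pow he

end Pool.Agent.H5.DG3
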