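import Pool.Agent.H5.DG3.OrdPull
import Pool.Agent.H5.DG3.PointK
import Pool.Agent.H5.DG3.MorphAlg
import Pool.Agent.H5.DG3.Into
import Pool.Agent.H5.DG.SecDim

/-!
# Project DG3, module Sub3: closed subvarieties are of log general type

`y a = F α a` at the generic point of `variety Q` is a point of the cone of `Y` over the function
field, `V b = Bf b (y)`, `v b = V b / V b₀`.  The function field is algebraic over `ℂ(v)`
(`morph_algebraic`, `point_algebraic`).  Along a prime divisor whose centre does not lie in `B` some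
tuple `F α'` has a component of order `0`; it is proportional to `y`, and the orders of the linear
forms are those of the `G (σ j)` (`ord_pullback`).
-/

open MvPolynomial
open Pool.Agent.H17 (PN VanishesAt ZariskiClosedIn)
open Pool.Agent.H17GT (coordFun)
open Pool.Agent.H17LG.Variety (FunField ratio)
open Pool.Agent.H23.Fano (PrimeDivisorOver)
open Pool.Agent.H5.DG (Homog variety BaseFree comb valAt)

noncomputable section

namespace Pool.Agent.H5.DG3

private theorem Sub3_algebraic {K : Type} [Field K] [Algebra ℂ K] {S S' : Set K}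
    (hS : Algebra.IsAlgebraic (IntermediateField.adjoin ℂ S) K)
    (h : ∀ x ∈ S, IsAlgebraic (IntermediateField.adjoin ℂ S') x) :
    Algebra.IsAlgebraic (IntermediateField.adjoin ℂ S') K := by
  obtain ⟨k₁, hk₁⟩ : ∃ k₁, k₁ = IntermediateField.adjoin ℂ S' := ⟨_, rfl⟩
  rw [← hk₁] at h ⊢
  have h1 : IntermediateField.adjoin ℂ S ≤ (algebraicClosure k₁ K).restrictScalars ℂ := by
    rw [IntermediateField.adjoin_le_iff]
    intro x hx
    exact (mem_algebraicClosure_iff (F := k₁) (E := K)).2 (h x hx)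
  refine ⟨fun t => ?_⟩
  have h2 : IsAlgebraic (algebraicClosure k₁ K) t := by
    obtain ⟨p, hp0, hp⟩ := hS.isAlgebraic t
    refine ⟨p.map (IntermediateField.inclusion h1 : IntermediateField.adjoin ℂ S →+*
      (algebraicClosure k₁ K).restrictScalars ℂ), ?_, ?_⟩
    · rwa [Ne, Polynomial.map_eq_zero]
    · rw [← hp, Polynomial.aeval_def, Polynomial.aeval_def, Polynomial.eval₂_map]
      rfl
  exact h2.restrictScalars k₁

private theorem Sub3_ord_poly {K : Type} [Field K] [Algebra ℂ K] {w n : ℕ}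
    (E : PrimeDivisorOver K w) {x : Fin n → K} (hx : ∀ i, 0 ≤ E.ord (x i))
    (R : MvPolynomial (Fin n) ℂ) : 0 ≤ E.ord (aeval x R) := by
  induction R using MvPolynomial.induction_on with
  | C c =>
    rw [aeval_C]
    exact E.ord_const c
  | add p q hp hq =>
    rw [map_add]
    exact E.ord.map_le_add hp hq
  | mul_X p i hp =>
    rw [map_mul, aeval_X, E.ord.map_mul]
    exact add_nonneg hp (hx i)

private theorem Sub3_ord_const {K : Type} [Field K] [Algebra ℂ K] {w : ℕ}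
    (E : PrimeDivisorOver K w) {c : ℂ} (hc : c ≠ 0) : E.ord (algebraMap ℂ K c) = 0 := by
  refine le_antisymm ?_ (E.ord_const _)
  have h6 : E.ord (algebraMap ℂ K c) + E.ord (algebraMap ℂ K c⁻¹) = 0 := by
    rw [← E.ord.map_mul, ← map_mul, mul_inv_cancel₀ hc, map_one, E.ord.map_one]
  calc E.ord (algebraMap ℂ K c) ≤ E.ord (algebraMap ℂ K c) + E.ord (algebraMap ℂ K c⁻¹) :=
        le_add_of_nonneg_right (E.ord_const _)
    _ = 0 := h6

private theorem Sub3_ord_div {K : Type} [Field K] [Algebra ℂ K] {w : ℕ}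
    (E : PrimeDivisorOver K w) {a b : K} (hb : E.ord b = 0) : E.ord (a / b) = E.ord a := by
  have hb0 : b ≠ 0 := by
    rintro rfl
    rw [E.ord.map_zero] at hb
    exact absurd hb (by simp)
  have h1 : E.ord (a / b) + E.ord b = E.ord a := by
    rw [← E.ord.map_mul, div_mul_cancel₀ _ hb0]
  rwa [hb, add_zero] at h1

theorem strongly_of_linearField {q m m' M N r s e₀ k w : ℕ}
    {P : Ideal (MvPolynomial (Fin (M + 1)) ℂ)} [P.IsPrime] (hP : Homog P)
    {Bf : Fin (r + 1) → MvPolynomial (Fin (M + 1)) ℂ} (hB : BaseFree P e₀ Bf)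
    {G : Fin m → MvPolynomial (Fin (M + 1)) ℂ} (hGh : ∀ j, ∃ d, (G j).IsHomogeneous d)
    {p : Fin m' → Fin (r + 1) → ℂ} {Δ : MvPolynomial (Fin (r + 1)) ℂ} (hk : Δ.IsHomogeneous k)
    (h : LinearField q p Δ) {σ : Fin m' → Fin m} {c : Fin m' → ℂ} (hc : ∀ j, c j ≠ 0)
    (hG : ∀ j, C (c j) * G (σ j) - comb (p j) Bf ∈ P)
    {I : Ideal (MvPolynomial (Fin (N + 1)) ℂ)} [I.IsPrime] {B Z : Set (PN N)}
    {F : Fin s → Fin (M + 1) → MvPolynomial (Fin (N + 1)) ℂ}
    (hR : RamifiedMorphism q P G I B Z F) (Q : Ideal (MvPolynomial (Fin (N + 1)) ℂ)) [Q.IsPrime]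
    (hQ : Homog Q) (hIQ : I ≤ Q) (hQΞ : ¬ (variety Q \ B ⊆ excSet I B Z F (aeval Bf Δ)))
    (hw : 1 ≤ w) (hz : ∃ z : Fin w → FunField Q, IsTranscendenceBasis ℂ z) :
    LogGeneralType Q B w := by
  classical
  -- a point outside of the exceptional set
  obtain ⟨x₀, hx₀, hx₀Ξ⟩ := Set.not_subset.1 hQΞ
  have hx₀I : x₀ ∈ variety I \ B := ⟨fun R hRI k hk => hx₀.1 R (hIQ hRI) k hk, hx₀.2⟩
  have hx₀Z : x₀ ∉ Z := fun hcon => hx₀Ξ ⟨hx₀I, Or.inl hcon⟩
  have hx₀Δ : ¬ VanishesAt (aeval Bf Δ) (morph F x₀) := fun hcon => hx₀Ξ ⟨hx₀I, Or.inr hcon⟩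
  obtain ⟨α, a₀, ha₀⟩ := hR.morphism.base x₀ hx₀I
  obtain ⟨e, he⟩ := hR.morphism.hom α
  have ha₀Q : F α a₀ ∉ Q := fun hcon => ha₀ (hx₀.1 _ hcon e (he a₀))
  have hQZ : ¬ (variety Q \ B ⊆ Z) := fun hcon => hx₀Z (hcon hx₀)
  -- the generic point
  obtain ⟨j₀, hj₀⟩ : ∃ j, coordFun Q j ≠ 0 := by
    obtain ⟨z, hz⟩ := hz
    obtain ⟨w, rfl⟩ : ∃ w', w = w' + 1 := ⟨w - 1, by omega⟩
    exact Pool.Agent.H92.GT.Proj.exists_coordFun_ne_zero Q (k := w) z hz
  obtain ⟨x, hx⟩ : ∃ x : Fin (N + 1) → FunField Q, x = fun i => ratio Q i j₀ := ⟨_, rfl⟩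
  obtain ⟨y, hy⟩ : ∃ y : Fin (M + 1) → FunField Q, y = fun a => aeval x (F α a) := ⟨_, rfl⟩
  have hcomp : ∀ (x : Fin (N + 1) → FunField Q) (α : Fin s) (R : MvPolynomial (Fin (M + 1)) ℂ),
      aeval x (aeval (F α) R) = aeval (fun a => aeval x (F α a)) R := by
    intro x α R
    rw [← AlgHom.comp_apply, MvPolynomial.comp_aeval]
  have hPQ : ∀ (α : Fin s), ∀ g ∈ P, aeval (F α) g ∈ Q := fun α g hg =>
    hIQ (aeval_mem_of_maps hP hR.homog hR.closedB ⟨x₀, hx₀I⟩ hR.morphism hR.maps α hg)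
  have hyP : ∀ g ∈ P, aeval y g = 0 := by
    intro g hg
    rw [hy, ← hcomp, hx]
    exact Pool.Agent.H5.DG.eval_ratio_mem Q hQ hj₀ (hPQ α g hg)
  have hya₀ : y a₀ ≠ 0 := by
    intro hcon
    apply ha₀Q
    rw [← Pool.Agent.H5.DG.eval_ratio_zero_iff Q hj₀ (he a₀), ← hx]
    rw [hy] at hcon
    exact hcon
  obtain ⟨V, hV⟩ : ∃ V : Fin (r + 1) → FunField Q, V = fun b => aeval y (Bf b) := ⟨_, rfl⟩
  obtain ⟨b₀, hb₀⟩ : ∃ b, V b ≠ 0 := by
    by_contra hcon
    push Not at hcon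
    obtain ⟨κ, hκ⟩ := hB.base a₀
    have h1 : Ideal.span (Set.range Bf) ⊔ P ≤ RingHom.ker
        (aeval y : MvPolynomial (Fin (M + 1)) ℂ →ₐ[ℂ] FunField Q).toRingHom := by
      refine sup_le (Ideal.span_le.2 ?_) fun g hg => hyP g hg
      rintro _ ⟨b, rfl⟩
      have h2 := hcon b
      rw [hV] at h2
      exact h2
    have h2 : aeval y ((X a₀ : MvPolynomial (Fin (M + 1)) ℂ) ^ κ) = 0 := h1 hκ
    rw [map_pow, aeval_X] at h2
    exact hya₀ (eq_zero_of_pow_eq_zero h2)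
  obtain ⟨v, hv⟩ : ∃ v : Fin (r + 1) → FunField Q, v = fun b => V b / V b₀ := ⟨_, rfl⟩
  have hvV : ∀ b, V b = V b₀ * v b := by
    intro b
    rw [hv]
    exact (mul_div_cancel₀ _ hb₀).symm
  -- the exceptional form
  have hvΔ : aeval v Δ ≠ 0 := by
    intro hcon
    have h1 : aeval V Δ = 0 := by
      rw [Pool.Agent.H5.DG.aeval_eq_pow_mul hk hvV, hcon, mul_zero]
    have h2 : aeval x (aeval (F α) (aeval Bf Δ)) = 0 := by
      rw [hcomp, ← h1, hV, hy, ← AlgHom.comp_apply, MvPolynomial.comp_aeval]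
    have hΔh : (aeval Bf Δ).IsHomogeneous (e₀ * k) := hk.aeval _ hB.hom
    have hΔh2 : (aeval (F α) (aeval Bf Δ)).IsHomogeneous (e * (e₀ * k)) := hΔh.aeval _ he
    rw [hx] at h2
    have h3 := (Pool.Agent.H5.DG.eval_ratio_zero_iff Q hj₀ hΔh2).1 h2
    exact hx₀Δ ((vanishesAt_morph hR.morphism hR.homog hx₀I.1 hΔh ⟨a₀, ha₀⟩).2
      (hx₀.1 _ h3 _ hΔh2))
  -- the field generated by the coordinates
  have halg : Algebra.IsAlgebraic (IntermediateField.adjoin ℂ (Set.range v)) (FunField Q) := by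
    refine Sub3_algebraic (morph_algebraic hR.homog hR.closedB hR.closedZ hR.morphism hR.finite Q
      hQ hIQ hQZ hz hj₀ ha₀Q) ?_
    rintro _ ⟨a, rfl⟩
    have h1 := point_algebraic hP hB hyP (b₀ := b₀) (by rw [hV] at hb₀; exact hb₀) a a₀
    have h2 : (fun b => aeval y (Bf b) / aeval y (Bf b₀)) = v := by
      rw [hv, hV]
    rw [h2] at h1
    have h3 : valAt Q j₀ (F α) a / valAt Q j₀ (F α) a₀ = y a / y a₀ := by
      rw [hy, hx]
      rfl
    show IsAlgebraic _ (valAt Q j₀ (F α) a / valAt Q j₀ (F α) a₀)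
    rw [h3]
    exact h1
  have hess : Algebra.EssFiniteType ℂ (FunField Q) := H17GT.essFiniteType_functionField Q
  refine h.alg (FunField Q) v b₀ (by rw [hv]; exact div_self hb₀) halg hvΔ w hw hz (CentreIn Q B) ?_
  intro E hE b hvb hreg j
  -- a chart
  obtain ⟨j₁, -, hj₁⟩ := Finset.exists_min_image Finset.univ (fun i => E.ord (x i))
    ⟨j₀, Finset.mem_univ _⟩
  have hx₁ : x j₁ ≠ 0 := by
    intro hcon
    have h1 := hj₁ j₀ (Finset.mem_univ _)
    have h2 : x j₀ = 1 := by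
      rw [hx]
      exact Subtype.ext (div_self hj₀)
    rw [hcon, h2, E.ord.map_zero, E.ord.map_one] at h1
    exact absurd h1 (by simp)
  have hj₁c : coordFun Q j₁ ≠ 0 := by
    intro hcon
    apply hx₁
    rw [hx]
    apply Subtype.ext
    show coordFun Q j₁ / coordFun Q j₀ = 0
    rw [hcon, zero_div]
  have hxx : ∀ i, ratio Q i j₁ = x i / x j₁ := by
    intro i
    rw [hx]
    apply Subtype.ext
    show coordFun Q i / coordFun Q j₁ =
      (coordFun Q i / coordFun Q j₀) / (coordFun Q j₁ / coordFun Q j₀)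
    rw [div_div_div_cancel_right₀ hj₀]
  have hreg₁ : ∀ i, 0 ≤ E.ord (ratio Q i j₁) := by
    intro i
    rw [hxx]
    obtain ⟨n, hn⟩ : ∃ n : ℤ, E.ord (x j₁) = ((n : ℤ) : WithTop ℤ) := by
      rcases h1 : E.ord (x j₁) with _ | n
      · exact absurd ((AddValuation.top_iff E.ord).1 h1) hx₁
      · exact ⟨n, rfl⟩
    have h2 : E.ord (x i / x j₁) + E.ord (x j₁) = E.ord (x i) := by
      rw [← E.ord.map_mul, div_mul_cancel₀ _ hx₁]
    have h3 := hj₁ i (Finset.mem_univ _)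
    rw [hn] at h2 h3
    rcases h4 : E.ord (x i / x j₁) with _ | l
    · exact le_top
    · rw [h4] at h2
      rw [← h2] at h3
      have h5 : ((l : ℤ) : WithTop ℤ) + ((n : ℤ) : WithTop ℤ) = ((l + n : ℤ) : WithTop ℤ) := rfl
      have h6 : ((n : ℤ) : WithTop ℤ) ≤ ((l + n : ℤ) : WithTop ℤ) := by
        rw [← h5]
        exact h3
      have h7 : n ≤ l + n := by exact_mod_cast h6
      have h8 : (0 : ℤ) ≤ l := by omega
      have h9 : ((0 : ℤ) : WithTop ℤ) ≤ ((l : ℤ) : WithTop ℤ) := by exact_mod_cast h8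
      exact h9
  obtain ⟨α', a', ha'⟩ := exists_good_tuple hR Q hQ hIQ hE hj₁c hreg₁
  obtain ⟨x', hx'⟩ : ∃ x' : Fin (N + 1) → FunField Q, x' = fun i => ratio Q i j₁ := ⟨_, rfl⟩
  obtain ⟨y', hy'⟩ : ∃ y' : Fin (M + 1) → FunField Q, y' = fun a => aeval x' (F α' a) :=
    ⟨_, rfl⟩
  have hy'P : ∀ g ∈ P, aeval y' g = 0 := by
    intro g hg
    rw [hy', ← hcomp, hx']
    exact Pool.Agent.H5.DG.eval_ratio_mem Q hQ hj₁c (hPQ α' g hg)
  have hy'reg : ∀ a, 0 ≤ E.ord (y' a) := by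
    intro a
    rw [hy', hx']
    exact Sub3_ord_poly E hreg₁ _
  have hy'a' : E.ord (y' a') = 0 := by
    rw [hy', hx']
    exact ha'
  obtain ⟨V', hV'⟩ : ∃ V' : Fin (r + 1) → FunField Q, V' = fun b => aeval y' (Bf b) :=
    ⟨_, rfl⟩
  have hV'reg : ∀ b, 0 ≤ E.ord (V' b) := by
    intro b
    rw [hV']
    exact Sub3_ord_poly E hy'reg _
  obtain ⟨b₁, hb₁⟩ := point_unit E hB hy'P hy'reg hy'a'
  have hb₁' : E.ord (V' b₁) = 0 := by
    rw [hV']
    exact hb₁
  -- the two points are proportional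
  obtain ⟨e', he'⟩ := hR.morphism.hom α'
  obtain ⟨μ, hμ0, hμ⟩ : ∃ μ : FunField Q, μ ≠ 0 ∧ ∀ a, y' a = μ * y a := by
    obtain ⟨y'', hy''⟩ : ∃ y'' : Fin (M + 1) → FunField Q, y'' = fun a => aeval x (F α' a) :=
      ⟨_, rfl⟩
    have h1 : ∀ a, y' a = (x j₁)⁻¹ ^ e' * y'' a := by
      intro a
      rw [hy', hy'', hx']
      refine Pool.Agent.H5.DG.aeval_eq_pow_mul (he' a) fun i => ?_
      rw [hxx, div_eq_inv_mul]
    have h2 : ∀ a, y'' a * y a₀ = y'' a₀ * y a := by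
      intro a
      have h3 := Pool.Agent.H5.DG.eval_ratio_mem Q hQ hj₀
        (hIQ (hR.morphism.compat α' α a a₀))
      rw [← hx, map_sub, map_mul, map_mul, sub_eq_zero] at h3
      rw [hy'', hy]
      exact h3
    have h3 : y'' a₀ ≠ 0 := by
      intro hcon
      have h4 : y'' a' = 0 := by
        have h5 := h2 a'
        rw [hcon, zero_mul] at h5
        exact (mul_eq_zero.1 h5).resolve_right hya₀
      rw [h1, h4, mul_zero, E.ord.map_zero] at hy'a'
      exact absurd hy'a' (by simp)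
    refine ⟨(x j₁)⁻¹ ^ e' * (y'' a₀ / y a₀),
      mul_ne_zero (pow_ne_zero _ (inv_ne_zero hx₁)) (div_ne_zero h3 hya₀), fun a => ?_⟩
    rw [h1, mul_assoc]
    congr 1
    rw [div_mul_eq_mul_div, ← h2, mul_div_cancel_right₀ _ hya₀]
  have hVV : ∀ b, V' b = μ ^ e₀ * V b := by
    intro b
    rw [hV', hV]
    exact Pool.Agent.H5.DG.aeval_eq_pow_mul (hB.hom b) hμ
  have hVb : V b ≠ 0 := by
    intro hcon
    apply hvb
    rw [hv]
    show V b / V b₀ = 0
    rw [hcon, zero_div]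
  have hV'b : V' b ≠ 0 := by
    rw [hVV]
    exact mul_ne_zero (pow_ne_zero _ hμ0) hVb
  have hquot : ∀ a, (v b)⁻¹ * v a = V' a / V' b := by
    intro a
    rw [hVV, hVV, mul_div_mul_left _ _ (pow_ne_zero _ hμ0), hv]
    show (V b / V b₀)⁻¹ * (V a / V b₀) = V a / V b
    field_simp
  have hordb : E.ord (V' b) = 0 := by
    have h1 := hreg b₁
    rw [hquot] at h1
    have h2 : E.ord (V' b₁ / V' b) + E.ord (V' b) = E.ord (V' b₁) := by
      rw [← E.ord.map_mul, div_mul_cancel₀ _ hV'b]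
    rw [hb₁'] at h2
    refine le_antisymm ?_ (hV'reg b)
    calc E.ord (V' b) ≤ E.ord (V' b₁ / V' b) + E.ord (V' b) := le_add_of_nonneg_left h1
      _ = 0 := h2
  have hsum : ∑ a, algebraMap ℂ (FunField Q) (p j a) * ((v b)⁻¹ * v a) =
      algebraMap ℂ (FunField Q) (c j) * aeval x' (aeval (F α') (G (σ j))) / V' b := by
    have h1 : ∑ a, algebraMap ℂ (FunField Q) (p j a) * ((v b)⁻¹ * v a) =
        aeval y' (comb (p j) Bf) / V' b := by
      unfold comb
      rw [map_sum, Finset.sum_div]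
      refine Finset.sum_congr rfl fun a _ => ?_
      rw [hquot, map_mul, aeval_C, mul_div_assoc, hV']
    have h2 := hy'P _ (hG j)
    rw [map_sub, map_mul, aeval_C, sub_eq_zero] at h2
    rw [h1, ← h2, hcomp, ← hy']
  have hord := ord_pullback hR hGh Q hQ hIQ hE hj₁c hreg₁ ha' (σ j)
  rw [← hx'] at hord
  have hfin : E.ord (∑ a, algebraMap ℂ (FunField Q) (p j a) * ((v b)⁻¹ * v a)) =
      E.ord (aeval x' (aeval (F α') (G (σ j)))) := by
    rw [hsum, Sub3_ord_div E hordb, E.ord.map_mul, Sub3_ord_const E (hc j), zero_add]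
  rw [hfin]
  exact hord

end Pool.Agent.H5.DG3
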