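import Pool.Agent.H5.DG3.ExtMorph
import Pool.Agent.H5.DG3.Exc
import Pool.Agent.H5.DG3.Sub3
import Pool.Agent.H5.DG3.Dim3
import Pool.Agent.H5.DG.SecOrb
import Pool.Agent.H5.DG.Joint

/-!
# Project DG3, module Asm: the theorem on morphisms, from the statements on hyperplanes
-/

open MvPolynomial Filter Topology
open Pool.Agent.H17 (PN VanishesAt zeroLocus ZariskiClosedIn HolomorphicInto puncturedDisc)
open Pool.Agent.H17GT (coordFun)
open Pool.Agent.H17LG.Variety (FunField ratio IsLogGeneralType)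
open Pool.Agent.H23.Fano (PrimeDivisorOver)
open Pool.Agent.H5.DG (Homog variety BaseFree comb OrbifoldSection isOpen_puncturedDisc
  LangProperties unionImages_subset entireCurves unionNotGeneralType)
open Pool.Agent.H62.FC (specialSet closureIn IsGeneralType)

noncomputable section

namespace Pool.Agent.H5.DG3

/-- **The theorem on morphisms**, from the statements on hyperplanes. -/
theorem MorphismTheorem.of_linearField {q m m' M r e₀ k : ℕ}
    {P : Ideal (MvPolynomial (Fin (M + 1)) ℂ)} [P.IsPrime] (hP : Homog P)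
    {Bf : Fin (r + 1) → MvPolynomial (Fin (M + 1)) ℂ} (hB : BaseFree P e₀ Bf)
    {G : Fin m → MvPolynomial (Fin (M + 1)) ℂ} (hGh : ∀ j, ∃ d, (G j).IsHomogeneous d)
    {p : Fin m' → Fin (r + 1) → ℂ} {Δ : MvPolynomial (Fin (r + 1)) ℂ} (hk : Δ.IsHomogeneous k)
    (h : LinearField q p Δ) {σ : Fin m' → Fin m} {c : Fin m' → ℂ} (hc : ∀ j, c j ≠ 0)
    (hG : ∀ j, C (c j) * G (σ j) - comb (p j) Bf ∈ P) (hΔ : aeval Bf Δ ∉ P) :
    MorphismTheorem q P G (aeval Bf Δ) where
  orbifold := OrbifoldSection.of_orbExt hP hB hk h.orb hc hG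
  morphisms := by
    intro N s I _ B Z F hR
    have hΔh : (aeval Bf Δ).IsHomogeneous (e₀ * k) := hk.aeval _ hB.hom
    have horb : OrbifoldSection q P G (aeval Bf Δ) :=
      OrbifoldSection.of_orbExt hP hB hk h.orb hc hG
    have hcl : ZariskiClosedIn (variety I \ B) (excSet I B Z F (aeval Bf Δ)) :=
      excSet_closed hR.homog hR.closedZ hR.morphism hΔh
    have hpic : ∀ f : ℂ → PN N, HolomorphicInto f puncturedDisc →
        (∀ z ∈ puncturedDisc, f z ∈ variety I \ B) →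
        (∃ z ∈ puncturedDisc, f z ∉ excSet I B Z F (aeval Bf Δ)) →
        ∃ g : ℂ → PN N, HolomorphicInto g (Metric.ball 0 1) ∧ ∀ z ∈ puncturedDisc, g z = f z := by
      rintro f hf hfU ⟨z₀, hz₀, hne⟩
      have hmh := morph_holomorphic hR.morphism hR.homog (fun x hx => hx.1)
        isOpen_puncturedDisc hf hfU
      refine extends_of_morph hR.homog hR.closedB hR.closedZ hR.morphism hR.finite hf hfU
        ⟨z₀, hz₀, fun hcon => hne ⟨hfU z₀ hz₀, Or.inl hcon⟩⟩ ?_
      refine horb.picard _ hmh (fun z hz => hR.maps _ (hfU z hz)) (fun j => ?_)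
        ⟨z₀, hz₀, fun hcon => hne ⟨hfU z₀ hz₀, Or.inr hcon⟩⟩
      obtain ⟨d, hd⟩ := hGh j
      exact meetsForm_morph hR.morphism hR.homog (fun x hx => hx.1) isOpen_puncturedDisc hf hfU
        hd fun z hz => hR.mult _ (hfU z hz) j
    have hhyp : Hyperbolic I B (excSet I B Z F (aeval Bf Δ)) :=
      ⟨hpic, fun f hf hfU hne z w => brody_of_picard_closed hcl hpic hf hfU hne z w,
        fun Q _ hQ hIQ hQΞ w hw hz => strongly_of_linearField hP hB hGh hk h hc hG hR Q hQ hIQ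
          hQΞ hw hz⟩
    refine ⟨hhyp, fun w hw hz => ⟨fun hzP hUZ => ?_, fun hne => hhyp.four hR.homog hcl hne hw hz⟩⟩
    exact not_subset_of_dim hP hR hw hz hzP hUZ hΔh hΔ

/-! ### Projective varieties -/

theorem not_centreIn_empty {N w : ℕ} (Q : Ideal (MvPolynomial (Fin (N + 1)) ℂ)) [Q.IsPrime]
    (E : PrimeDivisorOver (FunField Q) w) : ¬ CentreIn Q (∅ : Set (PN N)) E := by
  rintro ⟨j, -, -, h⟩
  have h1 := h 1 0 (isHomogeneous_one _ _) fun x hx => absurd hx (Set.notMem_empty x)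
  rw [map_one, E.ord.map_one] at h1
  exact lt_irrefl _ h1

theorem isGeneralType_of_empty {N w : ℕ} {Q : Ideal (MvPolynomial (Fin (N + 1)) ℂ)} [Q.IsPrime]
    (h : LogGeneralType Q (∅ : Set (PN N)) w) : IsGeneralType (FunField Q) w := by
  obtain ⟨m, hm, ω, hω, r, f, hf, h1, h2⟩ := h
  exact ⟨m, hm, ω, hω, r, f, hf, fun i E => (h1 i E).1 (not_centreIn_empty Q E), h2⟩

/-- **Lang's conjecture** for the projective variety given by `I`. -/
theorem Hyperbolic.lang {N : ℕ} {I : Ideal (MvPolynomial (Fin (N + 1)) ℂ)} [I.IsPrime]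
    (hI : Homog I) {Ξ : Set (PN N)} (h : Hyperbolic I ∅ Ξ) (hΞ : ZariskiClosedIn (variety I) Ξ)
    (hne : ¬ (variety I ⊆ Ξ)) {w : ℕ} (hw : 1 ≤ w)
    (hz : ∃ z : Fin w → FunField I, IsTranscendenceBasis ℂ z) : LangProperties I w Ξ := by
  have hdiff : ∀ Q : Ideal (MvPolynomial (Fin (N + 1)) ℂ), variety Q \ (∅ : Set (PN N)) =
    variety Q := fun Q => Set.sdiff_empty
  have hcl : ∀ S : Set (PN N), S ⊆ Ξ → closureIn (variety I) S ⊆ Ξ := by
    intro S hS x hx
    obtain ⟨T, hT, hTΞ⟩ := hΞ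
    rw [hTΞ] at hS ⊢
    refine ⟨hx.1, fun R hR => ?_⟩
    obtain ⟨d, hd⟩ := hT R hR
    exact hx.2 d R hd fun y hy => (hS hy).2 R hR
  have hbrody : ∀ f : ℂ → PN N, HolomorphicInto f Set.univ → (∀ z, f z ∈ variety I) →
      (∃ z, f z ∉ Ξ) → ∀ z w, f z = f w := fun f hf hfX hne =>
    h.brody f hf (by rw [hdiff]; exact hfX) hne
  refine ⟨isGeneralType_of_empty (h.strongly I hI le_rfl (by rwa [hdiff]) w hw hz), hΞ,
    fun hcon => hne (by rw [hcon]), hcl _ (unionImages_subset hbrody), hcl _ ?_, hcl _ ?_⟩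
  · rintro _ ⟨f, hf, hfX, ⟨z, w, hzw⟩, y, rfl⟩
    by_contra hcon
    exact hzw (hbrody f hf hfX ⟨y, hcon⟩ z w)
  · rintro x ⟨Q, _, w, hQ, hIQ, hw, hz', hng, hx⟩
    by_contra hcon
    refine hng (isGeneralType_of_empty (h.strongly Q hQ hIQ (fun hsub => hcon ?_) w hw hz'))
    exact hsub ⟨hx, Set.notMem_empty x⟩

/-- The four properties of projective varieties, in the terms of the project DG. -/
theorem four_of_old {N w : ℕ} {I : Ideal (MvPolynomial (Fin (N + 1)) ℂ)} [I.IsPrime]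
    {Ξ : Set (PN N)} (h : Pool.Agent.H5.DG.FourProperties I ∅ (fun i : Fin 0 => i.elim0) w Ξ) :
    FourProperties I ∅ w Ξ := by
  have hdiff : ∀ Q : Ideal (MvPolynomial (Fin (N + 1)) ℂ), variety Q \ (∅ : Set (PN N)) =
    Pool.Agent.H5.DG.coverLocus Q ∅ (fun i : Fin 0 => i.elim0) := fun Q => by
      rw [Pool.Agent.H5.DG.coverLocus_eq, Set.sdiff_empty]
  have hlgt : ∀ (Q : Ideal (MvPolynomial (Fin (N + 1)) ℂ)) [Q.IsPrime] (w : ℕ),
      Pool.Agent.H5.DG.LogGeneralType Q ∅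
        (fun i : Fin 0 => (i.elim0 : MvPolynomial (Fin (N + 1)) ℂ)) w →
      LogGeneralType Q (∅ : Set (PN N)) w := by
    intro Q _ w hQ
    obtain ⟨m, hm, ω, hω, r, f, hf, h1, h2⟩ := hQ
    refine ⟨m, hm, ω, hω, r, f, hf, fun i E => ⟨fun _ => (h1 i E).1 ?_, fun hcon =>
      absurd hcon (not_centreIn_empty Q E)⟩, h2⟩
    rintro ⟨j, -, -, i, hi, -⟩
    exact absurd hi (Finset.notMem_empty i)
  refine ⟨?_, ?_, hlgt I w h.logGeneralType, ?_, ?_, ?_⟩
  · rw [hdiff]
    exact h.closed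
  · rw [hdiff]
    exact h.proper
  · rw [hdiff]
    exact h.picard
  · rw [hdiff]
    exact h.brody
  · intro Q _ hQ hIQ hsub w hw hz
    refine hlgt Q w (h.strongly Q hQ hIQ (fun i hi => absurd hi (Finset.notMem_empty i)) ?_
      w hw hz)
    rwa [← hdiff]

end Pool.Agent.H5.DG3
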