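import Pool.Agent.H5.DG3.Defs
import Pool.Agent.H5.DG2.EG2A
import Pool.Agent.H5.DG2.Orb2

/-!
# Project DG3, module EG3: the theorem over function fields

`EG2_core` (module `Pool.Agent.H5.DG2.EG2A`) with the point `v` itself instead of the coordinates of
the variety, and with the ramification as a hypothesis on the orders along the prime divisors which
are not in `Bd`.  For the prime divisors in `Bd` the orders are arbitrary (logarithmic poles), as in
EG2A.
-/

open MvPolynomial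
open Pool.Agent.H23 (RatForm regularForms PrimeDivisorOver dualDer dualDer_apply)
open Pool.Agent.H17LG (IsLogGeneralType)
open Pool.Agent.H92.GT (loss localDer_loss exists_const_of_D_eq_zero isLogGeneralType_of_function
  exists_index)
open Pool.Agent.H5.DG

noncomputable section

namespace Pool.Agent.H5.DG3

section

variable {K : Type} [Field K] [Algebra ℂ K]

private lemma EG3_der_sum {ι : Type*} (S : Finset ι) (D : ι → Derivation ℂ K K) (g : K) :
    (∑ i ∈ S, D i) g = ∑ i ∈ S, D i g := by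
  classical
  induction S using Finset.induction_on with
  | empty => simp
  | insert a S ha ih => rw [Finset.sum_insert ha, Finset.sum_insert ha, Derivation.add_apply, ih]

private lemma EG3_dot_smul_right {m : ℕ} (t x : Fin m → K) (s : K) :
    dot t (fun a => s * x a) = s * dot t x := by
  unfold dot
  rw [Finset.mul_sum]
  exact Finset.sum_congr rfl fun a _ => by ring

private lemma EG3_dot_toL_smul {m : ℕ} (c : ℂ) (t : Fin m → ℂ) (x : Fin m → K) :
    dot (toL K (fun a => c * t a)) x = algebraMap ℂ K c * dot (toL K t) x := by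
  unfold dot toL
  rw [Finset.mul_sum]
  exact Finset.sum_congr rfl fun a _ => by rw [map_mul]; ring

private lemma EG3_der_dot {m : ℕ} (δ : Derivation ℂ K K) (t : Fin m → ℂ) (x : Fin m → K) :
    dot (toL K t) (fun a => δ (x a)) = δ (dot (toL K t) x) := by
  unfold dot toL
  rw [map_sum]
  refine Finset.sum_congr rfl fun a _ => ?_
  rw [δ.leibniz, δ.map_algebraMap, smul_zero, add_zero, smul_eq_mul]

private lemma EG3_aeval_scale {σ : Type} [Fintype σ] {G : MvPolynomial σ ℂ} {e : ℕ}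
    (hG : G.IsHomogeneous e) (c : K) (x : σ → K) :
    aeval (fun i => c * x i) G = c ^ e * aeval x G := by
  rw [aeval_def, aeval_def, eval₂_eq, eval₂_eq, Finset.mul_sum]
  refine Finset.sum_congr rfl fun m hm => ?_
  have h5 : ∑ i ∈ m.support, m i = e := by
    have := hG (mem_support_iff.1 hm)
    rw [Finsupp.weight_apply, Finsupp.sum] at this
    simpa using this
  simp only [mul_pow, Finset.prod_mul_distrib]
  rw [Finset.prod_pow_eq_pow_sum, h5]
  ring

section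

variable {u : AddValuation K (WithTop ℤ)}

private lemma EG3_mul_eq {f g : K} {a b : ℤ} (hf : u f = ((a : ℤ) : WithTop ℤ))
    (hg : u g = ((b : ℤ) : WithTop ℤ)) : u (f * g) = ((a + b : ℤ) : WithTop ℤ) := by
  rw [u.map_mul, hf, hg, ← WithTop.coe_add]

private lemma EG3_mul_le {f g : K} {a b : ℤ} (hf : ((a : ℤ) : WithTop ℤ) ≤ u f)
    (hg : ((b : ℤ) : WithTop ℤ) ≤ u g) : ((a + b : ℤ) : WithTop ℤ) ≤ u (f * g) := by
  rw [u.map_mul, WithTop.coe_add]
  exact add_le_add hf hg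

private lemma EG3_pow {f : K} {a : ℤ} (h : u f = ((a : ℤ) : WithTop ℤ)) (m : ℕ) :
    u (f ^ m) = ((m * a : ℤ) : WithTop ℤ) := by
  induction m with
  | zero => simp
  | succ m ih =>
    rw [pow_succ, EG3_mul_eq ih h]
    congr 1
    push_cast
    ring

private lemma EG3_prod {ι : Type} (S : Finset ι) {f : ι → K} {a : ι → ℤ}
    (h : ∀ j ∈ S, u (f j) = ((a j : ℤ) : WithTop ℤ)) :
    u (∏ j ∈ S, f j) = ((∑ j ∈ S, a j : ℤ) : WithTop ℤ) := by
  classical
  induction S using Finset.induction_on with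
  | empty => simp
  | insert i S hi ih =>
    rw [Finset.prod_insert hi, Finset.sum_insert hi]
    exact EG3_mul_eq (h i (Finset.mem_insert_self i S))
      (ih fun j hj => h j (Finset.mem_insert_of_mem hj))

private lemma EG3_ne {f : K} {a : ℤ} (h : u f = ((a : ℤ) : WithTop ℤ)) : f ≠ 0 := by
  rintro rfl
  rw [u.map_zero] at h
  exact absurd h.symm (WithTop.coe_ne_top)

private lemma EG3_exists {f : K} (h : f ≠ 0) : ∃ a : ℤ, u f = ((a : ℤ) : WithTop ℤ) := by
  have := (u.ne_top_iff).2 h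
  exact ⟨(u f).untop this, by simp⟩

private lemma EG3_inv {f : K} {a : ℤ} (h : u f = ((a : ℤ) : WithTop ℤ)) :
    u f⁻¹ = ((-a : ℤ) : WithTop ℤ) := by
  obtain ⟨c, hc⟩ := EG3_exists (u := u) (inv_ne_zero (EG3_ne h))
  have h1 := EG3_mul_eq h hc
  rw [mul_inv_cancel₀ (EG3_ne h), u.map_one] at h1
  have h2 : 0 = a + c := by exact_mod_cast h1
  rw [hc]
  congr 1
  omega

private lemma EG3_const {c : ℂ} (hu : ∀ c : ℂ, 0 ≤ u (algebraMap ℂ K c)) (hc : c ≠ 0) :
    u (algebraMap ℂ K c) = 0 := Pool.Agent.H92.GT.val_const hu hc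

/-- **The estimate at a prime divisor.** -/
private theorem EG3_est {n κ e m : ℕ} {N : Polynomial (PV n)} {φ : PVW n}
    (hD : DGData κ N φ) (hom : ∃ k, (Del κ N).IsHomogeneous k) {v : Fin (n + 2) → K}
    {lam : Fin m → Fin (n + 2) → ℂ} {c : Fin m → ℂ} {J : Finset (Fin m)}
    (hJ : Marked N lam c J) (hΔ : MvPolynomial.aeval v (Del κ N) ≠ 0)
    (T : Finset (Fin (n + 2) → ℂ)) (hT : ∀ τ ∈ T, τ ∈ Gam N ℂ)
    (hTv : ∀ τ ∈ T, dot (toL K τ) v = 0) (hJT : ∀ j ∈ J, (fun a => c j * lam j a) ∉ T)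
    (hu : ∀ c : ℂ, 0 ≤ u (algebraMap ℂ K c)) {x₁ : K} {r : ℕ}
    (hx₁ : u x₁ = ((-(r : ℤ) : ℤ) : WithTop ℤ)) (hv0 : ∀ a, 0 ≤ u ((x₁⁻¹) ^ e * v a))
    (hv1 : ∃ a, u ((x₁⁻¹) ^ e * v a) = 0) {o : Fin m → ℕ}
    (ho : ∀ j ∈ J, u ((x₁⁻¹) ^ e * dot (toL K (lam j)) v) = ((o j : ℤ) : WithTop ℤ)) {g₀ : K}
    (hg₀ : u g₀ = 1) {det : K} {δ : Derivation ℂ K K} {L : ℕ} {a : Fin m → ℕ}
    (ha : ∀ j ∈ J, a j ≤ o j)
    (h1 : ∀ j ∈ J, ((-(L : ℤ) + a j : ℤ) : WithTop ℤ) ≤
      u (det * δ ((x₁⁻¹) ^ e * dot (toL K (lam j)) v)))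
    (h2 : ∀ f, 0 ≤ u f → ((-(L : ℤ) : ℤ) : WithTop ℤ) ≤ u (det * δ f)) {y : K}
    (hy : ((-(r : ℤ) : ℤ) : WithTop ℤ) ≤ u y) :
    ((2 * (-((κ : ℤ) * (e * r)) - ((κ - T.card : ℕ) : ℤ) * (e * r) -
        ((κ - T.card : ℕ) : ℤ) * L + ∑ j ∈ J, (a j : ℤ)) +
        ((J.card : ℤ) * (e * r) - ∑ j ∈ J, (o j : ℤ)) - r : ℤ) : WithTop ℤ) ≤
      u (evVW (Phi φ T.card) v (fun a => δ (v a)) ^ 2 *
        (∏ j ∈ J, dot (toL K (lam j)) v)⁻¹ * y * det ^ (2 * (κ - T.card))) := by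
  classical
  set s : K := x₁⁻¹ with hs
  have hx0 : x₁ ≠ 0 := EG3_ne hx₁
  have hs0 : s ≠ 0 := inv_ne_zero hx0
  have hxs1 : x₁ * s = 1 := mul_inv_cancel₀ hx0
  set vh : Fin (n + 2) → K := fun a => s ^ e * v a with hvh
  set w : Fin (n + 2) → K := fun a => det * δ (vh a) with hw
  have hdot : ∀ t : Fin (n + 2) → ℂ, dot (toL K t) vh = s ^ e * dot (toL K t) v := fun t => by
    rw [hvh, EG3_dot_smul_right]
  have hdotw : ∀ t : Fin (n + 2) → ℂ, dot (toL K t) w = det * δ (dot (toL K t) vh) := by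
    intro t
    rw [hw, EG3_dot_smul_right, EG3_der_dot]
  have hg : u (g₀⁻¹) = ((-1 : ℤ) : WithTop ℤ) := EG3_inv (a := 1) (by rw [hg₀]; rfl)
  have hgL : u ((g₀⁻¹) ^ L) = ((-(L : ℤ) : ℤ) : WithTop ℤ) := by
    rw [EG3_pow hg]
    congr 1
    ring
  have hga : ∀ j, u (g₀ ^ a j) = ((a j : ℤ) : WithTop ℤ) := by
    intro j
    rw [EG3_pow (a := 1) (by rw [hg₀]; rfl)]
    congr 1
    ring
  -- the cluster inequality
  have hcl := cluster_ord hD.pos hD.norm hD.nondeg hD.chow J (fun j a => c j * lam j a)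
    (fun j hj => hJ.mem j hj) hJ.inj T hT hJT u hu vh w hv0 hv1
    (by
      obtain ⟨k, hk⟩ := hom
      have h5 : MvPolynomial.aeval vh (Del κ N) = (s ^ e) ^ k * MvPolynomial.aeval v (Del κ N) := by
        rw [hvh]
        exact EG3_aeval_scale hk (s ^ e) v
      rw [h5]
      exact mul_ne_zero (pow_ne_zero _ (pow_ne_zero _ hs0)) hΔ)
    (fun τ hτ => by rw [hdot, hTv τ hτ, mul_zero])
    (fun τ hτ => by rw [hdotw, hdot, hTv τ hτ, mul_zero, map_zero, mul_zero])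
    (fun j => g₀ ^ a j) ((g₀⁻¹) ^ L) (fun j _ => by
      rw [hga]
      exact_mod_cast Nat.zero_le _)
    (fun j hj => by
      rw [EG3_dot_toL_smul, hdot, u.map_mul, EG3_const hu (hJ.ne j hj), zero_add, ho j hj, hga]
      exact_mod_cast ha j hj)
    (fun j hj => by
      rw [EG3_dot_toL_smul, hdotw, hdot, u.map_mul (algebraMap ℂ K (c j)),
        EG3_const hu (hJ.ne j hj), zero_add, EG3_mul_eq hgL (hga j)]
      exact h1 j hj)
    (fun b => by
      rw [hgL]
      exact h2 _ (hv0 b))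
  rw [EG3_mul_eq (EG3_pow hgL (κ - T.card)) (EG3_prod J fun j _ => hga j)] at hcl
  -- scaling
  have hscale : evVW (Phi φ T.card) v (fun a => δ (v a)) * det ^ (κ - T.card) =
      (x₁ ^ e) ^ κ * (x₁ ^ e) ^ (κ - T.card) * evVW (Phi φ T.card) vh w := by
    have hv' : ∀ a, v a = x₁ ^ e * vh a := by
      intro a
      rw [hvh]
      show v a = x₁ ^ e * (s ^ e * v a)
      rw [← mul_assoc, ← mul_pow, hxs1, one_pow, one_mul]
    have h1 := evVW_Phi_scale hD.norm hD.chow T.card vh (fun a => δ (vh a)) (x₁ ^ e) (x₁ ^ e)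
      (δ (x₁ ^ e))
    have h2 := evVW_Phi_scale hD.norm hD.chow T.card vh (fun a => δ (vh a)) 1 det 0
    have e1 : (fun i => x₁ ^ e * vh i) = v := funext fun a => (hv' a).symm
    have e2 : (fun i => x₁ ^ e * δ (vh i) + δ (x₁ ^ e) * vh i) = fun a => δ (v a) := by
      funext a
      have h3 : δ (v a) = δ (x₁ ^ e * vh a) := congrArg δ (hv' a)
      show x₁ ^ e * δ (vh a) + δ (x₁ ^ e) * vh a = δ (v a)
      rw [h3, δ.leibniz (x₁ ^ e) (vh a), smul_eq_mul, smul_eq_mul, mul_comm (vh a)]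
    have e3 : (fun i => (1 : K) * vh i) = vh := funext fun a => one_mul _
    have e4 : (fun i => det * δ (vh i) + 0 * vh i) = w := by
      funext a
      rw [hw, zero_mul, add_zero]
    rw [e1, e2] at h1
    rw [e3, e4, one_pow, one_mul] at h2
    rw [h1, h2]
    ring
  have hxe : u (x₁ ^ e) = ((-((e : ℤ) * r) : ℤ) : WithTop ℤ) := by
    rw [EG3_pow hx₁]
    congr 1
    ring
  have hse : u (s ^ e) = (((e : ℤ) * r : ℤ) : WithTop ℤ) := by
    rw [EG3_pow (EG3_inv hx₁)]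
    congr 1
    ring
  have hLj : ∀ j ∈ J, u (dot (toL K (lam j)) v) = (((o j : ℤ) - e * r : ℤ) : WithTop ℤ) := by
    intro j hj
    have h5 : dot (toL K (lam j)) v = x₁ ^ e * (s ^ e * dot (toL K (lam j)) v) := by
      rw [← mul_assoc, ← mul_pow, hxs1, one_pow, one_mul]
    rw [h5, EG3_mul_eq hxe (ho j hj)]
    congr 1
    ring
  have hprod := EG3_inv (EG3_prod J hLj)
  have hmain : evVW (Phi φ T.card) v (fun a => δ (v a)) ^ 2 *
      (∏ j ∈ J, dot (toL K (lam j)) v)⁻¹ * y * det ^ (2 * (κ - T.card)) =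
      ((x₁ ^ e) ^ κ * (x₁ ^ e) ^ (κ - T.card) * evVW (Phi φ T.card) vh w) *
      ((x₁ ^ e) ^ κ * (x₁ ^ e) ^ (κ - T.card) * evVW (Phi φ T.card) vh w) *
      (∏ j ∈ J, dot (toL K (lam j)) v)⁻¹ * y := by
    rw [← hscale]
    ring
  rw [hmain]
  have h5 := EG3_mul_le ((EG3_mul_eq (EG3_pow hxe κ) (EG3_pow hxe (κ - T.card))).ge) hcl
  have h6 := EG3_mul_le (EG3_mul_le (EG3_mul_le h5 h5) hprod.ge) hy
  refine le_trans (le_of_eq ?_) h6
  congr 1
  rw [Finset.sum_sub_distrib, Finset.sum_const, nsmul_eq_mul]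
  ring


end

end

private lemma EG3_num {n κ e k t J J' : ℕ} (he : 1 ≤ e) (ht : t < κ) (hk : k ≤ n + 1)
    (hJ : (2 * n + 8) * κ < J) (hJ' : J ≤ J' + t) :
    2 * (e * κ + e * (κ - t)) + 2 * (κ - t) * (k + 1) + 1 ≤ e * J' := by
  obtain ⟨s, rfl⟩ : ∃ s, κ = t + s := ⟨κ - t, by omega⟩
  obtain ⟨e, rfl⟩ : ∃ e', e = e' + 1 := ⟨e - 1, by omega⟩
  have h2 : t + s - t = s := by omega
  rw [h2]
  have hs : 1 ≤ s := by omega
  have h4 : (2 * n + 8) * (t + s) + 1 ≤ J' + t := by omega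
  zify at *
  nlinarith [mul_nonneg (Int.natCast_nonneg e) (Int.natCast_nonneg n),
    mul_nonneg (Int.natCast_nonneg n) (Int.natCast_nonneg t),
    mul_nonneg (Int.natCast_nonneg e) (Int.natCast_nonneg t),
    mul_nonneg (Int.natCast_nonneg e) (Int.natCast_nonneg s),
    mul_nonneg (mul_nonneg (Int.natCast_nonneg e) (Int.natCast_nonneg n)) (Int.natCast_nonneg t),
    mul_nonneg (mul_nonneg (Int.natCast_nonneg e) (Int.natCast_nonneg n)) (Int.natCast_nonneg s)]

/-- The theorem over function fields. -/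
private theorem EG3_core {K : Type} [Field K] [Algebra ℂ K] [Algebra.EssFiniteType ℂ K]
    {n κ m k : ℕ} {p : Fin m → Fin (n + 2) → ℂ} {N : Polynomial (PV n)} {φ : PVW n}
    (h : Pkg2 p κ N φ) {v : Fin (n + 2) → K} {j₀ : Fin (n + 2)} (hx1 : v j₀ = 1)
    (halg : Algebra.IsAlgebraic (IntermediateField.adjoin ℂ (Set.range v)) K)
    (hΔ' : MvPolynomial.aeval v (Del κ N) ≠ 0)
    (hprop : ¬ ∃ (y : Fin (n + 2) → ℂ) (f : K), ∀ a, v a = algebraMap ℂ K (y a) * f)
    (hk : k ≤ n + 1) {I : Fin (k + 1) → Fin (n + 2)}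
    (hz : IsTranscendenceBasis ℂ fun i => v (I i)) (Bd : PrimeDivisorOver K (k + 1) → Prop)
    (hBd : ∀ E, ¬ Bd E → ∀ b, v b ≠ 0 → (∀ a, 0 ≤ E.ord ((v b)⁻¹ * v a)) → ∀ j,
      E.ord (∑ a, algebraMap ℂ K (p j a) * ((v b)⁻¹ * v a)) = 0 ∨
        (((2 : ℕ) : ℤ) : WithTop ℤ) ≤ E.ord (∑ a, algebraMap ℂ K (p j a) * ((v b)⁻¹ * v a))) :
    IsLogGeneralType Bd := by
  classical
  obtain ⟨B, hB⟩ := H23.exists_basis_kaehler hz
  -- the constant points
  have hD := h.data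
  have hfin := finite_constants hD.norm v hΔ'
  set T : Finset (Fin (n + 2) → ℂ) := hfin.toFinset with hTdef
  have hT : ∀ τ, τ ∈ T ↔ τ ∈ Gam N ℂ ∧ dot (toL (K) τ) v = 0 := by
    intro τ
    rw [hTdef, Set.Finite.mem_toFinset]
    rfl
  have hTκ : T.card < κ := by
    refine card_constants_lt hD.pos hD.norm hD.nondeg v hΔ' hprop T fun τ hτ => (hT τ).1 hτ
  -- the marked points which are not constant
  have hJ := h.marked
  set J' : Finset (Fin m) := (Finset.univ : Finset (Fin m)).filter fun j => (fun a => 1 * p j a) ∉ T with hJ'def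
  have hJ'J : J' ⊆ Finset.univ := Finset.filter_subset _ _
  have hJ'm : Marked N p (fun _ => 1) J' := ⟨fun j hj => hJ.ne j (hJ'J hj), fun j hj => hJ.mem j (hJ'J hj),
    hJ.inj.mono (by exact_mod_cast hJ'J)⟩
  have hJ'c : (Finset.univ : Finset (Fin m)).card ≤ J'.card + T.card := by
    have h1 : ((Finset.univ : Finset (Fin m)).filter fun j => ¬ (fun a => 1 * p j a) ∉ T).card ≤ T.card := by
      rw [← Finset.card_image_of_injOn (f := fun j a => 1 * p j a)
        (hJ.inj.mono (by exact_mod_cast Finset.filter_subset _ _))]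
      refine Finset.card_le_card fun w hw => ?_
      obtain ⟨j, hj, rfl⟩ := Finset.mem_image.mp hw
      exact not_not.mp (Finset.mem_filter.mp hj).2
    have h2 := Finset.card_filter_add_card_filter_not (s := (Finset.univ : Finset (Fin m)))
      (fun j => (fun a => 1 * p j a) ∉ T)
    have h3 : J'.card = ((Finset.univ : Finset (Fin m)).filter fun j => (fun a => 1 * p j a) ∉ T).card := rfl
    omega
  have hJT : ∀ j ∈ J', (fun a => 1 * p j a) ∉ T := fun j hj => (Finset.mem_filter.mp hj).2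
  have hxJ : ∀ j ∈ J', dot (toL (K) (p j)) v ≠ 0 := by
    intro j hj h0
    apply hJT j hj
    rw [hT]
    refine ⟨hJ'm.mem j hj, ?_⟩
    rw [EG3_dot_toL_smul, h0, mul_zero]
  rw [Finset.card_univ, Fintype.card_fin] at hJ'c
  -- the function
  obtain ⟨μ, hμ⟩ := phi_ne_zero hD.pos hD.norm hD.chow (fun i => dualDer B i) (by
    intro f hf
    obtain ⟨z, hz'⟩ := exists_const_of_D_eq_zero (K := K) (f := f) (by
      rw [← B.sum_repr (KaehlerDifferential.D ℂ (K) f)]
      refine Finset.sum_eq_zero fun a _ => ?_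
      rw [← dualDer_apply, hf a, zero_smul])
    exact ⟨z, hz'.symm⟩) v hΔ' T hT
  set δ : Derivation ℂ (K) (K) :=
    ∑ i : Fin (k + 1), algebraMap ℂ (K) (μ i) • dualDer B i with hδ
  have hδapp : ∀ g, δ g = ∑ i : Fin (k + 1), algebraMap ℂ (K) (μ i) * dualDer B i g := by
    intro g
    rw [hδ, EG3_der_sum]
    rfl
  have hΦ : evVW (Phi φ T.card) v (fun a => δ (v a)) ≠ 0 := by
    have h1 : (fun a => δ (v a)) = fun a => ∑ i, algebraMap ℂ (K) (μ i) *
        dualDer B i (v a) := funext fun a => hδapp _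
    rw [h1]
    exact hμ
  have hprodJ : (∏ j ∈ J', dot (toL (K) (p j)) v)⁻¹ ≠ 0 :=
    inv_ne_zero (Finset.prod_ne_zero_iff.2 fun j hj => hxJ j hj)
  refine isLogGeneralType_of_function (K := K) hz (b := B) (M := 2 * (κ - T.card))
    (by omega) hx1 halg
    (Θ := evVW (Phi φ T.card) v (fun a => δ (v a)) ^ 2 *
      (∏ j ∈ J', dot (toL (K) (p j)) v)⁻¹)
    (mul_ne_zero (pow_ne_zero _ hΦ) hprodJ) ?_
  intro E g₀ bE hg₀ hreg hlog hlog0 i
  obtain ⟨e, he⟩ : ∃ e : ℕ, e = 1 := ⟨1, rfl⟩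
  have hnum := EG3_num (e := e) (by omega) hTκ hk h.card hJ'c
  -- the minimal order
  obtain ⟨j₁, -, hj₁⟩ := Finset.exists_min_image Finset.univ (fun j => E.ord (v j))
    ⟨j₀, Finset.mem_univ _⟩
  have hj₁' : ∀ j, E.ord (v j₁) ≤ E.ord (v j) := fun j => hj₁ j (Finset.mem_univ _)
  have hle0 : E.ord (v j₁) ≤ 0 := by
    have := hj₁' j₀
    rwa [hx1, E.ord.map_one] at this
  have hxj1 : v j₁ ≠ 0 := by
    intro h0
    rw [h0, E.ord.map_zero] at hle0
    exact absurd hle0 (by simp)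
  obtain ⟨r, hr⟩ : ∃ r : ℕ, E.ord (v j₁) = ((-(r : ℤ) : ℤ) : WithTop ℤ) := by
    obtain ⟨a, ha⟩ := EG3_exists (u := E.ord) hxj1
    rw [ha] at hle0
    have h2 : a ≤ 0 := by exact_mod_cast hle0
    refine ⟨(-a).toNat, ?_⟩
    rw [ha]
    congr 1
    omega
  have hy0 : ∀ i, 0 ≤ E.ord ((v j₁)⁻¹ * v i) := by
    intro j
    have h1 : E.ord (v j) = E.ord ((v j₁)⁻¹ * v j) + E.ord (v j₁) := by
      rw [← E.ord.map_mul]
      congr 1
      rw [mul_comm (v j₁)⁻¹ (v j), mul_assoc, inv_mul_cancel₀ hxj1, mul_one]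
    have h2 := hj₁' j
    rw [h1, hr] at h2
    induction hc : E.ord ((v j₁)⁻¹ * v j) using WithTop.recTopCoe with
    | top => exact le_top
    | coe a =>
      rw [hc] at h2
      have h3 : -(r : ℤ) ≤ a + -(r : ℤ) := by exact_mod_cast h2
      exact_mod_cast (by omega : (0 : ℤ) ≤ a)
  have hv0 : ∀ a, 0 ≤ E.ord (((v j₁)⁻¹) ^ e * v a) := by
    intro a
    rw [he, pow_one]
    exact hy0 a
  have hv1 : ∃ a, E.ord (((v j₁)⁻¹) ^ e * v a) = 0 :=
    ⟨j₁, by rw [he, pow_one, inv_mul_cancel₀ hxj1, E.ord.map_one]⟩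
  have hLy : ∀ j, ((v j₁)⁻¹) ^ e * dot (toL (K) (p j)) v =
      ∑ a, algebraMap ℂ K (p j a) * ((v j₁)⁻¹ * v a) := by
    intro j
    rw [he, pow_one]
    unfold dot toL
    rw [Finset.mul_sum]
    exact Finset.sum_congr rfl fun a _ => by ring
  have hLy0 : ∀ j, 0 ≤ E.ord (((v j₁)⁻¹) ^ e * dot (toL (K) (p j)) v) := by
    intro j
    rw [hLy]
    apply E.ord.map_le_sum
    intro a _
    rw [E.ord.map_mul]
    exact add_nonneg (E.ord_const _) (hy0 a)
  have hexo : ∀ j, ∃ o : ℕ, j ∈ J' →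
      E.ord (((v j₁)⁻¹) ^ e * dot (toL (K) (p j)) v) = ((o : ℤ) : WithTop ℤ) := by
    intro j
    by_cases hj : j ∈ J'
    · obtain ⟨a, ha⟩ := EG3_exists (u := E.ord) (mul_ne_zero
        (pow_ne_zero e (inv_ne_zero hxj1)) (hxJ j hj))
      have h1 : 0 ≤ a := by
        have h2 := hLy0 j
        rw [ha] at h2
        exact_mod_cast h2
      refine ⟨a.toNat, fun _ => ?_⟩
      rw [ha]
      congr 1
      omega
    · exact ⟨0, fun h => absurd h hj⟩
  choose o ho using hexo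
  have hr' : ∀ j, ((-(r : ℤ) : ℤ) : WithTop ℤ) ≤ E.ord (v j) := fun j => by
    rw [← hr]
    exact hj₁' j
  have hℓ : loss k r ≤ r * (k + 1) := by
    unfold loss
    split_ifs
    · positivity
    · exact le_rfl
  have hδ1 : ∀ f, 0 ≤ E.ord f → ((-(loss k r : ℤ) : ℤ) : WithTop ℤ) ≤
      E.ord ((bE.toMatrix B).det * δ f) := by
    intro f hf
    rw [hδapp, Finset.mul_sum]
    apply E.ord.map_le_sum
    intro a _
    have h2 := (localDer_loss (v := E.ord) hg₀ hreg hlog hlog0 hB a (n := r)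
      (fun j => hr' (I j))).1 f hf
    have h3 : (bE.toMatrix B).det * (algebraMap ℂ (K) (μ a) * dualDer B a f) =
        algebraMap ℂ (K) (μ a) * ((bE.toMatrix B).det * dualDer B a f) := by ring
    rw [h3, E.ord.map_mul]
    exact h2.trans (le_add_of_nonneg_left (E.ord_const _))
  have hδ2 : ∀ f (t : ℤ), ((t : ℤ) : WithTop ℤ) ≤ E.ord f →
      ((t - 1 - (loss k r : ℤ) : ℤ) : WithTop ℤ) ≤ E.ord ((bE.toMatrix B).det * δ f) := by
    intro f t hf
    rw [hδapp, Finset.mul_sum]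
    apply E.ord.map_le_sum
    intro a _
    have h2 := (localDer_loss (v := E.ord) hg₀ hreg hlog hlog0 hB a (n := r)
      (fun j => hr' (I j))).2 f t hf
    have h3 : (bE.toMatrix B).det * (algebraMap ℂ (K) (μ a) * dualDer B a f) =
        algebraMap ℂ (K) (μ a) * ((bE.toMatrix B).det * dualDer B a f) := by ring
    rw [h3, E.ord.map_mul]
    exact h2.trans (le_add_of_nonneg_left (E.ord_const _))
  have hnum' : (2 : ℤ) * (κ * (e * r) + ((κ - T.card : ℕ) : ℤ) * (e * r)) +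
      2 * ((κ - T.card : ℕ) : ℤ) * (r * (k + 1)) + r ≤ (J'.card : ℤ) * (e * r) := by
    have h1 : (2 : ℤ) * (e * κ + e * ((κ - T.card : ℕ) : ℤ)) +
        2 * ((κ - T.card : ℕ) : ℤ) * (k + 1) + 1 ≤ e * J'.card := by exact_mod_cast hnum
    have h2 := mul_le_mul_of_nonneg_right h1 (Nat.cast_nonneg (α := ℤ) r)
    nlinarith [h2]
  have hℓ' : (((κ - T.card : ℕ) : ℤ)) * (loss k r : ℤ) ≤
      ((κ - T.card : ℕ) : ℤ) * (r * (k + 1)) := by
    refine mul_le_mul_of_nonneg_left ?_ (Nat.cast_nonneg _)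
    exact_mod_cast hℓ
  constructor
  · intro hE
    have ho2 : ∀ j ∈ J', o j ≤ 2 * (o j - 1) := by
      intro j hj
      have h1 := ho j hj
      rw [hLy] at h1
      rcases hBd E hE j₁ hxj1 hy0 j with h2 | h2
      · rw [h1] at h2
        have h3 : (o j : ℤ) = 0 := by exact_mod_cast h2
        omega
      · rw [h1] at h2
        have h3 : (2 : ℤ) ≤ o j := by exact_mod_cast h2
        omega
    have h1 := EG3_est (u := E.ord) hD h.hom hJ'm hΔ' T (fun τ hτ => ((hT τ).1 hτ).1)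
      (fun τ hτ => ((hT τ).1 hτ).2) hJT E.ord_const hr hv0 hv1 ho hg₀
      (det := (bE.toMatrix B).det) (δ := δ) (L := loss k r) (a := fun j => o j - 1)
      (fun j _ => Nat.sub_le _ _)
      (fun j hj => by
        by_cases hoj : o j = 0
        · refine le_trans (le_of_eq ?_) (hδ1 _ (by rw [ho j hj]; exact_mod_cast Nat.zero_le _))
          rw [hoj]
          congr 1
          simp
        · refine le_trans (le_of_eq ?_) (hδ2 _ (o j) (ho j hj).ge)
          congr 1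
          have : ((o j - 1 : ℕ) : ℤ) = (o j : ℤ) - 1 := by omega
          rw [this]
          ring)
      hδ1 (hr' i)
    refine le_trans ?_ h1
    have h2 : ∑ j ∈ J', (o j : ℤ) ≤ 2 * ∑ j ∈ J', ((o j - 1 : ℕ) : ℤ) := by
      rw [Finset.mul_sum]
      refine Finset.sum_le_sum fun j hj => ?_
      exact_mod_cast ho2 j hj
    exact_mod_cast (by nlinarith [h2, hnum', hℓ'] : (0 : ℤ) ≤
      2 * (-((κ : ℤ) * (e * r)) - ((κ - T.card : ℕ) : ℤ) * (e * r) -
        ((κ - T.card : ℕ) : ℤ) * (loss k r : ℕ) + ∑ j ∈ J', ((o j - 1 : ℕ) : ℤ)) +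
        ((J'.card : ℤ) * (e * r) - ∑ j ∈ J', (o j : ℤ)) - r)
  · have h1 := EG3_est (u := E.ord) hD h.hom hJ'm hΔ' T (fun τ hτ => ((hT τ).1 hτ).1)
      (fun τ hτ => ((hT τ).1 hτ).2) hJT E.ord_const hr hv0 hv1 ho hg₀
      (det := (bE.toMatrix B).det) (δ := δ) (L := loss k r + 1) (a := o)
      (fun j _ => le_rfl)
      (fun j hj => by
        refine le_trans (le_of_eq ?_) (hδ2 _ (o j) (ho j hj).ge)
        congr 1
        push_cast
        ring)
      (fun f hf => by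
        refine le_trans (le_of_eq ?_) (hδ2 f 0 hf)
        congr 1
        push_cast
        ring) (hr' i)
    have h3 := add_le_add h1 (le_refl ((((2 * (κ - T.card) : ℕ) : ℤ) : WithTop ℤ)))
    have h2 : (0 : ℤ) ≤ ∑ j ∈ J', (o j : ℤ) := Finset.sum_nonneg fun j _ => Int.natCast_nonneg _
    rw [← WithTop.coe_add] at h3
    have h4 : (0 : ℤ) ≤ 2 * (-((κ : ℤ) * (e * r)) - ((κ - T.card : ℕ) : ℤ) * (e * r) -
        ((κ - T.card : ℕ) : ℤ) * ((loss k r + 1 : ℕ) : ℤ) + ∑ j ∈ J', (o j : ℤ)) +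
        ((J'.card : ℤ) * (e * r) - ∑ j ∈ J', (o j : ℤ)) - r + ((2 * (κ - T.card) : ℕ) : ℤ) := by
      push_cast
      nlinarith [h2, hnum', hℓ']
    have h5 : (0 : WithTop ℤ) ≤ (((2 * (-((κ : ℤ) * (e * r)) - ((κ - T.card : ℕ) : ℤ) * (e * r) -
        ((κ - T.card : ℕ) : ℤ) * ((loss k r + 1 : ℕ) : ℤ) + ∑ j ∈ J', (o j : ℤ)) +
        ((J'.card : ℤ) * (e * r) - ∑ j ∈ J', (o j : ℤ)) - r + ((2 * (κ - T.card) : ℕ) : ℤ) : ℤ)) :
          WithTop ℤ) := WithTop.coe_le_coe.mpr h4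
    exact h5.trans h3

theorem linearField_of_pkg2 {n m κ : ℕ} {p : Fin m → Fin (n + 2) → ℂ} {N : Polynomial (PV n)}
    {φ : PVW n} (h : Pkg2 p κ N φ) : LinearField 2 p (Del κ N) where
  orb := picard_orb2 h
  alg := by
    intro K _ _ _ v b₀ hv1 halg hΔ w hw hz Bd hBd
    obtain ⟨k, rfl⟩ : ∃ k, w = k + 1 := ⟨w - 1, by omega⟩
    obtain ⟨z, hz⟩ := hz
    obtain ⟨I, hI⟩ := exists_index halg hz
    have hinj : Function.Injective I := by
      intro a b hab
      exact hI.1.injective (congrArg v hab)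
    have hkn : k ≤ n + 1 := by
      have h1 := Fintype.card_le_of_injective I hinj
      rw [Fintype.card_fin, Fintype.card_fin] at h1
      omega
    have hprop : ¬ ∃ (y : Fin (n + 2) → ℂ) (f : K), ∀ a, v a = algebraMap ℂ K (y a) * f := by
      rintro ⟨y, f, hy⟩
      have h1 : algebraMap ℂ K (y b₀) * f = 1 := by rw [← hy, hv1]
      have h2 : ∀ a, v a = algebraMap ℂ K (y a / y b₀) := by
        intro a
        have h3 : algebraMap ℂ K (y b₀) ≠ 0 := left_ne_zero_of_mul (h1.trans_ne one_ne_zero)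
        rw [map_div₀, hy a, eq_div_iff h3, mul_assoc, mul_comm f, h1, mul_one]
      have h4 : IsAlgebraic ℂ (v (I 0)) := by
        rw [h2]
        exact isAlgebraic_algebraMap _
      exact hI.1.transcendental 0 h4
    refine Pool.Agent.H17LG.isLogGeneralType_translate (K := K)
      (B := fun E => Bd (Pool.Agent.H23.toFano E)) (fun E => Iff.rfl) ?_
    exact EG3_core h hv1 halg hΔ hprop hkn hI _ fun E hE b hb h0 j =>
      hBd (Pool.Agent.H23.toFano E) hE b hb h0 j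

end Pool.Agent.H5.DG3
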