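import Pool.Agent.H5.DG2.Joint2
import Pool.Agent.H5.DG3.Asm
import Pool.Agent.H5.DG3.EG3
import Pool.Agent.H5.DG3.HC3

/-!
# Project DG3, module Main3: the main theorem on morphisms
-/

open MvPolynomial
open Pool.Agent.H17 (PN VanishesAt ZariskiClosedIn zeroLocus)
open Pool.Agent.H17LG.Variety (FunField)
open Pool.Agent.H5.DG (Homog variety BaseFree comb OrbifoldSection LangProperties IntegralSection
  AtMostThrough Del vpack baseFree_of_few del_notMem linearForm linearForm_isHomogeneous baseFree_X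
  homog_bot)

noncomputable section

namespace Pool.Agent.H5.DG3

/-- **The main theorem on morphisms.** -/
theorem main_morphisms (M δ k : ℕ) : ∃ N₀ : ℕ, ∀ (m : ℕ)
    (P : Ideal (MvPolynomial (Fin (M + 1)) ℂ)) [P.IsPrime]
    (G : Fin m → MvPolynomial (Fin (M + 1)) ℂ), N₀ ≤ m → Homog P →
    (∀ j, ∃ e, 1 ≤ e ∧ e ≤ δ ∧ (G j).IsHomogeneous e) →
    (∀ i j, i ≠ j → ∀ c : ℂ, G i - C c * G j ∉ P) → (∀ j, IntegralSection P (G j)) →
    AtMostThrough k P G →
    ∃ (d : ℕ) (Δ : MvPolynomial (Fin (M + 1)) ℂ), Δ ∉ P ∧ Δ.IsHomogeneous d ∧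
      MorphismTheorem 2 P G Δ := by
  obtain ⟨N₀, hN₀⟩ := vpack M δ k
  refine ⟨N₀, fun m P _ G hm hP hdeg hne hint hthr => ?_⟩
  obtain ⟨e, n, m', κ, ι, N, φ, p, c, B, he, hι, hpkg, hm', hB, hind, hc⟩ :=
    hN₀ P m G hm hdeg hne
  have hGh : ∀ j, ∃ d, (G j).IsHomogeneous d := fun j => by
    obtain ⟨d, -, -, hd⟩ := hdeg j
    exact ⟨d, hd⟩
  have hbase : BaseFree P e B := by
    refine baseFree_of_few he hB (fun y hy hyP => ?_) hι hm' hc
    have h1 := hthr (Projectivization.mk ℂ y hy) (fun Q hQ d hd => by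
      rw [Pool.Agent.H17.vanishesAt_mk_iff hd]
      exact hyP Q hQ)
    refine le_trans (le_of_eq ?_) h1
    congr 1
    ext j
    obtain ⟨d, hd⟩ := hGh j
    simp only [Set.mem_ofPred_eq]
    rw [Pool.Agent.H17.vanishesAt_mk_iff hd]
  obtain ⟨d, hd⟩ := hpkg.hom
  have hj : 0 < m' := by omega
  have hdel : aeval B (Del κ N) ∉ P :=
    del_notMem hpkg.data.pos hpkg.data.norm P hP he hB hind (hpkg.mem ⟨0, hj⟩)
      ((hint _).congr (hc ⟨0, hj⟩).1 (hc ⟨0, hj⟩).2)
  exact ⟨e * d, aeval B (Del κ N), hdel, hd.aeval _ hB,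
    MorphismTheorem.of_linearField hP hbase hGh hd (linearField_of_pkg2 hpkg)
      (fun j => (hc j).1) (fun j => (hc j).2) hdel⟩

/-- Hyperplanes of `ℙ^r` in general position whose points lie on no hypersurface of degree `b`. -/
theorem morphisms_of_spans {q b r m : ℕ} (hr : 1 ≤ r) (hq : 2 ≤ q)
    (hb : r * (q + 1) < b * (q - 1)) {l : Fin m → Fin (r + 1) → ℂ}
    (hl : ∀ s : Fin (r + 1) → Fin m, Function.Injective s → LinearIndependent ℂ fun i => l (s i))
    (hs : ∀ g : MvPolynomial (Fin (r + 1)) ℂ, g.IsHomogeneous b → (∀ j, eval (l j) g = 0) →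
      g = 0) :
    MorphismTheorem q ⊥ (fun j => linearForm (l j)) 1 := by
  have h1 := MorphismTheorem.of_linearField (P := (⊥ : Ideal (MvPolynomial (Fin (r + 1)) ℂ)))
    (homog_bot r) (baseFree_X r) (G := fun j => linearForm (l j))
    (fun j => ⟨1, linearForm_isHomogeneous (l j)⟩) (isHomogeneous_one _ _)
    (linearField_of_spans hr hq hb hl hs) (σ := id) (c := fun _ => 1)
    (fun _ => one_ne_zero) (fun j => by
      rw [C_1, one_mul]
      exact (Ideal.mem_bot).2 (sub_self _)) (by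
      rw [map_one, Ideal.mem_bot]
      exact one_ne_zero)
  rwa [map_one] at h1

/-- The common zero locus of the forms `A i` is a closed irreducible variety of dimension `r` which
has the four properties, with the exceptional set `Ξ`. -/
def HasFourProperties (r : ℕ) {N c : ℕ} (A : Fin c → MvPolynomial (Fin (N + 1)) ℂ)
    (Ξ : Set (PN N)) : Prop :=
  ∃ (I : Ideal (MvPolynomial (Fin (N + 1)) ℂ)) (_ : I.IsPrime), Homog I ∧
    variety I = zeroLocus A ∧ (∃ z : Fin r → FunField I, IsTranscendenceBasis ℂ z) ∧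
    FourProperties I ∅ r Ξ

theorem hasFour_of_old {r N c : ℕ} {A : Fin c → MvPolynomial (Fin (N + 1)) ℂ} {Ξ : Set (PN N)}
    (h : Pool.Agent.H5.DG.HasFourProperties r A Ξ) : HasFourProperties r A Ξ := by
  obtain ⟨I, hI, h1, h2, h3, h4⟩ := h
  exact ⟨I, hI, h1, h2, h3, four_of_old h4⟩

/-- Lang's conjecture for the projective varieties with a morphism to the variety `Y` given by `P`,
with finite fibres outside of the closed set `Z`, such that the inverse images of the hypersurfaces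
`G j = 0` have multiplicities at least `q`, and which are not contained in the exceptional set, in
particular for those which have the dimension of `Y` and are not contained in `Z`. -/
def LangMorphisms (q : ℕ) {m M : ℕ} (P : Ideal (MvPolynomial (Fin (M + 1)) ℂ)) [P.IsPrime]
    (G : Fin m → MvPolynomial (Fin (M + 1)) ℂ) (Δ : MvPolynomial (Fin (M + 1)) ℂ) : Prop :=
  ∀ (N s : ℕ) (I : Ideal (MvPolynomial (Fin (N + 1)) ℂ)) [I.IsPrime] (Z : Set (PN N))
    (F : Fin s → Fin (M + 1) → MvPolynomial (Fin (N + 1)) ℂ), RamifiedMorphism q P G I ∅ Z F →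
    ∀ w, 1 ≤ w → (∃ z : Fin w → FunField I, IsTranscendenceBasis ℂ z) →
      ((∃ z : Fin w → FunField P, IsTranscendenceBasis ℂ z) → ¬ (variety I ⊆ Z) →
        ¬ (variety I ⊆ excSet I ∅ Z F Δ)) ∧
      (¬ (variety I ⊆ excSet I ∅ Z F Δ) → LangProperties I w (excSet I ∅ Z F Δ))

theorem MorphismTheorem.lang {q m M k : ℕ} {P : Ideal (MvPolynomial (Fin (M + 1)) ℂ)} [P.IsPrime]
    {G : Fin m → MvPolynomial (Fin (M + 1)) ℂ} {Δ : MvPolynomial (Fin (M + 1)) ℂ}
    (h : MorphismTheorem q P G Δ) (hk : Δ.IsHomogeneous k) : LangMorphisms q P G Δ := by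
  intro N s I _ Z F hR w hw hz
  have h1 := h.morphisms N s I ∅ Z F hR
  have h2 := h1.2 w hw hz
  rw [Set.sdiff_empty] at h2
  refine ⟨h2.1, fun hne => ?_⟩
  have hcl := excSet_closed (B := ∅) hR.homog hR.closedZ hR.morphism hk
  rw [Set.sdiff_empty] at hcl
  exact h1.1.lang hR.homog hcl hne hw hz

end Pool.Agent.H5.DG3
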