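import Pool.Agent.H5.DG3.Defs
import Pool.Agent.H5.DG.CovMain

/-!
# Project DG3, module AlgMero: algebraic functions of meromorphic functions

`g j = c j / c s` are meromorphic at `0` (`PunctMero.mul`, `PunctMero.inv`) and
`h ^ s + ∑_{j < s} g j h ^ j = 0`, so `‖h‖ ≤ ∑_{j ≤ s} ‖g j‖` near all points;
`punctMero_of_bound` (module CovBd) with the functions `g j`.  `s = 0`: then `c 0 = 0` near all
points, a contradiction to `hcs`.
-/

open Filter Topology
open Pool.Agent.H62.FC (PunctMero)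
open Pool.Agent.H17 (puncturedDisc)

noncomputable section

namespace Pool.Agent.H5.DG3

private theorem norm_le_of_monic_relation {s : ℕ} (hs : 0 < s) {g : ℕ → ℂ} {x : ℂ} (hgs : g s = 1)
    (h : ∑ j ∈ Finset.range (s + 1), g j * x ^ j = 0) :
    ‖x‖ ≤ ∑ j : Fin (s + 1), ‖g j‖ := by
  rw [Fin.sum_univ_eq_sum_range (fun j => ‖g j‖) (s + 1), Finset.sum_range_succ]
  rw [Finset.sum_range_succ] at h
  have hnn : 0 ≤ ∑ j ∈ Finset.range s, ‖g j‖ := Finset.sum_nonneg fun _ _ => norm_nonneg _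
  rcases le_or_gt ‖x‖ 1 with h1 | h1
  · rw [hgs, norm_one]
    linarith
  · have h2 : x ^ s = - ∑ j ∈ Finset.range s, g j * x ^ j := by
      rw [hgs, one_mul] at h
      exact eq_neg_of_add_eq_zero_right h
    have h3 : ‖x‖ ^ s ≤ (∑ j ∈ Finset.range s, ‖g j‖) * ‖x‖ ^ (s - 1) := by
      rw [← norm_pow, h2, norm_neg, Finset.sum_mul]
      refine (norm_sum_le _ _).trans (Finset.sum_le_sum fun j hj => ?_)
      rw [norm_mul, norm_pow]
      refine mul_le_mul_of_nonneg_left ?_ (norm_nonneg _)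
      refine pow_le_pow_right₀ h1.le ?_
      have := Finset.mem_range.1 hj
      omega
    have h4 : ‖x‖ ^ s = ‖x‖ * ‖x‖ ^ (s - 1) := by
      rw [← pow_succ']
      congr 1
      omega
    rw [h4] at h3
    have h5 : 0 < ‖x‖ ^ (s - 1) := pow_pos (by linarith) _
    have h6 := le_of_mul_le_mul_right h3 h5
    have h7 := norm_nonneg (g s)
    linarith

theorem punctMero_of_algebraic {h : ℂ → ℂ} (hh : ∀ z ∈ puncturedDisc, MeromorphicAt h z) {s : ℕ}
    {c : ℕ → ℂ → ℂ} (hc : ∀ j ≤ s, PunctMero (c j))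
    (hcs : ∀ z ∈ puncturedDisc, ∀ᶠ ζ in 𝓝[≠] z, c s ζ ≠ 0)
    (hrel : ∀ z ∈ puncturedDisc, ∀ᶠ ζ in 𝓝[≠] z,
      ∑ j ∈ Finset.range (s + 1), c j ζ * h ζ ^ j = 0) : PunctMero h := by
  have hmem : ∀ z : ℂ, 0 < ‖z‖ → ‖z‖ < 1 → z ∈ puncturedDisc := by
    intro z h1 h2
    refine ⟨by simpa using h2, ?_⟩
    rintro rfl
    simp at h1
  rcases Nat.eq_zero_or_pos s with hs | hs
  · subst hs
    exfalso
    have h1 : ((1 / 2 : ℝ) : ℂ) ∈ puncturedDisc := by
      refine hmem _ ?_ ?_ <;> rw [Complex.norm_real] <;> norm_num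
    obtain ⟨ζ, h2, h3⟩ := ((hcs _ h1).and (hrel _ h1)).exists
    simp at h3
    exact h2 h3
  · have hv : ∀ j : Fin (s + 1), PunctMero (fun z => c j z * (c s z)⁻¹) := fun j =>
      (hc j (by have := j.2; omega)).mul (hc s le_rfl).inv
    refine Pool.Agent.H5.DG.punctMero_of_bound one_pos (C := 1)
      (fun z h1 h2 => hh z (hmem z h1 h2)) hv fun z h1 h2 => ?_
    filter_upwards [hcs z (hmem z h1 h2), hrel z (hmem z h1 h2)] with ζ h3 h4
    rw [one_mul]
    refine norm_le_of_monic_relation hs (g := fun j => c j ζ * (c s ζ)⁻¹) (mul_inv_cancel₀ h3) ?_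
    have h5 : ∑ j ∈ Finset.range (s + 1), c j ζ * (c s ζ)⁻¹ * h ζ ^ j =
        (∑ j ∈ Finset.range (s + 1), c j ζ * h ζ ^ j) * (c s ζ)⁻¹ := by
      rw [Finset.sum_mul]
      exact Finset.sum_congr rfl fun j _ => by ring
    rw [h5, h4, zero_mul]

end Pool.Agent.H5.DG3
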