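import Pool.Agent.H5.DG3.Points
import Pool.Agent.H5.DG.SecBase

/-!
# Project DG3, module Centre: prime divisors whose centre lies in the open part

`x i = ratio Q i j₁`, all regular along `E`; so all polynomials in the `x i` are regular
(`E.ord_const`).
`exists_ord_zero`: suppose all `T ∈ 𝒯` have positive order.  `¬ CentreIn Q B E` at `j₁` gives a form `H`
which vanishes on `B` with `E.ord (H (x)) = 0`.  The polynomial `X j₁ * H` vanishes at all common zeros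
`v` of `I` and `𝒯` (`v = 0`, or `[v] ∈ variety I` and `[v] ∈ B`), so a power of it lies in
`I ⊔ span 𝒯` (`MvPolynomial.vanishingIdeal_zeroLocus_eq_radical`); at `x` it has order `0`
(`x j₁ = 1`), the elements of `I` vanish (`eval_ratio_mem`, module SecBase) and those of `span 𝒯` have
positive order.
`ord_ge_of_mult`: elements of `radical (span {L} ⊔ I)` have order at least `1`; model: `EG_ram` in
`Pool.Agent.H5.DG2.EG2A`.
-/

open MvPolynomial
open Pool.Agent.H17 (PN VanishesAt ZariskiClosedIn)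
open Pool.Agent.H17GT (coordFun)
open Pool.Agent.H17LG.Variety (FunField ratio)
open Pool.Agent.H23.Fano (PrimeDivisorOver)
open Pool.Agent.H5.DG (Homog variety)

noncomputable section

namespace Pool.Agent.H5.DG3

section

variable {K : Type} [Field K] {u : AddValuation K (WithTop ℤ)}

private lemma CE_mul_le {f g : K} {a b : ℤ} (hf : ((a : ℤ) : WithTop ℤ) ≤ u f)
    (hg : ((b : ℤ) : WithTop ℤ) ≤ u g) : ((a + b : ℤ) : WithTop ℤ) ≤ u (f * g) := by
  rw [u.map_mul, WithTop.coe_add]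
  exact add_le_add hf hg

private lemma CE_pow_zero {f : K} (h : u f = 0) (m : ℕ) : u (f ^ m) = 0 := by
  induction m with
  | zero => simp
  | succ m ih => rw [pow_succ, u.map_mul, ih, h, add_zero]

private lemma CE_pos_iff {f : K} : 0 < u f ↔ ((1 : ℤ) : WithTop ℤ) ≤ u f := by
  induction u f using WithTop.recTopCoe with
  | top => simp
  | coe a =>
    constructor
    · intro h
      have h1 : (0 : ℤ) < a := by exact_mod_cast h
      exact_mod_cast (by omega : (1 : ℤ) ≤ a)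
    · intro h
      have h1 : (1 : ℤ) ≤ a := by exact_mod_cast h
      exact_mod_cast (by omega : (0 : ℤ) < a)

variable [Algebra ℂ K]

/-- The polynomials whose value has order at least `c`. -/
private def CE_ideal (u : AddValuation K (WithTop ℤ)) {q : ℕ} (y : Fin q → K)
    (hy : ∀ G : MvPolynomial (Fin q) ℂ, 0 ≤ u (aeval y G)) (c : WithTop ℤ) :
    Ideal (MvPolynomial (Fin q) ℂ) where
  carrier := {G | c ≤ u (aeval y G)}
  add_mem' := by
    intro G H hG hH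
    rw [Set.mem_ofPred_eq, map_add]
    exact (le_min hG hH).trans (u.map_add _ _)
  zero_mem' := by
    rw [Set.mem_ofPred_eq, map_zero, u.map_zero]
    exact le_top
  smul_mem' := by
    intro G H hH
    rw [Set.mem_ofPred_eq, smul_eq_mul, map_mul, u.map_mul]
    exact le_trans hH (le_add_of_nonneg_left (hy G))

private lemma CE_nonneg (hu : ∀ c : ℂ, 0 ≤ u (algebraMap ℂ K c)) {q : ℕ} {y : Fin q → K}
    (hy : ∀ i, 0 ≤ u (y i)) (G : MvPolynomial (Fin q) ℂ) : 0 ≤ u (aeval y G) := by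
  induction G using MvPolynomial.induction_on with
  | C a =>
    rw [aeval_C]
    exact hu a
  | add p p' h h' =>
    rw [map_add]
    exact (le_min h h').trans (u.map_add _ _)
  | mul_X p i h =>
    rw [map_mul, aeval_X, u.map_mul]
    exact add_nonneg h (hy i)

private lemma CE_le_ideal {q : ℕ} {y : Fin q → K} {I : Ideal (MvPolynomial (Fin q) ℂ)}
    (hy : ∀ G : MvPolynomial (Fin q) ℂ, 0 ≤ u (aeval y G)) (hI : ∀ G ∈ I, aeval y G = 0)
    (c : WithTop ℤ) : I ≤ CE_ideal u y hy c := by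
  intro G hG
  show c ≤ u (aeval y G)
  rw [hI G hG, u.map_zero]
  exact le_top

private lemma CE_rad {q : ℕ} {y : Fin q → K}
    (hy : ∀ G : MvPolynomial (Fin q) ℂ, 0 ≤ u (aeval y G)) {J : Ideal (MvPolynomial (Fin q) ℂ)}
    (h1 : J ≤ CE_ideal u y hy ((1 : ℤ) : WithTop ℤ)) :
    Ideal.radical J ≤ CE_ideal u y hy ((1 : ℤ) : WithTop ℤ) := by
  intro G hG
  obtain ⟨t, ht⟩ := hG
  have h3 : ((1 : ℤ) : WithTop ℤ) ≤ u (aeval y (G ^ t)) := h1 ht
  show ((1 : ℤ) : WithTop ℤ) ≤ u (aeval y G)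
  by_contra h4
  rw [← CE_pos_iff, not_lt] at h4
  have h5 : u (aeval y G) = 0 := le_antisymm h4 (hy G)
  rw [map_pow, CE_pow_zero h5] at h3
  exact absurd h3 (by exact_mod_cast (by norm_num : ¬ (1 : ℤ) ≤ 0))

private lemma CE_pow_le {q : ℕ} {y : Fin q → K}
    (hy : ∀ G : MvPolynomial (Fin q) ℂ, 0 ≤ u (aeval y G)) {J : Ideal (MvPolynomial (Fin q) ℂ)}
    (h1 : J ≤ CE_ideal u y hy ((1 : ℤ) : WithTop ℤ)) (r : ℕ) :
    J ^ r ≤ CE_ideal u y hy (((r : ℕ) : ℤ) : WithTop ℤ) := by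
  induction r with
  | zero =>
    intro G _
    show (((0 : ℕ) : ℤ) : WithTop ℤ) ≤ u (aeval y G)
    exact_mod_cast hy G
  | succ r ih =>
    rw [pow_succ, Ideal.mul_le]
    intro G hG H hH
    show (((r + 1 : ℕ) : ℤ) : WithTop ℤ) ≤ u (aeval y (G * H))
    rw [map_mul]
    have h2 := CE_mul_le (a := (r : ℤ)) (b := 1) (ih hG) (h1 hH)
    push_cast at h2 ⊢
    exact h2

end

variable {N w : ℕ} {I : Ideal (MvPolynomial (Fin (N + 1)) ℂ)}

theorem exists_ord_zero (hI : Homog I) (Q : Ideal (MvPolynomial (Fin (N + 1)) ℂ)) [Q.IsPrime]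
    (hQ : Homog Q) (hIQ : I ≤ Q) {B : Set (PN N)} {E : PrimeDivisorOver (FunField Q) w}
    (hE : ¬ CentreIn Q B E) {j₁ : Fin (N + 1)} (hj₁ : coordFun Q j₁ ≠ 0)
    (hreg : ∀ i, 0 ≤ E.ord (ratio Q i j₁)) (𝒯 : Set (MvPolynomial (Fin (N + 1)) ℂ))
    (h𝒯 : ∀ T ∈ 𝒯, ∃ d, T.IsHomogeneous d)
    (hcov : ∀ x ∈ variety I \ B, ∃ T ∈ 𝒯, ¬ VanishesAt T x) :
    ∃ T ∈ 𝒯, E.ord (aeval (fun i => ratio Q i j₁) T) = 0 := by
  classical
  by_contra hcon
  push Not at hcon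
  have hy : ∀ G : MvPolynomial (Fin (N + 1)) ℂ, 0 ≤ E.ord (aeval (fun i => ratio Q i j₁) G) :=
    CE_nonneg E.ord_const hreg
  have hx₁ : ratio Q j₁ j₁ = 1 := Subtype.ext (div_self hj₁)
  obtain ⟨H, d, hH, hHB, hH0⟩ : ∃ (H : MvPolynomial (Fin (N + 1)) ℂ) (d : ℕ),
      H.IsHomogeneous d ∧ (∀ x ∈ B, VanishesAt H x) ∧
      E.ord (aeval (fun i => ratio Q i j₁) H) = 0 := by
    by_contra h
    push Not at h
    exact hE ⟨j₁, hj₁, hreg, fun T d hT hTB => lt_of_le_of_ne (hy T) (Ne.symm (h T d hT hTB))⟩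
  have hmem : X j₁ * H ∈ (I ⊔ Ideal.span 𝒯).radical := by
    rw [← MvPolynomial.vanishingIdeal_zeroLocus_eq_radical (k := ℂ) (K := ℂ),
      MvPolynomial.mem_vanishingIdeal_iff]
    intro v hv
    rw [MvPolynomial.mem_zeroLocus_iff] at hv
    have hev : ∀ p : MvPolynomial (Fin (N + 1)) ℂ, aeval v p = eval v p := fun p => by
      rw [MvPolynomial.aeval_eq_eval]
    rw [hev, map_mul, eval_X]
    by_cases hv0 : v j₁ = 0
    · rw [hv0, zero_mul]
    have hvne : v ≠ 0 := fun h => hv0 (congrFun h j₁)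
    have hvar : Projectivization.mk ℂ v hvne ∈ variety I := by
      intro P hP k hPk
      rw [Pool.Agent.H17.vanishesAt_mk_iff hPk, ← hev]
      exact hv P (Ideal.mem_sup_left hP)
    have hB : Projectivization.mk ℂ v hvne ∈ B := by
      by_contra hB
      obtain ⟨T, hT, hTv⟩ := hcov _ ⟨hvar, hB⟩
      obtain ⟨e, he⟩ := h𝒯 T hT
      rw [Pool.Agent.H17.vanishesAt_mk_iff he, ← hev] at hTv
      exact hTv (hv T (Ideal.mem_sup_right (Ideal.subset_span hT)))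
    have h1 := hHB _ hB
    rw [Pool.Agent.H17.vanishesAt_mk_iff hH] at h1
    rw [h1, mul_zero]
  have hle : I ⊔ Ideal.span 𝒯 ≤ CE_ideal E.ord _ hy ((1 : ℤ) : WithTop ℤ) := by
    refine sup_le (CE_le_ideal hy (fun G hG => Pool.Agent.H5.DG.eval_ratio_mem Q hQ hj₁ (hIQ hG)) _) ?_
    rw [Ideal.span_le]
    intro T hT
    exact CE_pos_iff.mp (lt_of_le_of_ne (hy T) (Ne.symm (hcon T hT)))
  have h2 : ((1 : ℤ) : WithTop ℤ) ≤ E.ord (aeval (fun i => ratio Q i j₁) (X j₁ * H)) :=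
    CE_rad hy hle hmem
  rw [map_mul, aeval_X, hx₁, one_mul, hH0] at h2
  exact absurd h2 (by exact_mod_cast (by norm_num : ¬ (1 : ℤ) ≤ 0))

theorem ord_ge_of_mult (Q : Ideal (MvPolynomial (Fin (N + 1)) ℂ)) [Q.IsPrime]
    (hQ : Homog Q) (hIQ : I ≤ Q) {E : PrimeDivisorOver (FunField Q) w}
    {j₁ : Fin (N + 1)} (hj₁ : coordFun Q j₁ ≠ 0) (hreg : ∀ i, 0 ≤ E.ord (ratio Q i j₁))
    {T L : MvPolynomial (Fin (N + 1)) ℂ} {q : ℕ}
    (hTL : T * L ∈ (Ideal.radical (Ideal.span {L} ⊔ I)) ^ q ⊔ I)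
    (hT : E.ord (aeval (fun i => ratio Q i j₁) T) = 0)
    (hL : 0 < E.ord (aeval (fun i => ratio Q i j₁) L)) :
    (((q : ℕ) : ℤ) : WithTop ℤ) ≤ E.ord (aeval (fun i => ratio Q i j₁) L) := by
  have hy : ∀ G : MvPolynomial (Fin (N + 1)) ℂ, 0 ≤ E.ord (aeval (fun i => ratio Q i j₁) G) :=
    CE_nonneg E.ord_const hreg
  have hI0 : ∀ G ∈ I, aeval (fun i => ratio Q i j₁) G = 0 :=
    fun G hG => Pool.Agent.H5.DG.eval_ratio_mem Q hQ hj₁ (hIQ hG)
  have h1 : Ideal.span {L} ⊔ I ≤ CE_ideal E.ord _ hy ((1 : ℤ) : WithTop ℤ) := by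
    refine sup_le ?_ (CE_le_ideal hy hI0 _)
    rw [Ideal.span_le, Set.singleton_subset_iff]
    exact CE_pos_iff.mp hL
  have h3 : (Ideal.radical (Ideal.span {L} ⊔ I)) ^ q ⊔ I ≤
      CE_ideal E.ord _ hy (((q : ℕ) : ℤ) : WithTop ℤ) :=
    sup_le (CE_pow_le hy (CE_rad hy h1) q) (CE_le_ideal hy hI0 _)
  have h4 : (((q : ℕ) : ℤ) : WithTop ℤ) ≤
      E.ord (aeval (fun i => ratio Q i j₁) (T * L)) := h3 hTL
  rwa [map_mul, E.ord.map_mul, hT, zero_add] at h4

end Pool.Agent.H5.DG3
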