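import Pool.Agent.H5.DG3.Defs
import Pool.Agent.H5.DG.D3Lem
import Pool.Agent.H5.DG.SecDim

/-!
# Project DG3, module Curve: the ideal of a holomorphic curve

`Q` = the polynomials all of whose homogeneous components vanish on the curve.  It is prime by
`vanish_dich` (a form either vanishes identically on the curve or near no point; used in CovMain) and
`Ideal.IsPrime` for homogeneous ideals (`Ideal.IsHomogeneous.isPrime_of_homogeneous_mem_or_mem`).
`curve_eval`: `R` is homogenised (`exists_homogenise`, module SecDim) to a form `S`;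
`aeval (ratio Q _ j₀) R = 0 ↔ S ∈ Q` (`eval_ratio_zero_iff`, module SecBase), and
`eval (rep / rep j₀) R` is `S (rep)` divided by a power of `rep j₀`, which does not vanish near any
point of the punctured disc except at isolated points (`X j₀ ∉ Q`, `vanish_dich`).
-/

open MvPolynomial Filter Topology
open Pool.Agent.H17 (PN VanishesAt HolomorphicInto puncturedDisc)
open Pool.Agent.H17GT (coordFun)
open Pool.Agent.H17LG.Variety (FunField ratio)
open Pool.Agent.H5.DG (Homog variety)

noncomputable section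

namespace Pool.Agent.H5.DG3

variable {N : ℕ}

/-- the values of a polynomial on the line through `x`, as a polynomial in the parameter -/
private def line (x : Fin (N + 1) → ℂ) : MvPolynomial (Fin (N + 1)) ℂ →ₐ[ℂ] Polynomial ℂ :=
  aeval fun i => Polynomial.C (x i) * Polynomial.X

private theorem line_homog {k : ℕ} {G : MvPolynomial (Fin (N + 1)) ℂ} (hG : G.IsHomogeneous k)
    (x : Fin (N + 1) → ℂ) : line x G = Polynomial.C (eval x G) * Polynomial.X ^ k := by
  unfold line
  rw [aeval_def, eval₂_eq, eval_eq, map_sum, Finset.sum_mul]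
  refine Finset.sum_congr rfl fun m hm => ?_
  have h5 : ∑ i ∈ m.support, m i = k := by
    have := hG (mem_support_iff.1 hm)
    rw [Finsupp.weight_apply, Finsupp.sum] at this
    simpa using this
  simp only [mul_pow, Finset.prod_mul_distrib]
  rw [Finset.prod_pow_eq_pow_sum, h5, map_mul, map_prod]
  simp only [map_pow]
  rw [show (algebraMap ℂ (Polynomial ℂ)) (coeff m G) = Polynomial.C (coeff m G) from rfl]
  ring

private theorem line_coeff (x : Fin (N + 1) → ℂ) (T : MvPolynomial (Fin (N + 1)) ℂ) (k : ℕ) :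
    (line x T).coeff k = eval x (homogeneousComponent k T) := by
  have h1 : line x T = ∑ d ∈ Finset.range (T.totalDegree + 1),
      Polynomial.C (eval x (homogeneousComponent d T)) * Polynomial.X ^ d := by
    conv_lhs => rw [← sum_homogeneousComponent T]
    rw [map_sum]
    exact Finset.sum_congr rfl fun d _ => line_homog (homogeneousComponent_isHomogeneous d T) x
  rw [h1, Polynomial.finsetSum_coeff]
  simp only [Polynomial.coeff_C_mul_X_pow]
  rw [Finset.sum_ite_eq]
  split_ifs with h2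
  · rfl
  · have h3 : T.totalDegree < k := by
      by_contra hcon
      exact h2 (Finset.mem_range.2 (by omega))
    rw [homogeneousComponent_eq_zero _ _ h3, map_zero]

/-- the polynomials which vanish on the cone over the curve -/
private def curveIdeal (f : ℂ → PN N) : Ideal (MvPolynomial (Fin (N + 1)) ℂ) :=
  ⨅ z ∈ puncturedDisc, RingHom.ker (line (f z).rep)

private theorem mem_curveIdeal {f : ℂ → PN N} {T : MvPolynomial (Fin (N + 1)) ℂ} :
    T ∈ curveIdeal f ↔ ∀ z ∈ puncturedDisc, line (f z).rep T = 0 := by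
  unfold curveIdeal
  simp only [Submodule.mem_iInf, RingHom.mem_ker]

private theorem line_eq_zero_iff {x : Fin (N + 1) → ℂ} {T : MvPolynomial (Fin (N + 1)) ℂ} :
    line x T = 0 ↔ ∀ k, eval x (homogeneousComponent k T) = 0 := by
  rw [Polynomial.ext_iff]
  simp only [line_coeff, Polynomial.coeff_zero]

private theorem half_mem : (1 / 2 : ℂ) ∈ puncturedDisc := by
  rw [Pool.Agent.H5.DG.mem_puncturedDisc]
  norm_num

private theorem line_eventually {f : ℂ → PN N} (hf : HolomorphicInto f puncturedDisc)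
    {T : MvPolynomial (Fin (N + 1)) ℂ} (hT : T ∉ curveIdeal f) {s : ℂ} (hs : s ∈ puncturedDisc) :
    ∀ᶠ z in 𝓝[≠] s, line (f z).rep T ≠ 0 := by
  rw [mem_curveIdeal] at hT
  push Not at hT
  obtain ⟨z₀, hz₀, h1⟩ := hT
  have h2 : ∃ k, eval (f z₀).rep (homogeneousComponent k T) ≠ 0 := by
    by_contra hcon
    push Not at hcon
    exact h1 (line_eq_zero_iff.2 hcon)
  obtain ⟨k, hk⟩ := h2
  rcases Pool.Agent.H5.DG.vanish_dich hf (homogeneousComponent_isHomogeneous k T) with h3 | h3
  · exact absurd (h3 z₀ hz₀).self_of_nhds hk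
  · filter_upwards [h3 s hs] with z hz h4
    exact hz (line_eq_zero_iff.1 h4 k)

theorem exists_curveIdeal {f : ℂ → PN N} (hf : HolomorphicInto f puncturedDisc) :
    ∃ Q : Ideal (MvPolynomial (Fin (N + 1)) ℂ), Q.IsPrime ∧ Homog Q ∧
      ∀ (T : MvPolynomial (Fin (N + 1)) ℂ) (k : ℕ), T.IsHomogeneous k →
        (T ∈ Q ↔ ∀ z ∈ puncturedDisc, VanishesAt T (f z)) := by
  have hhom : ∀ (T : MvPolynomial (Fin (N + 1)) ℂ) (k : ℕ), T.IsHomogeneous k →
      (T ∈ curveIdeal f ↔ ∀ z ∈ puncturedDisc, VanishesAt T (f z)) := by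
    intro T k hT
    rw [mem_curveIdeal]
    refine forall₂_congr fun z _ => ?_
    rw [line_homog hT]
    unfold VanishesAt
    simp
  refine ⟨curveIdeal f, ?_, ?_, hhom⟩
  · refine Ideal.isPrime_iff.2 ⟨?_, ?_⟩
    · rw [Ne, Ideal.eq_top_iff_one, mem_curveIdeal]
      intro hcon
      have h1 := hcon _ half_mem
      rw [map_one] at h1
      exact one_ne_zero h1
    · intro T₁ T₂ h12
      by_contra hcon
      push Not at hcon
      obtain ⟨h1, h2⟩ := hcon
      obtain ⟨z, h3, h4, h5⟩ := ((line_eventually hf h1 half_mem).and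
        ((line_eventually hf h2 half_mem).and
          (Pool.Agent.H5.DG.eventually_mem_puncturedDisc half_mem))).exists
      have h6 := mem_curveIdeal.1 h12 z h5
      rw [map_mul] at h6
      exact (mul_ne_zero h3 h4) h6
  · intro T hT k
    rw [mem_curveIdeal] at hT ⊢
    intro z hz
    rw [line_homog (homogeneousComponent_isHomogeneous k T), line_eq_zero_iff.1 (hT z hz) k,
      map_zero, zero_mul]

theorem curve_eval {f : ℂ → PN N} (hf : HolomorphicInto f puncturedDisc)
    (Q : Ideal (MvPolynomial (Fin (N + 1)) ℂ)) [Q.IsPrime] (hQ : Homog Q)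
    (hQf : ∀ (T : MvPolynomial (Fin (N + 1)) ℂ) (k : ℕ), T.IsHomogeneous k →
      (T ∈ Q ↔ ∀ z ∈ puncturedDisc, VanishesAt T (f z))) {j₀ : Fin (N + 1)}
    (hj₀ : coordFun Q j₀ ≠ 0) (R : MvPolynomial (Fin (N + 1)) ℂ) :
    (aeval (fun i => ratio Q i j₀) R = 0 → ∀ s ∈ puncturedDisc, ∀ᶠ z in 𝓝[≠] s,
      eval (fun i => (f z).rep i / (f z).rep j₀) R = 0) ∧
    (aeval (fun i => ratio Q i j₀) R ≠ 0 → ∀ s ∈ puncturedDisc, ∀ᶠ z in 𝓝[≠] s,
      eval (fun i => (f z).rep i / (f z).rep j₀) R ≠ 0) := by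
  obtain ⟨S, hS, hSe⟩ := Pool.Agent.H5.DG.exists_homogenise j₀ R
  -- the generic point
  have hone : ratio Q j₀ j₀ = 1 := Subtype.ext (div_self hj₀)
  have h1 : aeval (fun i => ratio Q i j₀) R = 0 ↔ S ∈ Q := by
    rw [← hSe (fun i => ratio Q i j₀) hone]
    exact Pool.Agent.H5.DG.eval_ratio_zero_iff Q hj₀ hS
  -- forms outside of the ideal
  have hout : ∀ (T : MvPolynomial (Fin (N + 1)) ℂ) (k : ℕ), T.IsHomogeneous k → T ∉ Q →
      ∀ s ∈ puncturedDisc, ∀ᶠ z in 𝓝[≠] s, ¬ VanishesAt T (f z) := by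
    intro T k hT hTQ
    rcases Pool.Agent.H5.DG.vanish_dich hf hT with h2 | h2
    · exact absurd ((hQf T k hT).2 fun z hz => (h2 z hz).self_of_nhds) hTQ
    · exact h2
  have hX : (X j₀ : MvPolynomial (Fin (N + 1)) ℂ) ∉ Q := by
    intro hcon
    apply hj₀
    rw [← Pool.Agent.H92.GT.Proj.aeval_coordFun_eq_zero_iff, aeval_X] at hcon
    exact hcon
  have hj : ∀ s ∈ puncturedDisc, ∀ᶠ z in 𝓝[≠] s, (f z).rep j₀ ≠ 0 := by
    intro s hs
    filter_upwards [hout _ 1 (isHomogeneous_X ℂ j₀) hX s hs] with z hz h2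
    exact hz (Pool.Agent.H5.DG.vanishesAt_X.2 h2)
  have hval : ∀ z, (f z).rep j₀ ≠ 0 → eval (fun i => (f z).rep i / (f z).rep j₀) R =
      ((f z).rep j₀)⁻¹ ^ R.totalDegree * eval (f z).rep S := by
    intro z hz
    have h2 := hSe (fun i => (f z).rep i / (f z).rep j₀) (div_self hz)
    have h3 := Pool.Agent.H5.DG.aeval_eq_pow_mul (K := ℂ) hS
      (x := fun i => (f z).rep i / (f z).rep j₀) (y := (f z).rep) (c := ((f z).rep j₀)⁻¹)
      (fun i => div_eq_inv_mul _ _)
    have h4 : ∀ (y : Fin (N + 1) → ℂ) (T : MvPolynomial (Fin (N + 1)) ℂ), aeval y T = eval y T :=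
      fun y T => RingHom.congr_fun (MvPolynomial.coe_aeval_eq_eval y) T
    rw [h4] at h2 h3
    rw [h4] at h2 h3
    rw [← h2, h3]
  constructor
  · intro h2 s hs
    have h3 := (hQf S _ hS).1 (h1.1 h2)
    filter_upwards [hj s hs, Pool.Agent.H5.DG.eventually_mem_puncturedDisc hs] with z h4 h5
    rw [hval z h4]
    have h6 : eval (f z).rep S = 0 := h3 z h5
    rw [h6, mul_zero]
  · intro h2 s hs
    filter_upwards [hj s hs, hout S _ hS (fun h3 => h2 (h1.2 h3)) s hs] with z h4 h5
    rw [hval z h4]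
    exact mul_ne_zero (pow_ne_zero _ (inv_ne_zero h4)) h5

end Pool.Agent.H5.DG3
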