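import Pool.Agent.H5.DG.SecDefs

/-!
# Project DG3, definitions: generically finite morphisms from quasi-projective varieties

`U = variety I \ B` is a quasi-projective variety: `I` is a homogeneous prime ideal and `B` is a
closed subset of `ℙ^N`.
-/

open MvPolynomial Filter Topology
open Pool.Agent.H17 (PN VanishesAt ZariskiClosedIn HolomorphicInto puncturedDisc)
open Pool.Agent.H17GT (coordFun)
open Pool.Agent.H17LG.Variety (FunField ratio IsLogGeneralType)
open Pool.Agent.H23.Fano (PrimeDivisorOver)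
open Pool.Agent.H5.DG (Homog variety OrbifoldSection)

noncomputable section

namespace Pool.Agent.H5.DG3

variable {N M m s : ℕ}

/-! ### Morphisms -/

/-- The point of `ℙ^M` given by the value at `x` of one of the tuples of forms `F α` which do not
vanish at `x`. -/
def morph (F : Fin s → Fin (M + 1) → MvPolynomial (Fin (N + 1)) ℂ) (x : PN N) : PN M :=
  open Classical in
  if h : ∃ α, (fun a => eval x.rep (F α a)) ≠ 0 then Projectivization.mk ℂ _ h.choose_spec
  else Projectivization.mk ℂ (fun _ => 1) fun h => one_ne_zero (congrFun h 0)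

/-- The tuples of forms `F α` of the same degree define a morphism from the open subset `U` of the
variety given by `I` to `ℙ^M`: at every point of `U` some tuple does not vanish, and the tuples are
proportional on the variety. -/
structure IsMorphism (I : Ideal (MvPolynomial (Fin (N + 1)) ℂ)) (U : Set (PN N))
    (F : Fin s → Fin (M + 1) → MvPolynomial (Fin (N + 1)) ℂ) : Prop where
  hom : ∀ α, ∃ e, ∀ a, (F α a).IsHomogeneous e
  base : ∀ x ∈ U, ∃ α a, ¬ VanishesAt (F α a) x
  compat : ∀ α β a b, F α a * F β b - F α b * F β a ∈ I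

/-- Near the point `x` of the variety given by `I` the form `L` vanishes with multiplicity at least
`q` at all its zeros: for some form `T`, not zero at `x`, the product `T L` is, on the variety, a sum
of products of `q` polynomials which vanish where `L` vanishes. In terms of the local ring at `x`:
`L` lies in the `q`-th power of the radical of `(L)`. If `x` is a smooth point this means that all
components through `x` of the divisor of `L` have multiplicity at least `q`. It is true if `L` does
not vanish at `x`, and if `L` vanishes identically. -/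
def MultAt (q : ℕ) (I : Ideal (MvPolynomial (Fin (N + 1)) ℂ)) (L : MvPolynomial (Fin (N + 1)) ℂ)
    (x : PN N) : Prop :=
  ∃ (T : MvPolynomial (Fin (N + 1)) ℂ) (d : ℕ), T.IsHomogeneous d ∧ ¬ VanishesAt T x ∧
    T * L ∈ (Ideal.radical (Ideal.span {L} ⊔ I)) ^ q ⊔ I

/-- Near `x` the inverse image of the hypersurface `G = 0` under the morphism (which may be empty or
everything) has multiplicity at least `q`. -/
def PullbackMult (q : ℕ) (I : Ideal (MvPolynomial (Fin (N + 1)) ℂ))
    (F : Fin s → Fin (M + 1) → MvPolynomial (Fin (N + 1)) ℂ) (G : MvPolynomial (Fin (M + 1)) ℂ)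
    (x : PN N) : Prop :=
  ∃ α, (∃ a, ¬ VanishesAt (F α a) x) ∧ MultAt q I (aeval (F α) G) x

/-! ### Quasi-projective varieties -/

/-- The centre of the prime divisor `E` on the projective variety given by `P` lies in the closed
set `B`: all forms which vanish on `B` have positive order along `E`. -/
def CentreIn (P : Ideal (MvPolynomial (Fin (N + 1)) ℂ)) [P.IsPrime] (B : Set (PN N)) {w : ℕ}
    (E : PrimeDivisorOver (FunField P) w) : Prop :=
  ∃ j, coordFun P j ≠ 0 ∧ (∀ i, 0 ≤ E.ord (ratio P i j)) ∧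
    ∀ (T : MvPolynomial (Fin (N + 1)) ℂ) (d : ℕ), T.IsHomogeneous d → (∀ x ∈ B, VanishesAt T x) →
      0 < E.ord (aeval (fun i => ratio P i j) T)

/-- The quasi-projective variety `variety P \ B` of dimension `w` (a resolution, if it is singular)
is of log general type. -/
def LogGeneralType (P : Ideal (MvPolynomial (Fin (N + 1)) ℂ)) [P.IsPrime] (B : Set (PN N))
    (w : ℕ) : Prop :=
  IsLogGeneralType (CentreIn P B (w := w))

/-- Holomorphic maps from the punctured disc to `U = variety I \ B` which are not into `Ξ` extend;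
holomorphic maps from `ℂ` to `U` which are not into `Ξ` are constant; the closed subvarieties of `U`
of positive dimension which are not contained in `Ξ` are of log general type. -/
structure Hyperbolic (I : Ideal (MvPolynomial (Fin (N + 1)) ℂ)) (B Ξ : Set (PN N)) : Prop where
  picard : ∀ f : ℂ → PN N, HolomorphicInto f puncturedDisc →
    (∀ z ∈ puncturedDisc, f z ∈ variety I \ B) → (∃ z ∈ puncturedDisc, f z ∉ Ξ) →
    ∃ g : ℂ → PN N, HolomorphicInto g (Metric.ball 0 1) ∧ ∀ z ∈ puncturedDisc, g z = f z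
  brody : ∀ f : ℂ → PN N, HolomorphicInto f Set.univ → (∀ z, f z ∈ variety I \ B) →
    (∃ z, f z ∉ Ξ) → ∀ z w, f z = f w
  strongly : ∀ (Q : Ideal (MvPolynomial (Fin (N + 1)) ℂ)) [Q.IsPrime], Homog Q → I ≤ Q →
    ¬ (variety Q \ B ⊆ Ξ) → ∀ w, 1 ≤ w → (∃ z : Fin w → FunField Q, IsTranscendenceBasis ℂ z) →
    LogGeneralType Q B w

/-- **The four properties** of the Green–Griffiths–Lang conjecture for the quasi-projective variety
`U = variety I \ B` of dimension `w`, with the exceptional set `Ξ`. -/
structure FourProperties (I : Ideal (MvPolynomial (Fin (N + 1)) ℂ)) [I.IsPrime] (B : Set (PN N))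
    (w : ℕ) (Ξ : Set (PN N)) : Prop where
  closed : ZariskiClosedIn (variety I \ B) Ξ
  proper : Ξ ≠ variety I \ B
  logGeneralType : LogGeneralType I B w
  picard : ∀ f : ℂ → PN N, HolomorphicInto f puncturedDisc →
    (∀ z ∈ puncturedDisc, f z ∈ variety I \ B) → (∃ z ∈ puncturedDisc, f z ∉ Ξ) →
    ∃ g : ℂ → PN N, HolomorphicInto g (Metric.ball 0 1) ∧ ∀ z ∈ puncturedDisc, g z = f z
  brody : ∀ f : ℂ → PN N, HolomorphicInto f Set.univ → (∀ z, f z ∈ variety I \ B) →
    (∃ z w, f z ≠ f w) → ∀ z, f z ∈ Ξ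
  strongly : ∀ (Q : Ideal (MvPolynomial (Fin (N + 1)) ℂ)) [Q.IsPrime], Homog Q → I ≤ Q →
    ¬ (variety Q \ B ⊆ Ξ) → ∀ w, 1 ≤ w → (∃ z : Fin w → FunField Q, IsTranscendenceBasis ℂ z) →
    LogGeneralType Q B w

/-! ### The main statement -/

/-- The points of `U = variety I \ B` which lie in `Z` or whose images lie in the hypersurface
`Δ = 0`. -/
def excSet (I : Ideal (MvPolynomial (Fin (N + 1)) ℂ)) (B Z : Set (PN N))
    (F : Fin s → Fin (M + 1) → MvPolynomial (Fin (N + 1)) ℂ) (Δ : MvPolynomial (Fin (M + 1)) ℂ) :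
    Set (PN N) :=
  {x | x ∈ variety I \ B ∧ (x ∈ Z ∨ VanishesAt Δ (morph F x))}

/-- The tuples `F α` define a morphism from `U = variety I \ B` to the variety given by `P`, with
finite fibres outside of the closed set `Z`, such that all the inverse images of the hypersurfaces
`G j = 0` have multiplicities at least `q`. -/
structure RamifiedMorphism (q : ℕ) (P : Ideal (MvPolynomial (Fin (M + 1)) ℂ))
    (G : Fin m → MvPolynomial (Fin (M + 1)) ℂ) (I : Ideal (MvPolynomial (Fin (N + 1)) ℂ))
    (B Z : Set (PN N)) (F : Fin s → Fin (M + 1) → MvPolynomial (Fin (N + 1)) ℂ) : Prop where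
  homog : Homog I
  closedB : ZariskiClosedIn Set.univ B
  closedZ : ZariskiClosedIn Set.univ Z
  morphism : IsMorphism I (variety I \ B) F
  maps : ∀ x ∈ variety I \ B, morph F x ∈ variety P
  finite : ∀ y : PN M, {x | x ∈ variety I \ B ∧ x ∉ Z ∧ morph F x = y}.Finite
  mult : ∀ x ∈ variety I \ B, ∀ j, PullbackMult q I F (G j) x

/-- **The theorem on morphisms** to the variety `Y` given by `P`, for the forms `G j`, the
multiplicity `q` and the exceptional form `Δ`. -/
structure MorphismTheorem (q : ℕ) {M : ℕ} (P : Ideal (MvPolynomial (Fin (M + 1)) ℂ)) [P.IsPrime]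
    (G : Fin m → MvPolynomial (Fin (M + 1)) ℂ) (Δ : MvPolynomial (Fin (M + 1)) ℂ) : Prop where
  orbifold : OrbifoldSection q P G Δ
  morphisms : ∀ (N s : ℕ) (I : Ideal (MvPolynomial (Fin (N + 1)) ℂ)) [I.IsPrime] (B Z : Set (PN N))
    (F : Fin s → Fin (M + 1) → MvPolynomial (Fin (N + 1)) ℂ), RamifiedMorphism q P G I B Z F →
    Hyperbolic I B (excSet I B Z F Δ) ∧
    ∀ w, 1 ≤ w → (∃ z : Fin w → FunField I, IsTranscendenceBasis ℂ z) →
      ((∃ z : Fin w → FunField P, IsTranscendenceBasis ℂ z) → ¬ (variety I \ B ⊆ Z) →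
        ¬ (variety I \ B ⊆ excSet I B Z F Δ)) ∧
      (¬ (variety I \ B ⊆ excSet I B Z F Δ) → FourProperties I B w (excSet I B Z F Δ))

/-- What is used about the hyperplanes `p j`: maps with multiplicities extend, and the theorem over
function fields. -/
structure LinearField (q : ℕ) {m r : ℕ} (p : Fin m → Fin (r + 1) → ℂ)
    (Δ : MvPolynomial (Fin (r + 1)) ℂ) : Prop where
  orb : Pool.Agent.H5.DG.OrbExt q p Δ
  alg : ∀ (K : Type) [Field K] [Algebra ℂ K] [Algebra.EssFiniteType ℂ K] (v : Fin (r + 1) → K)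
    (b₀ : Fin (r + 1)), v b₀ = 1 →
    Algebra.IsAlgebraic (IntermediateField.adjoin ℂ (Set.range v)) K → aeval v Δ ≠ 0 →
    ∀ w, 1 ≤ w → (∃ z : Fin w → K, IsTranscendenceBasis ℂ z) → ∀ Bd : PrimeDivisorOver K w → Prop,
    (∀ E, ¬ Bd E → ∀ b, v b ≠ 0 → (∀ a, 0 ≤ E.ord ((v b)⁻¹ * v a)) → ∀ j,
      E.ord (∑ a, algebraMap ℂ K (p j a) * ((v b)⁻¹ * v a)) = 0 ∨
        (((q : ℕ) : ℤ) : WithTop ℤ) ≤ E.ord (∑ a, algebraMap ℂ K (p j a) * ((v b)⁻¹ * v a))) →
    IsLogGeneralType Bd

end Pool.Agent.H5.DG3
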