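import Pool.Agent.H5.DG3.Points
import Pool.Agent.H5.DG.CovMap
import Pool.Agent.H5.DG.CovMain

/-!
# Project DG3, module Holo: composition of holomorphic maps with a morphism

`φ` a local lift of `f` at `s`, `α` a tuple which does not vanish at `f s`: `ψ z = (F α a (φ z))_a` is
a local lift of `morph F (f z)` (`morph_mk`; the elements of `I` vanish at `φ z` by `eval_of_mem`,
module CovMap; see `coverMap_holomorphic` there).  For `meetsForm_morph` take the tuple `α` and the
form `T` of `PullbackMult` at `f s`: the polynomials `R` such that `R (φ z)` has order at least `j` at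
`s` form an ideal (`CovMap_J` in module CovMap, private: copy what is needed), all elements of
`radical (span {L} ⊔ I)` have order at least `1` if `L (φ s) = 0`, so `T L` has order at least `q` and
`T (φ s) ≠ 0`; model: `meets_of_ramM` (CovMap).
-/

open MvPolynomial Filter Topology
open Pool.Agent.H17 (PN VanishesAt HolomorphicInto)
open Pool.Agent.H5.DG (Homog variety MeetsForm)

noncomputable section

namespace Pool.Agent.H5.DG3

variable {N M s : ℕ} {I : Ideal (MvPolynomial (Fin (N + 1)) ℂ)} {W : Set (PN N)}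
  {F : Fin s → Fin (M + 1) → MvPolynomial (Fin (N + 1)) ℂ}

private lemma Holo_analytic {φ : ℂ → Fin (N + 1) → ℂ} {t : ℂ} (hφ : AnalyticAt ℂ φ t)
    (P : MvPolynomial (Fin (N + 1)) ℂ) : AnalyticAt ℂ (fun z => eval (φ z) P) t := by
  induction P using MvPolynomial.induction_on with
  | C a =>
    simp only [eval_C]
    exact analyticAt_const
  | add p q hp hq =>
    simp only [map_add]
    exact hp.add hq
  | mul_X p i hp =>
    simp only [map_mul, eval_X]
    exact hp.mul (analyticAt_pi_iff.mp hφ i)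

/-- the ideal of the polynomials whose value along `φ` has order at least `n` -/
private def Holo_J {φ : ℂ → Fin (N + 1) → ℂ} {t : ℂ} (hφ : AnalyticAt ℂ φ t) (n : ℕ∞) :
    Ideal (MvPolynomial (Fin (N + 1)) ℂ) where
  carrier := {P | n ≤ analyticOrderAt (fun z => eval (φ z) P) t}
  add_mem' {P Q} hP hQ := by
    change n ≤ _
    simp only [map_add]
    exact (le_min hP hQ).trans le_analyticOrderAt_add
  zero_mem' := by
    change n ≤ _
    have h : analyticOrderAt (fun z => eval (φ z) (0 : MvPolynomial (Fin (N + 1)) ℂ)) t = ⊤ := by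
      rw [analyticOrderAt_eq_top]
      exact Filter.Eventually.of_forall fun z => map_zero _
    rw [h]
    exact le_top
  smul_mem' c P hP := by
    change n ≤ analyticOrderAt (fun z => eval (φ z) (c * P)) t
    simp only [map_mul]
    have h := analyticOrderAt_mul (Holo_analytic hφ c) (Holo_analytic hφ P)
    change n ≤ analyticOrderAt ((fun z => eval (φ z) c) * fun z => eval (φ z) P) t
    rw [h]
    exact le_trans hP le_add_self

private lemma Holo_mem {φ : ℂ → Fin (N + 1) → ℂ} {t : ℂ} (hφ : AnalyticAt ℂ φ t) (n : ℕ∞)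
    (P : MvPolynomial (Fin (N + 1)) ℂ) :
    P ∈ Holo_J hφ n ↔ n ≤ analyticOrderAt (fun z => eval (φ z) P) t := Iff.rfl

private lemma Holo_mul {φ : ℂ → Fin (N + 1) → ℂ} {t : ℂ} (hφ : AnalyticAt ℂ φ t)
    (P Q : MvPolynomial (Fin (N + 1)) ℂ) :
    analyticOrderAt (fun z => eval (φ z) (P * Q)) t =
      analyticOrderAt (fun z => eval (φ z) P) t + analyticOrderAt (fun z => eval (φ z) Q) t := by
  simp only [map_mul]
  exact analyticOrderAt_mul (Holo_analytic hφ P) (Holo_analytic hφ Q)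

private lemma Holo_one {φ : ℂ → Fin (N + 1) → ℂ} {t : ℂ} (hφ : AnalyticAt ℂ φ t)
    (P : MvPolynomial (Fin (N + 1)) ℂ) : P ∈ Holo_J hφ 1 ↔ eval (φ t) P = 0 := by
  rw [Holo_mem, Order.one_le_iff_ne_zero, (Holo_analytic hφ P).analyticOrderAt_ne_zero]

/-- a form vanishes at the point of a vector if and only if its value is zero -/
private lemma Holo_vanishes {v : Fin (N + 1) → ℂ} (hv : v ≠ 0) {P : MvPolynomial (Fin (N + 1)) ℂ}
    {k : ℕ} (hP : P.IsHomogeneous k) (h : ¬ VanishesAt P (Projectivization.mk ℂ v hv)) :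
    eval v P ≠ 0 := by
  intro h0
  apply h
  unfold VanishesAt
  obtain ⟨a, ha, h2⟩ := Pool.Agent.H17.exists_smul_rep v hv
  have h3 : eval (a • v) P = a ^ k * eval v P :=
    Pool.Agent.H17.eval_smul_of_isHomogeneous hP a v
  rw [h2, h3, h0, mul_zero]

/-- the elements of the ideal vanish along the lift -/
private lemma Holo_van (hI : Homog I) (hW : W ⊆ variety I) {f : ℂ → PN N} {U : Set ℂ}
    (hU : IsOpen U) (hfW : ∀ z ∈ U, f z ∈ W) {t : ℂ} (ht : t ∈ U) {φ : ℂ → Fin (N + 1) → ℂ}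
    (he : ∀ᶠ z in 𝓝 t, ∃ h : φ z ≠ 0, f z = Projectivization.mk ℂ (φ z) h) :
    ∀ᶠ z in 𝓝 t, ∀ Q ∈ I, eval (φ z) Q = 0 := by
  filter_upwards [he, hU.mem_nhds ht] with z hz hzU Q hQ
  obtain ⟨h1, h2⟩ := hz
  refine Pool.Agent.H5.DG.eval_of_mem hI h1 ?_ hQ
  intro Q' hQ' k hk
  rw [← h2]
  exact hW (hfW z hzU) Q' hQ' k hk

/-- the local lift of the composition -/
private lemma Holo_lift (hF : IsMorphism I W F) (hI : Homog I) (hW : W ⊆ variety I)
    {f : ℂ → PN N} {U : Set ℂ} (hU : IsOpen U) (hfW : ∀ z ∈ U, f z ∈ W) {t : ℂ} (ht : t ∈ U)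
    {φ : ℂ → Fin (N + 1) → ℂ} (hφ : AnalyticAt ℂ φ t)
    (he : ∀ᶠ z in 𝓝 t, ∃ h : φ z ≠ 0, f z = Projectivization.mk ℂ (φ z) h) {α : Fin s}
    (hα : ∃ a, ¬ VanishesAt (F α a) (f t)) :
    AnalyticAt ℂ (fun z a => eval (φ z) (F α a)) t ∧
      ∀ᶠ z in 𝓝 t, ∃ h : (fun a => eval (φ z) (F α a)) ≠ 0,
        morph F (f z) = Projectivization.mk ℂ (fun a => eval (φ z) (F α a)) h := by
  refine ⟨analyticAt_pi_iff.2 fun a => Holo_analytic hφ (F α a), ?_⟩
  obtain ⟨a, ha⟩ := hα
  obtain ⟨e, hom⟩ := hF.hom α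
  have h0 : eval (φ t) (F α a) ≠ 0 := by
    obtain ⟨h1, h2⟩ := he.self_of_nhds
    rw [h2] at ha
    exact Holo_vanishes h1 (hom a) ha
  have h1 : ∀ᶠ z in 𝓝 t, eval (φ z) (F α a) ≠ 0 :=
    (Holo_analytic hφ (F α a)).continuousAt.eventually_ne h0
  filter_upwards [he, h1, Holo_van hI hW hU hfW ht he] with z hz hza hzv
  obtain ⟨h2, h3⟩ := hz
  have h4 : (fun a => eval (φ z) (F α a)) ≠ 0 := fun h5 => hza (congrFun h5 a)
  refine ⟨h4, ?_⟩
  rw [h3]
  exact morph_mk hF h2 hzv h4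

theorem morph_holomorphic (hF : IsMorphism I W F) (hI : Homog I) (hW : W ⊆ variety I)
    {f : ℂ → PN N} {U : Set ℂ} (hU : IsOpen U) (hf : HolomorphicInto f U)
    (hfW : ∀ z ∈ U, f z ∈ W) : HolomorphicInto (fun z => morph F (f z)) U := by
  intro t ht
  obtain ⟨φ, hφ, he⟩ := hf t ht
  obtain ⟨α, hα⟩ := hF.base (f t) (hfW t ht)
  obtain ⟨h1, h2⟩ := Holo_lift hF hI hW hU hfW ht hφ he hα
  exact ⟨_, h1, h2⟩

theorem meetsForm_morph (hF : IsMorphism I W F) (hI : Homog I) (hW : W ⊆ variety I)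
    {f : ℂ → PN N} {U : Set ℂ} (hU : IsOpen U) (hf : HolomorphicInto f U)
    (hfW : ∀ z ∈ U, f z ∈ W) {q : ℕ} {G : MvPolynomial (Fin (M + 1)) ℂ} {k : ℕ}
    (hG : G.IsHomogeneous k) (hm : ∀ z ∈ U, PullbackMult q I F G (f z)) :
    MeetsForm q G (fun z => morph F (f z)) U := by
  intro t ht
  obtain ⟨φ, hφ, he⟩ := hf t ht
  obtain ⟨α, hα, T, d, hT, hTx, hmem⟩ := hm t ht
  obtain ⟨h1, h2⟩ := Holo_lift hF hI hW hU hfW ht hφ he hα
  refine ⟨_, h1, h2, ?_⟩
  have hvan := Holo_van hI hW hU hfW ht he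
  have hev : ∀ z, eval (fun a => eval (φ z) (F α a)) G = eval (φ z) (aeval (F α) G) := fun z =>
    (Pool.Agent.H5.DG.eval_aeval (F α) (φ z) G).symm
  intro h0
  have h0' : eval (φ t) (aeval (F α) G) = 0 := by
    rw [← hev]
    exact h0
  have hgoal : (fun z => eval (fun a => eval (φ z) (F α a)) G) =
      fun z => eval (φ z) (aeval (F α) G) := funext hev
  change ((q : ℕ) : ℕ∞) ≤ analyticOrderAt (fun z => eval (fun a => eval (φ z) (F α a)) G) t
  rw [hgoal]
  have hT0 : eval (φ t) T ≠ 0 := by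
    obtain ⟨h3, h4⟩ := he.self_of_nhds
    rw [h4] at hTx
    exact Holo_vanishes h3 hT hTx
  have hIJ : ∀ n : ℕ∞, I ≤ Holo_J hφ n := by
    intro n Q hQ
    rw [Holo_mem]
    have : analyticOrderAt (fun z => eval (φ z) Q) t = ⊤ := by
      rw [analyticOrderAt_eq_top]
      filter_upwards [hvan] with z hz
      exact hz Q hQ
    rw [this]
    exact le_top
  have hrad : Ideal.radical (Ideal.span {aeval (F α) G} ⊔ I) ≤ Holo_J hφ 1 := by
    intro B hB
    obtain ⟨n, hn⟩ := hB
    have h3 : Ideal.span {aeval (F α) G} ⊔ I ≤ Holo_J hφ 1 := by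
      refine sup_le ?_ (hIJ 1)
      rw [Ideal.span_singleton_le_iff_mem, Holo_one]
      exact h0'
    have h4 := h3 hn
    rw [Holo_one, map_pow] at h4
    rw [Holo_one]
    exact eq_zero_of_pow_eq_zero h4
  have hsq : ∀ p : ℕ, (Ideal.radical (Ideal.span {aeval (F α) G} ⊔ I)) ^ p ≤ Holo_J hφ p := by
    intro p
    induction p with
    | zero =>
      intro A _
      rw [Holo_mem, Nat.cast_zero]
      exact zero_le
    | succ p ih =>
      rw [pow_succ, Ideal.mul_le]
      intro A hA B hB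
      rw [Holo_mem, Holo_mul hφ]
      have h3 := (Holo_mem hφ p A).1 (ih hA)
      have h4 := (Holo_mem hφ 1 B).1 (hrad hB)
      rw [Nat.cast_succ]
      exact add_le_add h3 h4
  have h5 := (sup_le (hsq q) (hIJ q)) hmem
  rw [Holo_mem, Holo_mul hφ] at h5
  have h6 : analyticOrderAt (fun z => eval (φ z) T) t = 0 := by
    rw [(Holo_analytic hφ _).analyticOrderAt_eq_zero]
    exact hT0
  rw [h6, zero_add] at h5
  exact h5

end Pool.Agent.H5.DG3
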