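import Pool.Agent.H5.DG3.MorphAlg
import Pool.Agent.H5.DG3.Curve
import Pool.Agent.H5.DG3.AlgMero
import Pool.Agent.H5.DG3.Holo
import Pool.Agent.H62.FC.CurveIdeal

/-!
# Project DG3, module ExtMorph: a map extends if its composition with the morphism extends

`Q` = the ideal of the curve (`exists_curveIdeal`), `I ≤ Q`, `variety Q \ B` contains the points
`f z`, one of which is not in `Z`.  `coordFun Q j₀ ≠ 0` for some `j₀` (`X j₀ ∉ Q`:
`aeval_coordFun_eq_zero_iff`), `F α a₀ ∉ Q` for some `α`, `a₀` (`base` at a point `f z`).  The function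
field of `variety Q` has a finite transcendence basis (`Algebra.EssFiniteType`, or a subset of the
finitely many generators `ratio Q i j₀`).  By `morph_algebraic` each `ξ i = ratio Q i j₀` satisfies
`∑_{j ≤ s} C_j (u) * ξ i ^ j = 0` with polynomials `C_j` in the `u a = F α a / F α a₀` and
`C_s (u) ≠ 0` (clear denominators).  Multiply by a power of `F α a₀ (ξ)`: a polynomial relation in the
`ξ`; `curve_eval` gives the relation near all points of the punctured disc for
`h = (f z).rep i / (f z).rep j₀` and `c_j = C_j (u (z))`, `u a (z) = F α a (rep) / F α a₀ (rep)`, which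
are meromorphic at `0` since `morph F (f z)` extends (see `hquot` in `extends_of_coverMap`, module
CovMain).  `punctMero_of_algebraic`; then `Pool.Agent.H62.FC.exists_extension` as at the end of
`extends_of_coverMap`.
-/

open MvPolynomial Filter Topology
open Pool.Agent.H17 (PN VanishesAt ZariskiClosedIn HolomorphicInto puncturedDisc)
open Pool.Agent.H17GT (coordFun)
open Pool.Agent.H17LG.Variety (FunField ratio)
open Pool.Agent.H5.DG (Homog variety valAt)
open Pool.Agent.H62.FC (PunctMero)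

noncomputable section

namespace Pool.Agent.H5.DG3

private theorem ExtMorph_add {f g : ℂ → ℂ} (hf : PunctMero f) (hg : PunctMero g) :
    PunctMero (fun z => f z + g z) := by
  obtain ⟨v, hv, hfv⟩ := hf
  obtain ⟨w, hw, hgw⟩ := hg
  refine ⟨fun z => v z + w z, hv.add hw, ?_⟩
  filter_upwards [hfv, hgw] with z h1 h2
  filter_upwards [h1, h2] with ζ h3 h4
  rw [h3, h4]

private theorem ExtMorph_poly {r : ℕ} {u : Fin r → ℂ → ℂ} (hu : ∀ a, PunctMero (u a))
    (G : MvPolynomial (Fin r) ℂ) : PunctMero (fun z => eval (fun a => u a z) G) := by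
  induction G using MvPolynomial.induction_on with
  | C a =>
    simp only [eval_C]
    exact PunctMero.const a
  | add p q hp hq =>
    simp only [map_add]
    exact ExtMorph_add hp hq
  | mul_X p i hp =>
    simp only [map_mul, eval_X]
    exact hp.mul (hu i)

/-- Clearing the denominators of a polynomial in the quotients `A a / A a₀`. -/
private theorem ExtMorph_clear {N M : ℕ} (A : Fin (M + 1) → MvPolynomial (Fin (N + 1)) ℂ)
    (a₀ : Fin (M + 1)) (G : MvPolynomial (Fin (M + 1)) ℂ) :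
    ∃ D₀ : ℕ, ∀ D ≥ D₀, ∃ R : MvPolynomial (Fin (N + 1)) ℂ,
      ∀ (K : Type) [Field K] [Algebra ℂ K] (y : Fin (N + 1) → K), aeval y (A a₀) ≠ 0 →
        aeval y R = (aeval y (A a₀)) ^ D *
          aeval (fun a => aeval y (A a) / aeval y (A a₀)) G := by
  induction G using MvPolynomial.induction_on with
  | C c =>
    refine ⟨0, fun D _ => ⟨(A a₀) ^ D * C c, ?_⟩⟩
    intro K _ _ y _
    rw [map_mul, map_pow, aeval_C, aeval_C]
  | add p q hp hq =>
    obtain ⟨D₁, h1⟩ := hp
    obtain ⟨D₂, h2⟩ := hq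
    refine ⟨max D₁ D₂, fun D hD => ?_⟩
    obtain ⟨R₁, h3⟩ := h1 D ((le_max_left _ _).trans hD)
    obtain ⟨R₂, h4⟩ := h2 D ((le_max_right _ _).trans hD)
    refine ⟨R₁ + R₂, ?_⟩
    intro K _ _ y hy
    rw [map_add, map_add, h3 K y hy, h4 K y hy, mul_add]
  | mul_X p i hp =>
    obtain ⟨D₁, h1⟩ := hp
    refine ⟨D₁ + 1, fun D hD => ?_⟩
    obtain ⟨D', rfl⟩ : ∃ D', D = D' + 1 := ⟨D - 1, by omega⟩
    obtain ⟨R₁, h3⟩ := h1 D' (by omega)
    refine ⟨R₁ * A i, ?_⟩
    intro K _ _ y hy
    rw [map_mul, map_mul, h3 K y hy, aeval_X, pow_succ]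
    field_simp

open scoped IntermediateField.algebraAdjoinAdjoin in
/-- An algebraic equation without denominators. -/
private theorem ExtMorph_eqn {K : Type} [Field K] [Algebra ℂ K] {m : ℕ} {u : Fin m → K}
    (halg : Algebra.IsAlgebraic (IntermediateField.adjoin ℂ (Set.range u)) K) (x : K) :
    ∃ (s : ℕ) (G : ℕ → MvPolynomial (Fin m) ℂ), aeval u (G s) ≠ 0 ∧
      ∑ j ∈ Finset.range (s + 1), aeval u (G j) * x ^ j = 0 := by
  have h1 : Algebra.IsAlgebraic (Algebra.adjoin ℂ (Set.range u)) K :=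
    (IsFractionRing.comap_isAlgebraic_iff (A := Algebra.adjoin ℂ (Set.range u))
      (K := IntermediateField.adjoin ℂ (Set.range u)) (C := K)).mpr halg
  obtain ⟨p, hp0, hp⟩ := h1.isAlgebraic x
  have h2 : ∀ c : Algebra.adjoin ℂ (Set.range u), ∃ g : MvPolynomial (Fin m) ℂ,
      aeval u g = (c : K) := by
    intro c
    obtain ⟨g, hg⟩ := (SetLike.ext_iff.1 (Algebra.adjoin_range_eq_range_aeval ℂ u) (c : K)).1 c.2
    exact ⟨g, hg⟩
  choose g hg using h2
  refine ⟨p.natDegree, fun j => g (p.coeff j), ?_, ?_⟩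
  · rw [hg]
    intro h0
    apply hp0
    rw [← Polynomial.leadingCoeff_eq_zero]
    exact Subtype.ext h0
  · rw [Polynomial.aeval_eq_sum_range] at hp
    rw [← hp]
    refine Finset.sum_congr rfl fun j _ => ?_
    rw [hg, Algebra.smul_def]
    rfl

private theorem ExtMorph_eval_aeval {r : ℕ} (y : Fin r → ℂ) (P : MvPolynomial (Fin r) ℂ) :
    aeval y P = eval y P := by
  rw [aeval_def, eval, eval₂Hom]
  rfl

private theorem ExtMorph_scale {r k : ℕ} {P : MvPolynomial (Fin r) ℂ} (hP : P.IsHomogeneous k)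
    (c : ℂ) (x : Fin r → ℂ) : eval (fun a => c * x a) P = c ^ k * eval x P := by
  rw [eval_eq, eval_eq, Finset.mul_sum]
  refine Finset.sum_congr rfl fun d hd => ?_
  have h1 : ∑ i, d i = k := by
    have h2 := hP (mem_support_iff.1 hd)
    rw [Finsupp.weight_apply, Finsupp.sum_fintype _ _ (by simp)] at h2
    rw [← h2]
    simp
  have h3 : ∀ y : Fin r → ℂ, ∏ i ∈ d.support, y i ^ d i = ∏ i, y i ^ d i := by
    intro y
    refine Finset.prod_subset (Finset.subset_univ _) fun i _ hi => ?_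
    rw [Finsupp.notMem_support_iff.1 hi, pow_zero]
  rw [h3, h3]
  simp only [mul_pow]
  rw [Finset.prod_mul_distrib, Finset.prod_pow_eq_pow_sum, h1]
  ring

theorem extends_of_morph {N M s : ℕ} {I : Ideal (MvPolynomial (Fin (N + 1)) ℂ)} (hI : Homog I)
    {B Z : Set (PN N)} (hB : ZariskiClosedIn Set.univ B) (hZ : ZariskiClosedIn Set.univ Z)
    {F : Fin s → Fin (M + 1) → MvPolynomial (Fin (N + 1)) ℂ}
    (hF : IsMorphism I (variety I \ B) F)
    (hfin : ∀ y : PN M, {x | x ∈ variety I \ B ∧ x ∉ Z ∧ morph F x = y}.Finite)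
    {f : ℂ → PN N} (hf : HolomorphicInto f puncturedDisc)
    (hfU : ∀ z ∈ puncturedDisc, f z ∈ variety I \ B) (hfZ : ∃ z ∈ puncturedDisc, f z ∉ Z)
    (hext : ∃ g' : ℂ → PN M, HolomorphicInto g' (Metric.ball 0 1) ∧
      ∀ z ∈ puncturedDisc, g' z = morph F (f z)) :
    ∃ g : ℂ → PN N, HolomorphicInto g (Metric.ball 0 1) ∧ ∀ z ∈ puncturedDisc, g z = f z := by
  classical
  obtain ⟨g', hg', hgf'⟩ := hext
  have hhalf : (1 / 2 : ℂ) ∈ puncturedDisc := by
    refine Pool.Agent.H5.DG.mem_puncturedDisc.mpr ⟨?_, ?_⟩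
    · norm_num
    · norm_num
  obtain ⟨Q, hQp, hQh, hQf⟩ := exists_curveIdeal hf
  have hIQ : I ≤ Q := by
    intro T hT
    rw [← sum_homogeneousComponent T]
    refine Ideal.sum_mem _ fun k _ => ?_
    refine (hQf _ k (homogeneousComponent_isHomogeneous k T)).2 fun z hz => ?_
    exact (hfU z hz).1 _ (hI T hT k) k (homogeneousComponent_isHomogeneous k T)
  have hfQ : ∀ z ∈ puncturedDisc, f z ∈ variety Q := fun z hz T hT k hk => (hQf T k hk).1 hT z hz
  have hQZ : ¬ (variety Q \ B ⊆ Z) := by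
    intro h
    obtain ⟨z, hz, hz'⟩ := hfZ
    exact hz' (h ⟨hfQ z hz, (hfU z hz).2⟩)
  -- a coordinate which does not vanish identically
  obtain ⟨j₀, hj₀⟩ : ∃ i, (f (1 / 2)).rep i ≠ 0 := by
    by_contra hcon
    push Not at hcon
    exact (f (1 / 2)).rep_nonzero (funext hcon)
  have hXj : (X j₀ : MvPolynomial (Fin (N + 1)) ℂ) ∉ Q := by
    intro h
    have h1 := (hQf _ 1 (isHomogeneous_X ℂ j₀)).1 h _ hhalf
    apply hj₀
    unfold Pool.Agent.H17.VanishesAt at h1
    rwa [eval_X] at h1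
  have hcoord : coordFun Q j₀ ≠ 0 := by
    intro h0
    apply hXj
    rw [← Pool.Agent.H92.GT.Proj.aeval_coordFun_eq_zero_iff Q (X j₀), aeval_X]
    exact h0
  obtain ⟨w, hz⟩ := Pool.Agent.H62.FC.exists_fin_basis (P := Q) ⟨j₀, hXj⟩
  -- a tuple which does not vanish identically
  obtain ⟨α, a₀, hα⟩ := hF.base _ (hfU _ hhalf)
  obtain ⟨e, he⟩ := hF.hom α
  have ha₀ : F α a₀ ∉ Q := fun h => hα ((hQf _ e (he a₀)).1 h _ hhalf)
  have halg := morph_algebraic hI hB hZ hF hfin Q hQh hIQ hQZ hz hcoord ha₀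
  have hval : aeval (fun i => ratio Q i j₀) (F α a₀) ≠ 0 := fun h =>
    ha₀ ((Pool.Agent.H5.DG.eval_ratio_zero_iff Q hcoord (he a₀)).1 h)
  have hrep : ∀ z ∈ puncturedDisc, ∀ T ∈ I, eval (f z).rep T = 0 := fun z hz T hT =>
    Pool.Agent.H5.DG.eval_of_mem hI (f z).rep_nonzero (by rw [(f z).mk_rep]; exact (hfU z hz).1) hT
  -- near all points the form does not vanish
  have hden : ∀ s ∈ puncturedDisc, ∀ᶠ z in 𝓝[≠] s, (f z).rep j₀ ≠ 0 ∧
      eval (f z).rep (F α a₀) ≠ 0 ∧ z ∈ puncturedDisc := by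
    intro s hs
    have h1 : ∀ᶠ z in 𝓝[≠] s, (f z).rep j₀ ≠ 0 := by
      rcases Pool.Agent.H5.DG.vanish_dich hf (isHomogeneous_X ℂ j₀) with h | h
      · exact absurd ((hQf _ 1 (isHomogeneous_X ℂ j₀)).2 fun z hz => (h z hz).self_of_nhds) hXj
      · filter_upwards [h s hs] with z hz h0
        apply hz
        unfold Pool.Agent.H17.VanishesAt
        rwa [eval_X]
    have h2 : ∀ᶠ z in 𝓝[≠] s, eval (f z).rep (F α a₀) ≠ 0 := by
      rcases Pool.Agent.H5.DG.vanish_dich hf (he a₀) with h | h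
      · exact absurd ((hQf _ e (he a₀)).2 fun z hz => (h z hz).self_of_nhds) ha₀
      · exact h s hs
    filter_upwards [h1, h2, Pool.Agent.H5.DG.eventually_mem_puncturedDisc hs] with z h3 h4 h5
    exact ⟨h3, h4, h5⟩
  -- the quotients of the forms
  have hquot : ∀ a, PunctMero (fun z => eval (f z).rep (F α a) / eval (f z).rep (F α a₀)) := by
    intro a
    obtain ⟨ψ, hψ, hψe⟩ := hg' 0 (Metric.mem_ball_self one_pos)
    refine ⟨fun z => ψ z a / ψ z a₀, ?_, ?_⟩
    · exact ((analyticAt_pi_iff.mp hψ a).meromorphicAt).fun_div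
        (analyticAt_pi_iff.mp hψ a₀).meromorphicAt
    · have h2 := eventually_eventually_nhds.2 hψe
      filter_upwards [h2.filter_mono nhdsWithin_le_nhds,
        Pool.Agent.H5.DG.eventually_puncturedDisc_zero] with z hz hzD
      filter_upwards [hz.filter_mono nhdsWithin_le_nhds, hden z hzD] with ζ h3 h4
      obtain ⟨h5, h6⟩ := h3
      obtain ⟨h7, h8, h9⟩ := h4
      have h10 : (fun a => eval (f ζ).rep (F α a)) ≠ 0 := fun h => h8 (congrFun h a₀)
      have h11 := morph_mk hF (f ζ).rep_nonzero (hrep ζ h9) h10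
      rw [(f ζ).mk_rep] at h11
      rw [hgf' ζ h9, h11, Projectivization.mk_eq_mk_iff'] at h6
      obtain ⟨x, hx⟩ := h6
      have hx0 : x ≠ 0 := by
        rintro rfl
        apply h10
        rw [← hx, zero_smul]
      have h12 : ∀ b, eval (f ζ).rep (F α b) = x * ψ ζ b := fun b => (congrFun hx b).symm
      rw [h12, h12, mul_div_mul_left _ _ hx0]
  refine Pool.Agent.H62.FC.exists_extension hf (i₀ := j₀) ?_ ?_
  · filter_upwards [Pool.Agent.H5.DG.eventually_puncturedDisc_zero] with z hz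
    filter_upwards [hden z hz] with ζ h
    exact h.1
  · intro i
    obtain ⟨t, G, hGt, hG⟩ := ExtMorph_eqn halg (ratio Q i j₀)
    have hclr := fun j => ExtMorph_clear (F α) a₀ (G j)
    choose D₀ hD₀ using hclr
    have hD : ∀ j ∈ Finset.range (t + 1), D₀ j ≤ (Finset.range (t + 1)).sup D₀ := fun j hj =>
      Finset.le_sup hj
    have hex : ∀ j, ∃ R : MvPolynomial (Fin (N + 1)) ℂ, j ∈ Finset.range (t + 1) →
        ∀ (K : Type) [Field K] [Algebra ℂ K] (y : Fin (N + 1) → K), aeval y (F α a₀) ≠ 0 →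
        aeval y R = (aeval y (F α a₀)) ^ ((Finset.range (t + 1)).sup D₀) *
          aeval (fun a => aeval y (F α a) / aeval y (F α a₀)) (G j) := by
      intro j
      by_cases hj : j ∈ Finset.range (t + 1)
      · obtain ⟨R, hR⟩ := hD₀ j _ (hD j hj)
        exact ⟨R, fun _ => hR⟩
      · exact ⟨0, fun h => absurd h hj⟩
    choose R hR using hex
    -- the relation
    have hrel : aeval (fun i => ratio Q i j₀)
        (∑ j ∈ Finset.range (t + 1), R j * (X i) ^ j) = 0 := by
      rw [map_sum]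
      have h1 : ∀ j ∈ Finset.range (t + 1), aeval (fun i => ratio Q i j₀) (R j * (X i) ^ j) =
          (aeval (fun i => ratio Q i j₀) (F α a₀)) ^ ((Finset.range (t + 1)).sup D₀) *
          (aeval (fun a => valAt Q j₀ (F α) a / valAt Q j₀ (F α) a₀) (G j) *
            ratio Q i j₀ ^ j) := by
        intro j hj
        rw [map_mul, map_pow, aeval_X, hR j hj (FunField Q) _ hval, mul_assoc]
        rfl
      refine (Finset.sum_congr rfl h1).trans ?_
      refine (Finset.mul_sum _ _ _).symm.trans ?_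
      exact (congrArg _ hG).trans (mul_zero _)
    have hlead : aeval (fun i => ratio Q i j₀) (R t) ≠ 0 := by
      rw [hR t (Finset.self_mem_range_succ t) (FunField Q) _ hval]
      exact mul_ne_zero (pow_ne_zero _ hval) hGt
    have hev1 := (curve_eval hf Q hQh hQf hcoord _).1 hrel
    have hev2 := (curve_eval hf Q hQh hQf hcoord _).2 hlead
    -- the values
    have hFh : ∀ z a, eval (fun i => (f z).rep i / (f z).rep j₀) (F α a) =
        ((f z).rep j₀)⁻¹ ^ e * eval (f z).rep (F α a) := by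
      intro z a
      rw [← ExtMorph_scale (he a)]
      congr 2
      funext i
      rw [div_eq_inv_mul]
    have hRz : ∀ z, (f z).rep j₀ ≠ 0 → eval (f z).rep (F α a₀) ≠ 0 →
        ∀ j ∈ Finset.range (t + 1), eval (fun i => (f z).rep i / (f z).rep j₀) (R j) =
          (eval (fun i => (f z).rep i / (f z).rep j₀) (F α a₀)) ^
            ((Finset.range (t + 1)).sup D₀) *
          eval (fun a => eval (f z).rep (F α a) / eval (f z).rep (F α a₀)) (G j) := by
      intro z h1 h2 j hj
      have h3 : eval (fun i => (f z).rep i / (f z).rep j₀) (F α a₀) ≠ 0 := by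
        rw [hFh]
        exact mul_ne_zero (pow_ne_zero _ (inv_ne_zero h1)) h2
      have h4 := hR j hj ℂ (fun i => (f z).rep i / (f z).rep j₀)
        (by rw [ExtMorph_eval_aeval]; exact h3)
      simp only [ExtMorph_eval_aeval] at h4
      rw [h4]
      have h5 : (fun a => eval (fun i => (f z).rep i / (f z).rep j₀) (F α a) /
          eval (fun i => (f z).rep i / (f z).rep j₀) (F α a₀)) =
          fun a => eval (f z).rep (F α a) / eval (f z).rep (F α a₀) := by
        funext a
        rw [hFh, hFh, mul_div_mul_left _ _ (pow_ne_zero _ (inv_ne_zero h1))]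
      rw [h5]
    refine punctMero_of_algebraic (s := t)
      (c := fun j z => eval (fun a => eval (f z).rep (F α a) / eval (f z).rep (F α a₀)) (G j))
      (fun z hz => Pool.Agent.H5.DG.quot_mero hf i j₀ hz)
      (fun j _ => ExtMorph_poly
        (u := fun a z => eval (f z).rep (F α a) / eval (f z).rep (F α a₀)) hquot (G j)) ?_ ?_
    · intro z hz
      filter_upwards [hden z hz, hev2 z hz] with ζ h1 h2
      obtain ⟨h3, h4, -⟩ := h1
      rw [hRz ζ h3 h4 t (Finset.self_mem_range_succ t)] at h2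
      exact right_ne_zero_of_mul h2
    · intro z hz
      filter_upwards [hden z hz, hev1 z hz] with ζ h1 h2
      obtain ⟨h3, h4, -⟩ := h1
      rw [map_sum] at h2
      have h5 : ∀ j ∈ Finset.range (t + 1),
          eval (fun i => (f ζ).rep i / (f ζ).rep j₀) (R j * (X i) ^ j) =
          (eval (fun i => (f ζ).rep i / (f ζ).rep j₀) (F α a₀)) ^
            ((Finset.range (t + 1)).sup D₀) *
          (eval (fun a => eval (f ζ).rep (F α a) / eval (f ζ).rep (F α a₀)) (G j) *
            ((f ζ).rep i / (f ζ).rep j₀) ^ j) := by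
        intro j hj
        rw [map_mul, map_pow, eval_X, hRz ζ h3 h4 j hj, mul_assoc]
      rw [Finset.sum_congr rfl h5, ← Finset.mul_sum] at h2
      refine (mul_eq_zero.1 h2).resolve_left (pow_ne_zero _ ?_)
      rw [hFh]
      exact mul_ne_zero (pow_ne_zero _ (inv_ne_zero h3)) h4

end Pool.Agent.H5.DG3
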