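import Mathlib

/-!
# Project DG3, module Spec: specialisation of algebraic functions

Let `z` be algebraically independent and let the `x i` be algebraic over `ℂ(z)`.  There is a
polynomial `f ≠ 0` such that every point `c` with `f (c) ≠ 0` extends to a point `(c, y)` at which all
polynomial relations of `(z, x)` hold.

Proof.  `R₀ = Algebra.adjoin ℂ (range z)` (isomorphic to the polynomial ring).  For all `i` there is
`f i ≠ 0` in the polynomial ring such that `f i (z) * x i` is integral over `R₀`
(`exists_integral_multiple`, `x i` is algebraic over `R₀`: `IsFractionRing` / `IntermediateField.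
algebraAdjoinAdjoin`, see `exists_index` in `Pool.Agent.H92.GT.Index`).  `f = ∏ f i`.  Given `c` with
`f (c) ≠ 0`: let `R₁ = Algebra.adjoin ℂ (range z ∪ {(f (z))⁻¹})`, `S = Algebra.adjoin R₁ (range x)`,
integral over `R₁`.  The evaluation at `c` is a ring homomorphism `R₁ → ℂ` (`R₁` is the localisation
of the polynomial ring; or use the maximal ideal of the elements `g (z) / f (z) ^ k` with `g (c) = 0`);
its kernel is a maximal ideal, which is the contraction of a maximal ideal `𝔫` of `S`
(`Ideal.exists_ideal_over_maximal_of_isIntegral`), and `S ⧸ 𝔫` is integral over `ℂ`, so it is `ℂ`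
(`IsAlgClosed.algebraMap_bijective_of_isIntegral`).  `y i` = the class of `x i`.
Alternative: multiply by powers of `f` and work with polynomial relations.
-/

open MvPolynomial

noncomputable section

namespace Pool.Agent.H5.DG3

open scoped IntermediateField.algebraAdjoinAdjoin in
/-- a multiple of an algebraic element is integral over the polynomials in `z` -/
private theorem Spec_int {K : Type} [Field K] [Algebra ℂ K] {ι : Type}
    {z : ι → K} (hz : AlgebraicIndependent ℂ z) (x : K)
    (halg : IsAlgebraic (IntermediateField.adjoin ℂ (Set.range z)) x) :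
    ∃ f : MvPolynomial ι ℂ, f ≠ 0 ∧
      (aeval z : MvPolynomial ι ℂ →ₐ[ℂ] K).toRingHom.IsIntegralElem (aeval z f * x) := by
  have h1 : IsAlgebraic (Algebra.adjoin ℂ (Set.range z)) x :=
    (IsFractionRing.isAlgebraic_iff (Algebra.adjoin ℂ (Set.range z))
      (IntermediateField.adjoin ℂ (Set.range z)) K).mpr halg
  let _ : Algebra (MvPolynomial ι ℂ) K :=
    (aeval z : MvPolynomial ι ℂ →ₐ[ℂ] K).toRingHom.toAlgebra
  have h2 : IsAlgebraic (MvPolynomial ι ℂ) x := by
    refine IsAlgebraic.of_ringHom_of_comp_eq hz.aevalEquiv (RingHom.id K) h1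
      hz.aevalEquiv.surjective Function.injective_id ?_
    refine RingHom.ext fun f => ?_
    change ((hz.aevalEquiv f : Algebra.adjoin ℂ (Set.range z)) : K) = aeval z f
    rw [hz.aevalEquiv_apply_coe]
  obtain ⟨f, hf0, hf⟩ := h2.exists_integral_multiple
  exact ⟨f, hf0, hf⟩

/-- the extension of an evaluation to the integral closure -/
private theorem Spec_ext {A K : Type} [CommRing A] [Field K] (φ : A →+* K)
    (hinj : Function.Injective φ) (ev : A →+* ℂ) (hev : Function.Surjective ev) (j : ℂ →+* A)
    (hj : ev.comp j = RingHom.id ℂ) :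
    ∃ (B : Type) (_ : CommRing B) (_ : IsDomain B) (a : A →+* B) (b : B →+* K) (ψ : B →+* ℂ),
      Function.Injective b ∧ b.comp a = φ ∧ ψ.comp a = ev ∧
      ∀ w : K, φ.IsIntegralElem w → ∃ w' : B, b w' = w := by
  let _ : Algebra A K := φ.toAlgebra
  have hmax : (RingHom.ker ev).IsMaximal := RingHom.ker_isMaximal_of_surjective ev hev
  have hker : RingHom.ker (algebraMap A (integralClosure A K)) ≤ RingHom.ker ev := by
    intro x hx
    rw [RingHom.mem_ker] at hx
    have h1 : φ x = 0 := congrArg (Subtype.val) hx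
    rw [hinj (h1.trans (map_zero φ).symm), RingHom.mem_ker, map_zero]
  obtain ⟨Q, hQ, hQ2⟩ := Ideal.exists_ideal_over_maximal_of_isIntegral
    (S := integralClosure A K) (RingHom.ker ev) hker
  have hQA : ∀ x : A, algebraMap A (integralClosure A K) x ∈ Q ↔ ev x = 0 := by
    intro x
    rw [← RingHom.mem_ker, ← hQ2, Ideal.mem_comap]
  let q : integralClosure A K →+* integralClosure A K ⧸ Q := Ideal.Quotient.mk Q
  let _ : Algebra ℂ (integralClosure A K ⧸ Q) :=
    ((q.comp (algebraMap A (integralClosure A K))).comp j).toAlgebra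
  have hcomp : (algebraMap ℂ (integralClosure A K ⧸ Q)).comp ev =
      q.comp (algebraMap A (integralClosure A K)) := by
    refine RingHom.ext fun x => ?_
    change q (algebraMap A (integralClosure A K) (j (ev x))) =
      q (algebraMap A (integralClosure A K) x)
    rw [← sub_eq_zero, ← map_sub, ← map_sub]
    refine Ideal.Quotient.eq_zero_iff_mem.2 ((hQA _).2 ?_)
    rw [map_sub, sub_eq_zero]
    exact RingHom.congr_fun hj (ev x)
  have hint : Algebra.IsIntegral ℂ (integralClosure A K ⧸ Q) := by
    refine ⟨fun y => ?_⟩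
    obtain ⟨y, rfl⟩ := Ideal.Quotient.mk_surjective y
    have hy : IsIntegral A y := Algebra.IsIntegral.isIntegral y
    obtain ⟨P, hP, hP2⟩ := hy
    refine ⟨P.map ev, hP.map ev, ?_⟩
    rw [Polynomial.eval₂_map, hcomp]
    change Polynomial.eval₂ (q.comp (algebraMap A (integralClosure A K))) (q y) P = 0
    rw [← Polynomial.hom_eval₂, hP2, map_zero]
  have hbij : Function.Bijective (algebraMap ℂ (integralClosure A K ⧸ Q)) :=
    IsAlgClosed.algebraMap_bijective_of_isIntegral
  refine ⟨integralClosure A K, inferInstance, inferInstance,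
    algebraMap A (integralClosure A K), (integralClosure A K).val.toRingHom,
    ((RingEquiv.ofBijective _ hbij).symm : _ →+* ℂ).comp q, Subtype.val_injective, rfl, ?_, ?_⟩
  · rw [RingHom.comp_assoc, ← hcomp]
    refine RingHom.ext fun x => ?_
    exact (RingEquiv.ofBijective _ hbij).symm_apply_apply (ev x)
  · intro w hw
    exact ⟨⟨w, hw⟩, rfl⟩

theorem exists_spec {K : Type} [Field K] [Algebra ℂ K] {ι κ : Type} [Finite ι] [Finite κ]
    {z : ι → K} (hz : AlgebraicIndependent ℂ z) (x : κ → K)
    (halg : ∀ i, IsAlgebraic (IntermediateField.adjoin ℂ (Set.range z)) (x i)) :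
    ∃ f : MvPolynomial ι ℂ, f ≠ 0 ∧ ∀ c : ι → ℂ, eval c f ≠ 0 → ∃ y : κ → ℂ,
      ∀ R : MvPolynomial (ι ⊕ κ) ℂ, aeval (Sum.elim z x) R = 0 → eval (Sum.elim c y) R = 0 := by
  classical
  choose f hf0 hf using fun i => Spec_int hz (x i) (halg i)
  have := Fintype.ofFinite κ
  refine ⟨∏ i, f i, Finset.prod_ne_zero_iff.2 fun i _ => hf0 i, fun c hc => ?_⟩
  have hc' : ∀ i, eval c (f i) ≠ 0 := by
    rw [map_prod, Finset.prod_ne_zero_iff] at hc
    exact fun i => hc i (Finset.mem_univ i)
  obtain ⟨B, _, _, a, b, ψ, hb, hab, hψ, hw⟩ := Spec_ext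
    (aeval z : MvPolynomial ι ℂ →ₐ[ℂ] K).toRingHom hz (eval c)
    (fun t => ⟨C t, eval_C t⟩) C (RingHom.ext fun t => eval_C t)
  choose w hw' using fun i => hw _ (hf i)
  have hker : (RingHom.ker ψ).IsPrime := RingHom.ker_isPrime ψ
  obtain ⟨S, hS⟩ : ∃ S : Submonoid B, S = (RingHom.ker ψ).primeCompl := ⟨_, rfl⟩
  have hSm : ∀ s : B, s ∈ S ↔ ψ s ≠ 0 := by
    intro s
    rw [hS]
    exact Iff.rfl
  have hψS : ∀ s : S, IsUnit (ψ s) := fun s => isUnit_iff_ne_zero.2 ((hSm s).1 s.2)
  have hbS : ∀ s : S, IsUnit (b s) := by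
    intro s
    refine isUnit_iff_ne_zero.2 fun h => (hSm s).1 s.2 ?_
    rw [hb (h.trans (map_zero b).symm), map_zero]
  let φK : Localization S →+* K := IsLocalization.lift hbS
  let φC : Localization S →+* ℂ := IsLocalization.lift hψS
  have hSle : S ≤ nonZeroDivisors B := by
    intro s hs
    rw [mem_nonZeroDivisors_iff_ne_zero]
    rintro rfl
    exact (hSm 0).1 hs (map_zero ψ)
  have hφK : Function.Injective φK := by
    rw [IsLocalization.lift_injective_iff hbS]
    intro u v
    rw [(IsLocalization.injective (Localization S) hSle).eq_iff, hb.eq_iff]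
  have hfS : ∀ i, a (f i) ∈ S := by
    intro i
    rw [hSm]
    have h1 := RingHom.congr_fun hψ (f i)
    rw [RingHom.comp_apply] at h1
    rw [h1]
    exact hc' i
  -- the elements of the localization
  let zt : ι → Localization S := fun i => algebraMap B (Localization S) (a (X i))
  let xt : κ → Localization S := fun i => IsLocalization.mk' (Localization S) (w i) ⟨_, hfS i⟩
  have hzK : ∀ i, φK (zt i) = z i := by
    intro i
    have h1 := RingHom.congr_fun hab (X i)
    rw [RingHom.comp_apply] at h1
    rw [IsLocalization.lift_eq, h1]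
    exact aeval_X z i
  have hzC : ∀ i, φC (zt i) = c i := by
    intro i
    have h1 := RingHom.congr_fun hψ (X i)
    rw [RingHom.comp_apply] at h1
    rw [IsLocalization.lift_eq, h1, eval_X]
  have hxK : ∀ i, φK (xt i) = x i := by
    intro i
    have h1 : b (a (f i)) = aeval z (f i) := RingHom.congr_fun hab (f i)
    have h2 : aeval z (f i) ≠ 0 := by
      intro h3
      exact hf0 i (hz (h3.trans (map_zero (aeval z)).symm))
    have h4 : b (w i) = b (a (f i)) * x i := by rw [hw' i, h1]
    refine (IsLocalization.lift_mk'_spec hbS (w i) (x i) ⟨_, hfS i⟩).2 ?_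
    exact h4
  let cB : ℂ →+* Localization S := (algebraMap B (Localization S)).comp (a.comp C)
  have hcK : φK.comp cB = algebraMap ℂ K := by
    refine RingHom.ext fun t => ?_
    change φK (algebraMap B (Localization S) (a (C t))) = _
    have h1 := RingHom.congr_fun hab (C t)
    rw [RingHom.comp_apply] at h1
    rw [IsLocalization.lift_eq, h1]
    exact aeval_C z t
  have hcC : φC.comp cB = RingHom.id ℂ := by
    refine RingHom.ext fun t => ?_
    change φC (algebraMap B (Localization S) (a (C t))) = _
    have h1 := RingHom.congr_fun hψ (C t)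
    rw [RingHom.comp_apply] at h1
    rw [IsLocalization.lift_eq, h1, eval_C]
    rfl
  refine ⟨fun i => φC (xt i), fun R hR => ?_⟩
  have hR0 : eval₂ cB (Sum.elim zt xt) R = 0 := by
    apply hφK
    rw [map_zero, eval₂_comp_left, hcK, ← hR, aeval_def]
    congr 1
    funext i
    rcases i with i | i
    · exact hzK i
    · exact hxK i
  have h1 := congrArg φC hR0
  rw [map_zero, eval₂_comp_left, hcC] at h1
  rw [← h1]
  change eval₂ (RingHom.id ℂ) (Sum.elim c fun i => φC (xt i)) R = _
  congr 1
  funext i
  rcases i with i | i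
  · exact (hzC i).symm
  · rfl

end Pool.Agent.H5.DG3
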