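import Pool.Agent.H5.DG3.Centre
import Pool.Agent.H5.DG.SecDim

/-!
# Project DG3, module OrdPull: the orders of the inverse images of the hypersurfaces

`exists_good_tuple`: `exists_ord_zero` for the set of all `F β b` (`base`).
`ord_pullback`: `exists_ord_zero` for the set of all products `T * F β b` with a form `T` such that
`T * aeval (F β) (G j)` lies in the ideal of `MultAt`; so `T` and `F β b` have order `0` (both are
regular).  Put `Lβ = aeval (F β) (G j)` and `L = aeval (F α) (G j)` at `x`.  By `compat` the points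
`(F α c (x))_c` and `(F β c (x))_c` are proportional: `F β c = (F β b / F α b) F α c`, and
`F α a F β b = F α b F β a`, so `F α b` has order `0` as well (`F α a`, `F β b` have order `0`, and
`F α b`, `F β a` are regular), the factor has order `0`, and `L`, `Lβ` have the same order
(`aeval_eq_pow_mul`, module SecDim, for the form `G j`).  If it is positive, `ord_ge_of_mult` for `Lβ`.
-/

open MvPolynomial
open Pool.Agent.H17 (PN VanishesAt ZariskiClosedIn)
open Pool.Agent.H17GT (coordFun)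
open Pool.Agent.H17LG.Variety (FunField ratio)
open Pool.Agent.H23.Fano (PrimeDivisorOver)
open Pool.Agent.H5.DG (Homog variety eval_ratio_mem)

noncomputable section

namespace Pool.Agent.H5.DG3

variable {N M m s w q : ℕ} {P : Ideal (MvPolynomial (Fin (M + 1)) ℂ)}
  {G : Fin m → MvPolynomial (Fin (M + 1)) ℂ} {I : Ideal (MvPolynomial (Fin (N + 1)) ℂ)}
  {B Z : Set (PN N)} {F : Fin s → Fin (M + 1) → MvPolynomial (Fin (N + 1)) ℂ}

theorem exists_good_tuple (h : RamifiedMorphism q P G I B Z F)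
    (Q : Ideal (MvPolynomial (Fin (N + 1)) ℂ)) [Q.IsPrime] (hQ : Homog Q) (hIQ : I ≤ Q)
    {E : PrimeDivisorOver (FunField Q) w} (hE : ¬ CentreIn Q B E) {j₁ : Fin (N + 1)}
    (hj₁ : coordFun Q j₁ ≠ 0) (hreg : ∀ i, 0 ≤ E.ord (ratio Q i j₁)) :
    ∃ α a, E.ord (aeval (fun i => ratio Q i j₁) (F α a)) = 0 := by
  obtain ⟨T, ⟨α, a, rfl⟩, hT⟩ := exists_ord_zero h.homog Q hQ hIQ hE hj₁ hreg
    {T | ∃ α a, T = F α a}
    (by
      rintro T ⟨α, a, rfl⟩
      obtain ⟨e, he⟩ := h.morphism.hom α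
      exact ⟨e, he a⟩)
    (fun x hx => by
      obtain ⟨α, a, ha⟩ := h.morphism.base x hx
      exact ⟨F α a, ⟨α, a, rfl⟩, ha⟩)
  exact ⟨α, a, hT⟩

private lemma ord_aeval_nonneg {K : Type} [Field K] [Algebra ℂ K] {k : ℕ}
    (E : PrimeDivisorOver K w) {y : Fin k → K} (hy : ∀ i, 0 ≤ E.ord (y i))
    (p : MvPolynomial (Fin k) ℂ) : 0 ≤ E.ord (aeval y p) := by
  induction p using MvPolynomial.induction_on with
  | C a => rw [MvPolynomial.aeval_C]; exact E.ord_const a
  | add p p' hp hp' => rw [map_add]; exact le_trans (le_min hp hp') (E.ord.map_add _ _)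
  | mul_X p i hp => rw [map_mul, aeval_X, E.ord.map_mul]; exact add_nonneg hp (hy i)

private lemma both_zero {a b : WithTop ℤ} (ha : 0 ≤ a) (hb : 0 ≤ b) (h : a + b = 0) :
    a = 0 ∧ b = 0 := by
  have h1 : a ≤ 0 := by
    calc a ≤ a + b := le_add_of_nonneg_right hb
      _ = 0 := h
  have h2 : b ≤ 0 := by
    calc b ≤ a + b := le_add_of_nonneg_left ha
      _ = 0 := h
  exact ⟨le_antisymm h1 ha, le_antisymm h2 hb⟩

theorem ord_pullback (h : RamifiedMorphism q P G I B Z F)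
    (hGh : ∀ j, ∃ d, (G j).IsHomogeneous d)
    (Q : Ideal (MvPolynomial (Fin (N + 1)) ℂ)) [Q.IsPrime] (hQ : Homog Q) (hIQ : I ≤ Q)
    {E : PrimeDivisorOver (FunField Q) w} (hE : ¬ CentreIn Q B E) {j₁ : Fin (N + 1)}
    (hj₁ : coordFun Q j₁ ≠ 0) (hreg : ∀ i, 0 ≤ E.ord (ratio Q i j₁)) {α : Fin s}
    {a : Fin (M + 1)} (hα : E.ord (aeval (fun i => ratio Q i j₁) (F α a)) = 0) (j : Fin m) :
    E.ord (aeval (fun i => ratio Q i j₁) (aeval (F α) (G j))) = 0 ∨
      (((q : ℕ) : ℤ) : WithTop ℤ) ≤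
        E.ord (aeval (fun i => ratio Q i j₁) (aeval (F α) (G j))) := by
  obtain ⟨T', ⟨β, b, T, d, hT', hTd, hTL⟩, hT0⟩ := exists_ord_zero h.homog Q hQ hIQ hE hj₁ hreg
    {T' | ∃ (β : Fin s) (b : Fin (M + 1)) (T : MvPolynomial (Fin (N + 1)) ℂ) (d : ℕ),
      T' = T * F β b ∧ T.IsHomogeneous d ∧
      T * aeval (F β) (G j) ∈
        (Ideal.radical (Ideal.span {aeval (F β) (G j)} ⊔ I)) ^ q ⊔ I}
    (by
      rintro T' ⟨β, b, T, d, rfl, hTd, -⟩
      obtain ⟨e, he⟩ := h.morphism.hom β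
      exact ⟨d + e, hTd.mul (he b)⟩)
    (fun x hx => by
      obtain ⟨β, ⟨b, hb⟩, T, d, hTd, hTx, hTL⟩ := h.mult x hx j
      refine ⟨T * F β b, ⟨β, b, T, d, rfl, hTd, hTL⟩, ?_⟩
      intro hcon
      unfold VanishesAt at hcon
      rw [map_mul, mul_eq_zero] at hcon
      exact hcon.elim hTx hb)
  obtain ⟨y, hy⟩ : ∃ y : Fin (N + 1) → FunField Q, y = fun i => ratio Q i j₁ := ⟨_, rfl⟩
  have hyr : ∀ i, 0 ≤ E.ord (y i) := by rw [hy]; exact hreg
  rw [← hy] at hα hT0 ⊢
  rw [hT', map_mul, E.ord.map_mul] at hT0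
  obtain ⟨hTz, hβz⟩ := both_zero (ord_aeval_nonneg E hyr T) (ord_aeval_nonneg E hyr (F β b)) hT0
  -- compatibility
  have hcomp : ∀ c, aeval y (F α c) * aeval y (F β b) = aeval y (F α b) * aeval y (F β c) := by
    intro c
    have h1 := eval_ratio_mem Q hQ hj₁ (hIQ (h.morphism.compat α β c b))
    rw [← hy, map_sub, map_mul, map_mul, sub_eq_zero] at h1
    exact h1
  have h2 : E.ord (aeval y (F α b)) + E.ord (aeval y (F β a)) = 0 := by
    rw [← E.ord.map_mul, ← hcomp a, E.ord.map_mul, hα, hβz, add_zero]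
  obtain ⟨hαb, -⟩ := both_zero (ord_aeval_nonneg E hyr _) (ord_aeval_nonneg E hyr _) h2
  have hne : aeval y (F α b) ≠ 0 := by
    intro hcon
    rw [hcon, E.ord.map_zero] at hαb
    exact absurd hαb WithTop.top_ne_zero
  obtain ⟨κ, hκ⟩ : ∃ κ : FunField Q, κ = (aeval y (F α b))⁻¹ * aeval y (F β b) := ⟨_, rfl⟩
  have hκm : aeval y (F α b) * κ = aeval y (F β b) := by
    rw [hκ, ← mul_assoc, mul_inv_cancel₀ hne, one_mul]
  have hκ0 : E.ord κ = 0 := by
    have h3 : E.ord (aeval y (F α b)) + E.ord κ = 0 := by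
      rw [← E.ord.map_mul, hκm, hβz]
    rwa [hαb, zero_add] at h3
  have hprop : ∀ c, aeval y (F β c) = κ * aeval y (F α c) := by
    intro c
    have h3 := hcomp c
    apply mul_left_cancel₀ hne
    rw [← h3, ← mul_assoc, hκm, mul_comm]
  obtain ⟨d', hd'⟩ := hGh j
  have hcomp2 : ∀ γ, aeval y (aeval (F γ) (G j)) = aeval (fun c => aeval y (F γ c)) (G j) := by
    intro γ
    rw [← AlgHom.comp_apply, MvPolynomial.comp_aeval]
  have hLL : aeval y (aeval (F β) (G j)) = κ ^ d' * aeval y (aeval (F α) (G j)) := by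
    rw [hcomp2, hcomp2]
    exact Pool.Agent.H5.DG.aeval_eq_pow_mul hd' hprop
  have hord : E.ord (aeval y (aeval (F β) (G j))) = E.ord (aeval y (aeval (F α) (G j))) := by
    rw [hLL, E.ord.map_mul, E.ord.map_pow, hκ0, smul_zero, zero_add]
  rcases (ord_aeval_nonneg E hyr (aeval (F α) (G j))).eq_or_lt with h0 | hpos
  · exact Or.inl h0.symm
  · right
    rw [← hord] at hpos ⊢
    rw [hy] at hpos hTz ⊢
    exact ord_ge_of_mult Q hQ hIQ hj₁ hreg hTL hTz hpos

end Pool.Agent.H5.DG3
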